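import Mathlib

/-! Falling factorials. -/

namespace Pool.Agent.H69.AP

open Finset

theorem Fact_step {n m : ℕ} (hn : 0 < n) (hm : 2 * m ≤ n) :
    (n : ℝ) ≤ Real.exp (2 * (m : ℝ) / n) * ((n : ℝ) - m) := by
  have hn' : (0 : ℝ) < n := by exact_mod_cast hn
  have hm' : 2 * (m : ℝ) ≤ n := by exact_mod_cast hm
  have hm0 : (0 : ℝ) ≤ m := Nat.cast_nonneg m
  have h1 : 2 * (m : ℝ) / n + 1 ≤ Real.exp (2 * (m : ℝ) / n) := Real.add_one_le_exp _
  have h2 : (0 : ℝ) ≤ (n : ℝ) - m := by linarith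
  refine le_trans ?_ (mul_le_mul_of_nonneg_right h1 h2)
  have h3 : (2 * (m : ℝ) / n + 1) * ((n : ℝ) - m) = n + m * (n - 2 * m) / n := by
    field_simp
    ring
  rw [h3]
  have h4 : 0 ≤ (m : ℝ) * (n - 2 * m) / n :=
    div_nonneg (mul_nonneg hm0 (by linarith)) hn'.le
  linarith

theorem Fact_aux {n : ℕ} (hn : 0 < n) (m : ℕ) (hm : 2 * m ≤ n) :
    ((n - m).factorial : ℝ) * (n : ℝ) ^ m ≤
      Real.exp ((m : ℝ) * (m - 1) / n) * n.factorial := by
  have hn' : (0 : ℝ) < n := by exact_mod_cast hn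
  induction m with
  | zero => simp
  | succ m ih =>
    have ih' := ih (by omega)
    have h1 : (n - m).factorial = (n - m) * (n - (m + 1)).factorial := by
      have : n - m = (n - (m + 1)) + 1 := by omega
      rw [this, Nat.factorial_succ]
    have h2 : ((n - m : ℕ) : ℝ) = (n : ℝ) - m := by
      rw [Nat.cast_sub (by omega)]
    have h3 := Fact_step hn (m := m) (by omega)
    calc ((n - (m + 1)).factorial : ℝ) * (n : ℝ) ^ (m + 1)
        = ((n - (m + 1)).factorial : ℝ) * (n : ℝ) ^ m * n := by rw [pow_succ]; ring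
      _ ≤ ((n - (m + 1)).factorial : ℝ) * (n : ℝ) ^ m *
          (Real.exp (2 * (m : ℝ) / n) * ((n : ℝ) - m)) :=
          mul_le_mul_of_nonneg_left h3 (by positivity)
      _ = Real.exp (2 * (m : ℝ) / n) * (((n - m).factorial : ℝ) * (n : ℝ) ^ m) := by
          rw [h1, Nat.cast_mul, h2]; ring
      _ ≤ Real.exp (2 * (m : ℝ) / n) * (Real.exp ((m : ℝ) * (m - 1) / n) * n.factorial) :=
          mul_le_mul_of_nonneg_left ih' (Real.exp_pos _).le
      _ = Real.exp (((m + 1 : ℕ) : ℝ) * ((m + 1 : ℕ) - 1) / n) * n.factorial := by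
          rw [← mul_assoc, ← Real.exp_add]
          congr 2
          push_cast
          ring

theorem fact_mul_pow_le {n m : ℕ} (hm : 2 * m ≤ n) :
    ((n - m).factorial : ℝ) * (n : ℝ) ^ m ≤ Real.exp ((m : ℝ) ^ 2 / n) * n.factorial := by
  rcases Nat.eq_zero_or_pos n with hn | hn
  · subst hn
    have : m = 0 := by omega
    subst this
    simp
  · refine (Fact_aux hn m hm).trans (mul_le_mul_of_nonneg_right (Real.exp_le_exp.mpr ?_)
      (Nat.cast_nonneg _))
    have hn' : (0 : ℝ) < n := by exact_mod_cast hn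
    have hm0 : (0 : ℝ) ≤ m := Nat.cast_nonneg m
    refine div_le_div_of_nonneg_right ?_ hn'.le
    nlinarith

end Pool.Agent.H69.AP
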