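import Pool.Agent.H69.AP.PermFun
import Pool.Agent.H69.AP.Fact

/-! The number of permutations that avoid given values on few points. -/

namespace Pool.Agent.H69.AP

open Finset

open scoped Classical in
theorem avoid_sum {n : ℕ} (A : Finset (Fin n)) (forb : Fin n → Finset (Fin n)) :
    ∑ s : Fin n → Fin n, (if ∀ a ∈ A, s a ∉ forb a then (1 : ℝ) else 0) =
      (∏ a ∈ A, ((n : ℝ) - ((forb a).card : ℝ))) * (n : ℝ) ^ (n - A.card) := by
  rw [Finset.sum_boole]
  have h1 : (univ.filter (fun s : Fin n → Fin n => ∀ a ∈ A, s a ∉ forb a)) =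
      Fintype.piFinset (fun a => if a ∈ A then (forb a)ᶜ else univ) := by
    ext s
    simp only [mem_filter, mem_univ, true_and, Fintype.mem_piFinset]
    constructor
    · intro h a
      by_cases ha : a ∈ A
      · rw [if_pos ha, mem_compl]
        exact h a ha
      · rw [if_neg ha]
        exact mem_univ _
    · intro h a ha
      have h2 := h a
      rw [if_pos ha, mem_compl] at h2
      exact h2
  rw [h1, Fintype.card_piFinset, Nat.cast_prod,
    ← Finset.prod_mul_prod_compl A (fun a => (((if a ∈ A then (forb a)ᶜ else univ : Finset (Fin n)).card : ℕ) : ℝ))]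
  congr 1
  · refine prod_congr rfl fun a ha => ?_
    rw [if_pos ha, card_compl, Fintype.card_fin, Nat.cast_sub]
    exact (card_le_univ _).trans (le_of_eq (Fintype.card_fin n))
  · have h3 : ∀ a ∈ Aᶜ, (((if a ∈ A then (forb a)ᶜ else univ : Finset (Fin n)).card : ℕ) : ℝ) =
        (n : ℝ) := by
      intro a ha
      rw [if_neg (mem_compl.1 ha), card_univ, Fintype.card_fin]
    rw [prod_congr rfl h3, prod_const, card_compl, Fintype.card_fin]

theorem avoid_factor {n : ℕ} (hn : 1 ≤ n) (f : ℝ) :
    (n : ℝ) - f ≤ n * Real.exp (- (f / n)) := by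
  have hnR : (0 : ℝ) < n := by exact_mod_cast hn
  have h1 := Real.add_one_le_exp (- (f / n))
  calc (n : ℝ) - f = n * (- (f / n) + 1) := by
        field_simp
        ring
    _ ≤ n * Real.exp (- (f / n)) := mul_le_mul_of_nonneg_left h1 hnR.le

open scoped Classical in
theorem avoid_count {n : ℕ} (A : Finset (Fin n)) (hA : 2 * A.card ≤ n)
    (forb : Fin n → Finset (Fin n)) :
    ((univ.filter (fun π : Equiv.Perm (Fin n) => ∀ a ∈ A, π a ∉ forb a)).card : ℝ) ≤
      Real.exp ((A.card : ℝ) ^ 2 / n - (∑ a ∈ A, ((forb a).card : ℝ)) / n) * n.factorial := by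
  rcases Nat.eq_zero_or_pos n with h0 | hn
  · subst h0
    have hA0 : A = ∅ := Finset.eq_empty_of_isEmpty A
    subst hA0
    have h1 : (univ.filter (fun π : Equiv.Perm (Fin 0) =>
        ∀ a ∈ (∅ : Finset (Fin 0)), π a ∉ forb a)).card ≤ 1 := by
      refine (card_filter_le _ _).trans ?_
      rw [card_univ, Fintype.card_perm, Fintype.card_fin]
      rfl
    have h2 : ((univ.filter (fun π : Equiv.Perm (Fin 0) =>
        ∀ a ∈ (∅ : Finset (Fin 0)), π a ∉ forb a)).card : ℝ) ≤ 1 := by exact_mod_cast h1
    simpa using h2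
  · have hnR : (0 : ℝ) < n := by exact_mod_cast hn
    have h1 := perm_le_fun A (fun s => if ∀ a ∈ A, s a ∉ forb a then (1 : ℝ) else 0)
      (fun s => by positivity) (by
        intro s s' hss
        have h2 : (∀ a ∈ A, s a ∉ forb a) ↔ (∀ a ∈ A, s' a ∉ forb a) := by
          constructor
          · intro h a ha
            rw [← hss a ha]
            exact h a ha
          · intro h a ha
            rw [hss a ha]
            exact h a ha
        simp only [h2])
    rw [avoid_sum, Finset.sum_boole] at h1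
    have hAn : A.card ≤ n := by omega
    have hprod : ∏ a ∈ A, ((n : ℝ) - ((forb a).card : ℝ)) ≤
        (n : ℝ) ^ A.card * Real.exp (- ((∑ a ∈ A, ((forb a).card : ℝ)) / n)) := by
      have h3 : ∏ a ∈ A, ((n : ℝ) - ((forb a).card : ℝ)) ≤
          ∏ a ∈ A, ((n : ℝ) * Real.exp (- (((forb a).card : ℝ) / n))) := by
        refine prod_le_prod (fun a _ => ?_) (fun a _ => avoid_factor hn _)
        have h4 : (forb a).card ≤ n := (card_le_univ _).trans (le_of_eq (Fintype.card_fin n))
        have h5 : ((forb a).card : ℝ) ≤ n := by exact_mod_cast h4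
        linarith
      refine h3.trans (le_of_eq ?_)
      rw [prod_mul_distrib, prod_const, ← Real.exp_sum, sum_neg_distrib, ← Finset.sum_div]
    have hpow : (0 : ℝ) < (n : ℝ) ^ (n - A.card) := pow_pos hnR _
    have h6 : ((univ.filter (fun π : Equiv.Perm (Fin n) => ∀ a ∈ A, π a ∉ forb a)).card : ℝ) ≤
        ((n - A.card).factorial : ℝ) * ∏ a ∈ A, ((n : ℝ) - ((forb a).card : ℝ)) := by
      refine le_of_mul_le_mul_left (h1.trans (le_of_eq ?_)) hpow
      ring
    refine h6.trans ?_
    have h7 := fact_mul_pow_le (n := n) (m := A.card) hA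
    have hfac : (0 : ℝ) ≤ ((n - A.card).factorial : ℝ) := Nat.cast_nonneg _
    calc ((n - A.card).factorial : ℝ) * ∏ a ∈ A, ((n : ℝ) - ((forb a).card : ℝ))
        ≤ ((n - A.card).factorial : ℝ) *
          ((n : ℝ) ^ A.card * Real.exp (- ((∑ a ∈ A, ((forb a).card : ℝ)) / n))) :=
          mul_le_mul_of_nonneg_left hprod hfac
      _ = ((n - A.card).factorial : ℝ) * (n : ℝ) ^ A.card *
          Real.exp (- ((∑ a ∈ A, ((forb a).card : ℝ)) / n)) := by ring
      _ ≤ Real.exp ((A.card : ℝ) ^ 2 / n) * n.factorial *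
          Real.exp (- ((∑ a ∈ A, ((forb a).card : ℝ)) / n)) :=
          mul_le_mul_of_nonneg_right h7 (Real.exp_pos _).le
      _ = _ := by
          rw [sub_eq_add_neg, Real.exp_add]
          ring

end Pool.Agent.H69.AP
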