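import Pool.Agent.H69.AP.RunSum

/-! The sum of the windows over the elements that are not local. -/

namespace Pool.Agent.H69.AP

open Finset

theorem block_mono (D : ℕ → ℕ → Prop) (col : ℕ → ℕ) (y : ℕ) {a b : ℕ} (h : a < b) :
    pos D col y a < pos D col y b :=
  lt_of_le_of_lt (Nat.le_add_right _ _) (pos_lt_pos D col y h)

theorem block_one {κ r n τ m nb : ℕ} (hκ : 3 ≤ κ) (hr : 16 ^ (2 ^ κ) ≤ r) (D : ℕ → ℕ → Prop)
    (hD : KFree (2 ^ κ) m D) (hrun : ∀ y x, x < m → run D y x < 4 * 2 ^ κ)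
    (hm : 2 * r * nb ≤ m) (p : ℕ → ℕ) (hinj : ∀ a, a < n → ∀ b, b < n → p a = p b → a = b)
    (hτ : 4 * 2 ^ κ ≤ τ) (col : ℕ → ℕ) (y : ℕ) (β : ℕ) (hβ : β < nb) (A : Finset ℕ)
    (hA : ∀ a ∈ A, a < n ∧ p a / r = β ∧ ¬ Loc r τ p a) :
    ∑ a ∈ A, win D r (p a) (pos D col y a) ≤ r ^ 2 := by
  classical
  have hr0 : 0 < r := lt_of_lt_of_le (by positivity) hr
  obtain ⟨W, hW⟩ : ∃ W, W = Ico (2 * r * β) (2 * r * β + 2 * r) := ⟨_, rfl⟩
  have hinjpos : ∀ a ∈ A, ∀ b ∈ A, pos D col y a = pos D col y b → a = b := by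
    intro a _ b _ hab
    rcases lt_trichotomy a b with h | h | h
    · have := block_mono D col y h
      omega
    · exact h
    · have := block_mono D col y h
      omega
  have h1 : ∑ a ∈ A, win D r (p a) (pos D col y a) =
      ∑ v ∈ A.image (pos D col y), ∑ x ∈ W, run D v x := by
    rw [sum_image hinjpos]
    refine sum_congr rfl fun a ha => ?_
    unfold win
    rw [(hA a ha).2.1, hW]
  rw [h1]
  refine run_sum hκ hr hD _ W ?_ ?_ ?_ ?_ hrun
  · intro x hx
    rw [hW, mem_Ico] at hx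
    have h2 : 2 * r * (β + 1) ≤ 2 * r * nb := Nat.mul_le_mul_left _ hβ
    have h3 : 2 * r * (β + 1) = 2 * r * β + 2 * r := by ring
    omega
  · rw [hW, Nat.card_Ico]
    omega
  · refine card_image_le.trans ?_
    have h2 : A.card = (A.image p).card := by
      rw [card_image_of_injOn]
      intro a ha b hb hab
      exact hinj a (hA a ha).1 b (hA b hb).1 hab
    have h3 : A.image p ⊆ Ico (r * β) (r * β + r) := by
      intro c hc
      rw [mem_image] at hc
      obtain ⟨a, ha, rfl⟩ := hc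
      have h4 := (hA a ha).2.1
      have h5 := Nat.div_add_mod (p a) r
      have h6 := Nat.mod_lt (p a) hr0
      rw [h4] at h5
      rw [mem_Ico]
      omega
    rw [h2]
    refine (card_le_card h3).trans ?_
    rw [Nat.card_Ico]
    omega
  · intro v hv v' hv' hlt
    rw [mem_image] at hv hv'
    obtain ⟨a, ha, rfl⟩ := hv
    obtain ⟨a', ha', rfl⟩ := hv'
    have haa : a < a' := by
      rcases lt_trichotomy a a' with h | h | h
      · exact h
      · rw [h] at hlt
        exact absurd hlt (lt_irrefl _)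
      · have := block_mono D col y h
        omega
    have hfar : a + τ < a' := by
      by_contra hcon
      exact (hA a' ha').2.2 ⟨a, haa, by omega, by rw [(hA a ha).2.1, (hA a' ha').2.1]⟩
    have h2 := pos_add_le D col y a (a' - a)
    rw [show a + (a' - a) = a' by omega] at h2
    omega

open scoped Classical in
theorem block_total {κ r n τ m nb : ℕ} (hκ : 3 ≤ κ) (hr : 16 ^ (2 ^ κ) ≤ r) (D : ℕ → ℕ → Prop)
    (hD : KFree (2 ^ κ) m D) (hrun : ∀ y x, x < m → run D y x < 4 * 2 ^ κ)
    (hm : 2 * r * nb ≤ m) (p : ℕ → ℕ) (hinj : ∀ a, a < n → ∀ b, b < n → p a = p b → a = b)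
    (hp : ∀ a, p a / r < nb) (hτ : 4 * 2 ^ κ ≤ τ) (col : ℕ → ℕ) (y : ℕ) :
    ∑ a ∈ range n, (if Loc r τ p a then 0 else win D r (p a) (pos D col y a)) ≤ nb * r ^ 2 := by
  rw [← Finset.sum_fiberwise_of_maps_to (s := range n) (t := range nb) (g := fun a => p a / r)
    (fun a _ => mem_range.2 (hp a))]
  have h1 : ∀ β ∈ range nb, ∑ a ∈ range n with p a / r = β,
      (if Loc r τ p a then 0 else win D r (p a) (pos D col y a)) ≤ r ^ 2 := by
    intro β hβ
    have h2 : ∑ a ∈ range n with p a / r = β,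
        (if Loc r τ p a then 0 else win D r (p a) (pos D col y a)) =
        ∑ a ∈ ((range n).filter (fun a => p a / r = β)).filter (fun a => ¬ Loc r τ p a),
          win D r (p a) (pos D col y a) := by
      rw [sum_filter (s := (range n).filter (fun a => p a / r = β))]
      refine sum_congr rfl fun a _ => ?_
      by_cases h : Loc r τ p a
      · rw [if_pos h, if_neg (not_not.2 h)]
      · rw [if_neg h, if_pos h]
    rw [h2]
    refine block_one (n := n) hκ hr D hD hrun hm p hinj hτ col y β (mem_range.1 hβ) _ ?_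
    intro a ha
    rw [mem_filter, mem_filter, mem_range] at ha
    exact ⟨ha.1.1, ha.1.2, ha.2⟩
  refine (sum_le_sum h1).trans (le_of_eq ?_)
  rw [sum_const, card_range, smul_eq_mul]

end Pool.Agent.H69.AP
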