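import Pool.Agent.H69.AP.Def

/-! The average number of local elements of a permutation. -/

namespace Pool.Agent.H69.AP

open Finset

/-- the number of permutations with two prescribed values does not depend on the values -/
theorem lc_two_card {n : ℕ} {x y : Fin n} {c c' d d' : Fin n} (hc : c ≠ c') (hd : d ≠ d') :
    (univ.filter (fun π : Equiv.Perm (Fin n) => π x = c ∧ π y = c')).card ≤
      (univ.filter (fun π : Equiv.Perm (Fin n) => π x = d ∧ π y = d')).card := by
  have he : Equiv.swap c d c' ≠ d := by
    intro h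
    have h1 : Equiv.swap c d c = d := Equiv.swap_apply_left c d
    exact hc ((Equiv.swap c d).injective (h1.trans h.symm))
  set σ : Equiv.Perm (Fin n) := Equiv.swap (Equiv.swap c d c') d' * Equiv.swap c d with hσ
  have h1 : σ c = d := by
    rw [hσ, Equiv.Perm.mul_apply, Equiv.swap_apply_left]
    exact Equiv.swap_apply_of_ne_of_ne he.symm hd
  have h2 : σ c' = d' := by
    rw [hσ, Equiv.Perm.mul_apply, Equiv.swap_apply_left]
  apply Finset.card_le_card_of_injOn (fun π => σ * π)
  · intro π hπ
    rw [Finset.mem_coe, Finset.mem_filter] at hπ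
    rw [Finset.mem_coe, Finset.mem_filter]
    refine ⟨Finset.mem_univ _, ?_, ?_⟩
    · rw [Equiv.Perm.mul_apply, hπ.2.1, h1]
    · rw [Equiv.Perm.mul_apply, hπ.2.2, h2]
  · intro a _ b _ h
    exact mul_left_cancel h

theorem lc_block_card {n r : ℕ} (hr : 1 ≤ r) (q : ℕ) :
    (univ.filter (fun c' : Fin n => (c' : ℕ) / r = q)).card ≤ r := by
  have h : (univ.filter (fun c' : Fin n => (c' : ℕ) / r = q)).card ≤ (range r).card := by
    apply Finset.card_le_card_of_injOn (fun c' : Fin n => (c' : ℕ) % r)
    · intro c _
      rw [Finset.mem_coe, Finset.mem_range]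
      exact Nat.mod_lt _ hr
    · intro a ha b hb hab
      rw [Finset.mem_coe, Finset.mem_filter] at ha hb
      have h1 := Nat.div_add_mod (a : ℕ) r
      have h2 := Nat.div_add_mod (b : ℕ) r
      apply Fin.ext
      simp only at hab
      rw [← h1, ← h2, ha.2, hb.2, hab]
  simpa using h

theorem lc_pair_count {n r : ℕ} (hn : 2 ≤ n) (hr : 1 ≤ r) {x y : Fin n} (hxy : x ≠ y) :
    (n - 1) * (univ.filter (fun π : Equiv.Perm (Fin n) => (π x : ℕ) / r = (π y : ℕ) / r)).card ≤
      r * n.factorial := by
  classical
  set d : Fin n := ⟨0, by omega⟩ with hd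
  set d' : Fin n := ⟨1, by omega⟩ with hd'
  have hdd : d ≠ d' := by
    intro h
    have := congrArg Fin.val h
    simp [hd, hd'] at this
  set N : ℕ := (univ.filter (fun π : Equiv.Perm (Fin n) => π x = d ∧ π y = d')).card with hN
  -- total count
  have htot : n * (n - 1) * N ≤ n.factorial := by
    have h1 : (univ : Finset (Equiv.Perm (Fin n))).card =
        ∑ cc ∈ (univ : Finset (Fin n)).offDiag,
          (univ.filter (fun π : Equiv.Perm (Fin n) => (π x, π y) = cc)).card := by
      apply Finset.card_eq_sum_card_fiberwise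
      intro π _
      rw [Finset.mem_coe, Finset.mem_offDiag]
      exact ⟨Finset.mem_univ _, Finset.mem_univ _, fun h => hxy (π.injective h)⟩
    have h2 : (univ : Finset (Equiv.Perm (Fin n))).card = n.factorial := by
      rw [Finset.card_univ, Fintype.card_perm, Fintype.card_fin]
    rw [← h2, h1]
    have h3 : ∀ cc ∈ (univ : Finset (Fin n)).offDiag,
        N ≤ (univ.filter (fun π : Equiv.Perm (Fin n) => (π x, π y) = cc)).card := by
      rintro ⟨c, c'⟩ hcc
      rw [Finset.mem_offDiag] at hcc
      refine (lc_two_card (x := x) (y := y) hdd hcc.2.2).trans (le_of_eq ?_)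
      congr 1
      ext π
      simp only [Finset.mem_filter, Finset.mem_univ, true_and, Prod.mk.injEq]
    have h4 := Finset.card_nsmul_le_sum _ _ N h3
    rw [Finset.offDiag_card, Finset.card_univ, Fintype.card_fin, smul_eq_mul] at h4
    calc n * (n - 1) * N = (n * n - n) * N := by
          congr 1
          rw [Nat.mul_sub, Nat.mul_one]
      _ ≤ _ := h4
  -- the pairs in the same block
  set S : Finset (Fin n × Fin n) :=
    univ.filter (fun cc : Fin n × Fin n => cc.1 ≠ cc.2 ∧ (cc.1 : ℕ) / r = (cc.2 : ℕ) / r) with hS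
  have hScard : S.card ≤ n * r := by
    have h1 : S.card = ∑ c : Fin n, (S.filter (fun cc => cc.1 = c)).card := by
      apply Finset.card_eq_sum_card_fiberwise
      intro _ _
      exact Finset.mem_coe.mpr (Finset.mem_univ _)
    rw [h1]
    have h2 : ∀ c ∈ (univ : Finset (Fin n)), (S.filter (fun cc => cc.1 = c)).card ≤ r := by
      intro c _
      refine le_trans ?_ (lc_block_card (n := n) hr ((c : ℕ) / r))
      apply Finset.card_le_card_of_injOn (fun cc => cc.2)
      · intro cc hcc
        rw [Finset.mem_coe, Finset.mem_filter, hS, Finset.mem_filter] at hcc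
        rw [Finset.mem_coe, Finset.mem_filter]
        refine ⟨Finset.mem_univ _, ?_⟩
        rw [← hcc.2]
        exact hcc.1.2.2.symm
      · intro a ha b hb hab
        rw [Finset.mem_coe, Finset.mem_filter] at ha hb
        exact Prod.ext (ha.2.trans hb.2.symm) hab
    have h3 := Finset.sum_le_card_nsmul _ _ r h2
    simpa using h3
  have hcount : (univ.filter
      (fun π : Equiv.Perm (Fin n) => (π x : ℕ) / r = (π y : ℕ) / r)).card ≤ n * r * N := by
    have h1 : (univ.filter
        (fun π : Equiv.Perm (Fin n) => (π x : ℕ) / r = (π y : ℕ) / r)).card =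
        ∑ cc ∈ S, ((univ.filter
          (fun π : Equiv.Perm (Fin n) => (π x : ℕ) / r = (π y : ℕ) / r)).filter
            (fun π => (π x, π y) = cc)).card := by
      apply Finset.card_eq_sum_card_fiberwise
      intro π hπ
      rw [Finset.mem_coe, Finset.mem_filter] at hπ
      rw [Finset.mem_coe, hS, Finset.mem_filter]
      exact ⟨Finset.mem_univ _, fun h => hxy (π.injective h), hπ.2⟩
    rw [h1]
    have h2 : ∀ cc ∈ S, ((univ.filter
          (fun π : Equiv.Perm (Fin n) => (π x : ℕ) / r = (π y : ℕ) / r)).filter
            (fun π => (π x, π y) = cc)).card ≤ N := by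
      rintro ⟨c, c'⟩ hcc
      rw [hS, Finset.mem_filter] at hcc
      refine le_trans ?_ (lc_two_card (x := x) (y := y) hcc.2.1 hdd)
      apply Finset.card_le_card
      intro π hπ
      rw [Finset.mem_filter] at hπ
      rw [Finset.mem_filter]
      exact ⟨Finset.mem_univ _, Prod.mk.inj hπ.2⟩
    have h3 := Finset.sum_le_card_nsmul _ _ N h2
    rw [smul_eq_mul] at h3
    exact h3.trans (Nat.mul_le_mul_right _ hScard)
  calc (n - 1) * (univ.filter
        (fun π : Equiv.Perm (Fin n) => (π x : ℕ) / r = (π y : ℕ) / r)).card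
      ≤ (n - 1) * (n * r * N) := Nat.mul_le_mul_left _ hcount
    _ = r * (n * (n - 1) * N) := by ring
    _ ≤ r * n.factorial := Nat.mul_le_mul_left _ htot

open scoped Classical in
theorem sum_local {n r τ : ℕ} (hn : 2 ≤ n) (hr : 1 ≤ r) :
    ∑ π : Equiv.Perm (Fin n), ((range n).filter (fun a => Loc r τ (pn π) a)).card ≤
      2 * τ * r * n.factorial := by
  set M : ℕ × ℕ → ℕ := fun ak => (univ.filter (fun π : Equiv.Perm (Fin n) =>
    ak.2 + 1 ≤ ak.1 ∧ pn π (ak.1 - (ak.2 + 1)) / r = pn π ak.1 / r)).card with hM
  have hMle : ∀ ak ∈ (range n ×ˢ range τ), (n - 1) * M ak ≤ r * n.factorial := by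
    rintro ⟨a, k⟩ hak
    rw [Finset.mem_product, Finset.mem_range, Finset.mem_range] at hak
    by_cases hka : k + 1 ≤ a
    · have hxy : (⟨a - (k + 1), by have := hak.1; omega⟩ : Fin n) ≠ ⟨a, hak.1⟩ := by
        intro h
        have := congrArg Fin.val h
        simp only at this
        omega
      refine le_trans (Nat.mul_le_mul_left _ ?_) (lc_pair_count hn hr hxy)
      apply Finset.card_le_card
      intro π hπ
      rw [Finset.mem_filter] at hπ
      rw [Finset.mem_filter]
      refine ⟨Finset.mem_univ _, ?_⟩
      have h1 := hπ.2.2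
      simp only [pn] at h1
      rw [dif_pos (show a - (k + 1) < n by have := hak.1; omega), dif_pos hak.1] at h1
      exact h1
    · have h0 : M (a, k) = 0 := by
        rw [hM]
        simp only
        rw [Finset.card_eq_zero, Finset.filter_eq_empty_iff]
        intro π _ h
        exact hka h.1
      rw [h0]
      simp
  have hsum : ∑ π : Equiv.Perm (Fin n), ((range n).filter (fun a => Loc r τ (pn π) a)).card ≤
      ∑ ak ∈ range n ×ˢ range τ, M ak := by
    have h1 : ∀ π : Equiv.Perm (Fin n), ((range n).filter (fun a => Loc r τ (pn π) a)).card ≤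
        ((range n ×ˢ range τ).filter (fun ak =>
          ak.2 + 1 ≤ ak.1 ∧ pn π (ak.1 - (ak.2 + 1)) / r = pn π ak.1 / r)).card := by
      intro π
      have h2 : (range n).filter (fun a => Loc r τ (pn π) a) ⊆
          ((range n ×ˢ range τ).filter (fun ak =>
            ak.2 + 1 ≤ ak.1 ∧ pn π (ak.1 - (ak.2 + 1)) / r = pn π ak.1 / r)).image Prod.fst := by
        intro a ha
        rw [Finset.mem_filter, Finset.mem_range] at ha
        obtain ⟨han, a', h3, h4, h5⟩ := ha
        rw [Finset.mem_image]
        refine ⟨(a, a - a' - 1), ?_, rfl⟩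
        rw [Finset.mem_filter, Finset.mem_product, Finset.mem_range, Finset.mem_range]
        refine ⟨⟨han, ?_⟩, ?_, ?_⟩
        · show a - a' - 1 < τ
          omega
        · show a - a' - 1 + 1 ≤ a
          omega
        · show pn π (a - (a - a' - 1 + 1)) / r = pn π a / r
          rw [show a - (a - a' - 1 + 1) = a' by omega]
          exact h5
      exact (Finset.card_le_card h2).trans Finset.card_image_le
    refine (Finset.sum_le_sum fun π _ => h1 π).trans (le_of_eq ?_)
    simp only [hM, Finset.card_filter]
    rw [Finset.sum_comm]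
  have hfin : (n - 1) * ∑ π : Equiv.Perm (Fin n),
      ((range n).filter (fun a => Loc r τ (pn π) a)).card ≤
      (n - 1) * (2 * τ * r * n.factorial) := by
    calc (n - 1) * ∑ π : Equiv.Perm (Fin n), ((range n).filter (fun a => Loc r τ (pn π) a)).card
        ≤ (n - 1) * ∑ ak ∈ range n ×ˢ range τ, M ak := Nat.mul_le_mul_left _ hsum
      _ = ∑ ak ∈ range n ×ˢ range τ, (n - 1) * M ak := Finset.mul_sum _ _ _
      _ ≤ ∑ ak ∈ range n ×ˢ range τ, r * n.factorial := Finset.sum_le_sum hMle
      _ = n * τ * (r * n.factorial) := by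
          rw [Finset.sum_const, Finset.card_product, Finset.card_range, Finset.card_range,
            smul_eq_mul]
      _ ≤ (2 * (n - 1)) * τ * (r * n.factorial) := by
          apply Nat.mul_le_mul_right
          apply Nat.mul_le_mul_right
          omega
      _ = (n - 1) * (2 * τ * r * n.factorial) := by ring
  exact Nat.le_of_mul_le_mul_left hfin (by omega)

end Pool.Agent.H69.AP
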