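import Pool.Agent.H69.AP.UpDet
import Pool.Agent.H69.AP.LocCount

/-! The upper bound for almost all permutations. -/

namespace Pool.Agent.H69.AP

open Finset

theorem up_log_le {n K : ℕ} (hn : 1 ≤ n) (hnK : n < 64 ^ (2 * K)) :
    Real.log n ≤ 8.4 * K := by
  have h1 : Real.log n ≤ Real.log ((64 : ℝ) ^ (2 * K)) := by
    apply Real.log_le_log (by exact_mod_cast hn)
    exact_mod_cast hnK.le
  have h2 : Real.log ((64 : ℝ) ^ (2 * K)) = (2 * K) * (6 * Real.log 2) := by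
    rw [Real.log_pow]
    have : (64 : ℝ) = 2 ^ 6 := by norm_num
    rw [this, Real.log_pow]
    push_cast
    ring
  have h3 : Real.log 2 < 0.6931471808 := Real.log_two_lt_d9
  have hK : (0 : ℝ) ≤ K := Nat.cast_nonneg K
  rw [h2] at h1
  nlinarith

theorem up_tau {n K : ℕ} (hn : 1 ≤ n) (hK : 1 ≤ K) (hnK : n < 64 ^ (2 * K)) :
    4 * (K : ℝ) * Real.log (8 * (n : ℝ) ^ 2) ≤ ((100 * K ^ 2 : ℕ) : ℝ) := by
  have h1 := up_log_le hn hnK
  have h0 : (0 : ℝ) < n := by exact_mod_cast hn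
  have h2 : Real.log (8 * (n : ℝ) ^ 2) = 3 * Real.log 2 + 2 * Real.log n := by
    rw [Real.log_mul (by norm_num) (by positivity), Real.log_pow]
    have : (8 : ℝ) = 2 ^ 3 := by norm_num
    rw [this, Real.log_pow]
    push_cast
    ring
  have h3 : Real.log 2 < 0.6931471808 := Real.log_two_lt_d9
  have hK' : (1 : ℝ) ≤ K := by exact_mod_cast hK
  rw [h2]
  push_cast
  nlinarith

open scoped Classical in
theorem upper_all (ε : ℝ) (hε : 0 < ε) : ∃ n₀ : ℕ, ∀ n : ℕ, n₀ ≤ n →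
    ((univ.filter (fun π : Equiv.Perm (Fin n) =>
      ¬ ((H68.RS.R (H68.RS.P π) : ℝ) ≤ 2 ^ 8 * ((n : ℝ) ^ 2 / Real.log n)))).card : ℝ) ≤
      ε * n.factorial := by
  have ht := tendsto_pow_const_div_const_pow_of_one_lt 3 (r := (4 : ℝ)) (by norm_num)
  have ht' : ∀ᶠ m : ℕ in Filter.atTop, (m : ℝ) ^ 3 / 4 ^ m < ε / 800 :=
    ht.eventually (gt_mem_nhds (by positivity))
  obtain ⟨m₀, hm₀⟩ := Filter.eventually_atTop.mp ht'
  set M := max m₀ 8 with hM
  refine ⟨64 ^ (2 * M), fun n hn => ?_⟩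
  have hn0 : 0 < n := lt_of_lt_of_le (by positivity) hn
  set N := Nat.log 64 n with hN
  have hNM : 2 * M ≤ N := by
    rw [hN]
    exact Nat.le_log_of_pow_le (by norm_num) hn
  have hM8 : 8 ≤ M := le_max_right _ _
  have hMm : m₀ ≤ M := le_max_left _ _
  have hN0 : N ≠ 0 := by omega
  set κ := Nat.log 2 N with hκ
  have hK1 : 2 ^ κ ≤ N := Nat.pow_log_le_self 2 hN0
  have hK2 : N < 2 ^ (κ + 1) := Nat.lt_pow_succ_log_self (by norm_num) N
  set K := 2 ^ κ with hK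
  have hK2' : N < 2 * K := by rw [hK]; rw [pow_succ] at hK2; omega
  have hKM : M < K := by omega
  have hK8 : 8 < K := by omega
  have hκ3 : 3 ≤ κ := by
    by_contra h
    have : κ ≤ 3 := by omega
    have : 2 ^ κ ≤ 2 ^ 3 := Nat.pow_le_pow_right (by norm_num) this
    omega
  have hn1 : 64 ^ K ≤ n :=
    le_trans (Nat.pow_le_pow_right (by norm_num) hK1) (Nat.pow_log_le_self 64 hn0.ne')
  have hn2 : n < 64 ^ (2 * K) := by
    refine lt_of_lt_of_le (Nat.lt_pow_succ_log_self (by norm_num : 1 < 64) n) ?_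
    exact Nat.pow_le_pow_right (by norm_num) (by omega)
  have hKr : (8 : ℝ) < K := by exact_mod_cast hK8
  have hnr : (0 : ℝ) < n := by exact_mod_cast hn0
  -- sizes
  have hK2K : K < 2 ^ K := Nat.lt_two_pow_self
  have h64 : 64 ^ K = 2 ^ K * 2 ^ K * 16 ^ K := by
    rw [← mul_pow, ← mul_pow]
    norm_num
  have h16 : 16 ^ 8 ≤ 16 ^ K := Nat.pow_le_pow_right (by norm_num) hK8.le
  have hrn : 2 * 16 ^ K ≤ n := by
    refine le_trans ?_ hn1
    rw [h64]
    have : 2 ≤ 2 ^ K * 2 ^ K := by nlinarith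
    exact Nat.mul_le_mul_right _ this
  have hτn : 2 * (100 * K ^ 2) ≤ n := by
    refine le_trans ?_ hn1
    rw [h64]
    have h1 : K * K ≤ 2 ^ K * 2 ^ K := Nat.mul_le_mul hK2K.le hK2K.le
    calc 2 * (100 * K ^ 2) = (K * K) * 200 := by ring
      _ ≤ (2 ^ K * 2 ^ K) * 16 ^ K := Nat.mul_le_mul h1 (by omega)
  have hKn : K ≤ n := by
    refine le_trans ?_ hτn
    nlinarith
  have hlog : Real.log n ≤ 8.4 * K := up_log_le hn0 hn2
  have hlogpos : 0 < Real.log n := by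
    apply Real.log_pos
    have : 1 < n := by omega
    exact_mod_cast this
  have hτ : 4 * 2 ^ κ * Real.log (8 * (n : ℝ) ^ 2) ≤ ((100 * K ^ 2 : ℕ) : ℝ) := by
    have := up_tau hn0 (by omega) hn2
    have h2 : ((K : ℕ) : ℝ) = 2 ^ κ := by rw [hK]; push_cast; rfl
    rw [h2] at this
    exact this
  -- the good permutations
  have hgood : ∀ π : Equiv.Perm (Fin n),
      4 * K * ((range n).filter (fun a => Loc (16 ^ K) (100 * K ^ 2) (pn π) a)).card ≤ n →
      (H68.RS.R (H68.RS.P π) : ℝ) ≤ 2 ^ 8 * ((n : ℝ) ^ 2 / Real.log n) := by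
    intro π hπ
    have h := upper_det (κ := κ) (r := 16 ^ K) (n := n) (τ := 100 * K ^ 2) hκ3 le_rfl hrn hτ hτn
      π hπ
    have h' : (H68.RS.R (H68.RS.P π) : ℝ) ≤ ((8 * n * (n / 2 ^ κ + 1) : ℕ) : ℝ) := by
      exact_mod_cast h
    refine le_trans h' ?_
    have hdiv : ((n / K : ℕ) : ℝ) ≤ (n : ℝ) / K := Nat.cast_div_le
    have h1K : (1 : ℝ) ≤ (n : ℝ) / K := by
      rw [le_div_iff₀ (by linarith)]
      have : (K : ℝ) ≤ n := by exact_mod_cast hKn
      linarith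
    have e1 : ((8 * n * (n / 2 ^ κ + 1) : ℕ) : ℝ) = 8 * n * (((n / K : ℕ) : ℝ) + 1) := by
      rw [← hK]; push_cast; ring
    rw [e1]
    calc 8 * (n : ℝ) * (((n / K : ℕ) : ℝ) + 1) ≤ 8 * n * ((n : ℝ) / K + (n : ℝ) / K) := by
          gcongr
      _ = 16 * ((n : ℝ) ^ 2 / K) := by ring
      _ ≤ 2 ^ 8 * ((n : ℝ) ^ 2 / Real.log n) := by
          have hKpos : (0 : ℝ) < K := by linarith
          have : (n : ℝ) ^ 2 / K ≤ 8.4 * ((n : ℝ) ^ 2 / Real.log n) := by
            rw [← mul_div_assoc, div_le_div_iff₀ hKpos hlogpos]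
            nlinarith [sq_nonneg (n : ℝ)]
          have h0 : 0 ≤ (n : ℝ) ^ 2 / Real.log n := by positivity
          linarith
  -- the exceptions
  set S := univ.filter (fun π : Equiv.Perm (Fin n) =>
      ¬ ((H68.RS.R (H68.RS.P π) : ℝ) ≤ 2 ^ 8 * ((n : ℝ) ^ 2 / Real.log n))) with hS
  have hSl : ∀ π ∈ S, n ≤
      4 * K * ((range n).filter (fun a => Loc (16 ^ K) (100 * K ^ 2) (pn π) a)).card := by
    intro π hπ
    rw [hS, mem_filter] at hπ
    by_contra hlt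
    exact hπ.2 (hgood π (by omega))
  have hsum : S.card * n ≤ 4 * K * (2 * (100 * K ^ 2) * 16 ^ K * n.factorial) := by
    calc S.card * n = ∑ π ∈ S, n := by rw [sum_const, smul_eq_mul]
      _ ≤ ∑ π ∈ S, 4 * K *
            ((range n).filter (fun a => Loc (16 ^ K) (100 * K ^ 2) (pn π) a)).card :=
          sum_le_sum hSl
      _ ≤ ∑ π : Equiv.Perm (Fin n), 4 * K *
            ((range n).filter (fun a => Loc (16 ^ K) (100 * K ^ 2) (pn π) a)).card :=
          sum_le_sum_of_subset (subset_univ _)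
      _ = 4 * K * ∑ π : Equiv.Perm (Fin n),
            ((range n).filter (fun a => Loc (16 ^ K) (100 * K ^ 2) (pn π) a)).card := by
          rw [mul_sum]
      _ ≤ 4 * K * (2 * (100 * K ^ 2) * 16 ^ K * n.factorial) := by
          apply Nat.mul_le_mul_left
          exact sum_local (by omega) (Nat.one_le_pow _ _ (by norm_num))
  have hsumR : (S.card : ℝ) * n ≤ 800 * (K : ℝ) ^ 3 * 16 ^ K * n.factorial := by
    have : (S.card : ℝ) * n ≤ 4 * K * (2 * (100 * K ^ 2) * 16 ^ K * n.factorial) := by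
      exact_mod_cast hsum
    refine le_trans this (le_of_eq ?_)
    ring
  have hn1R : (64 : ℝ) ^ K ≤ n := by exact_mod_cast hn1
  have hlim : (K : ℝ) ^ 3 / 4 ^ K < ε / 800 := hm₀ K (by omega)
  have h64R : (64 : ℝ) ^ K = 4 ^ K * 16 ^ K := by
    rw [← mul_pow]; norm_num
  have hkey : 800 * (K : ℝ) ^ 3 * 16 ^ K ≤ ε * n := by
    have h4 : (0 : ℝ) < 4 ^ K := by positivity
    have h16' : (0 : ℝ) < 16 ^ K := by positivity
    have h1 : (K : ℝ) ^ 3 ≤ ε / 800 * 4 ^ K := by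
      rw [div_lt_iff₀ h4] at hlim
      exact hlim.le
    calc 800 * (K : ℝ) ^ 3 * 16 ^ K ≤ 800 * (ε / 800 * 4 ^ K) * 16 ^ K := by gcongr
      _ = ε * (4 ^ K * 16 ^ K) := by ring
      _ = ε * 64 ^ K := by rw [h64R]
      _ ≤ ε * n := by gcongr
  have hfin : (S.card : ℝ) * n ≤ (ε * n.factorial) * n := by
    calc (S.card : ℝ) * n ≤ 800 * (K : ℝ) ^ 3 * 16 ^ K * n.factorial := hsumR
      _ ≤ (ε * n) * n.factorial := by gcongr
      _ = (ε * n.factorial) * n := by ring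
  exact le_of_mul_le_mul_right hfin hnr

end Pool.Agent.H69.AP
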