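import Pool.Agent.H69.AP.LowAll
import Pool.Agent.H69.AP.UpAll

/-! Both bounds. -/

namespace Pool.Agent.H69.AP

open Finset

theorem both : Filter.Tendsto (fun n : ℕ =>
    (Nat.card {π : Equiv.Perm (Fin n) //
      (n : ℝ) ^ 2 / Real.log n / 2 ^ 32 ≤ (H68.RS.R (H68.RS.P π) : ℝ) ∧
      (H68.RS.R (H68.RS.P π) : ℝ) ≤ 2 ^ 8 * ((n : ℝ) ^ 2 / Real.log n)} : ℝ) /
      n.factorial) Filter.atTop (nhds 1) := by
  classical
  rw [Metric.tendsto_atTop]
  intro ε hε
  obtain ⟨n1, h1⟩ := lower_all (ε / 3) (by positivity)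
  obtain ⟨n2, h2⟩ := upper_all (ε / 3) (by positivity)
  refine ⟨max n1 n2, fun n hn => ?_⟩
  have hA := h1 n ((le_max_left _ _).trans hn)
  have hB := h2 n ((le_max_right _ _).trans hn)
  have hf : (0 : ℝ) < (n.factorial : ℝ) := Nat.cast_pos.2 n.factorial_pos
  set p : Equiv.Perm (Fin n) → Prop := fun π =>
    (n : ℝ) ^ 2 / Real.log n / 2 ^ 32 ≤ (H68.RS.R (H68.RS.P π) : ℝ) with hp
  set q : Equiv.Perm (Fin n) → Prop := fun π =>
    (H68.RS.R (H68.RS.P π) : ℝ) ≤ 2 ^ 8 * ((n : ℝ) ^ 2 / Real.log n) with hq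
  have hA' : ((univ.filter (fun π => ¬ p π)).card : ℝ) ≤ ε / 3 * n.factorial := by
    convert hA using 3
  have hB' : ((univ.filter (fun π => ¬ q π)).card : ℝ) ≤ ε / 3 * n.factorial := by
    convert hB using 3
  have hS : Nat.card {π : Equiv.Perm (Fin n) // p π ∧ q π} =
      (univ.filter (fun π => p π ∧ q π)).card := by
    rw [Nat.card_eq_fintype_card, Fintype.card_subtype]
  have hC : (univ.filter (fun π => p π ∧ q π)).card +
      (univ.filter (fun π => ¬ (p π ∧ q π))).card = n.factorial := by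
    rw [Finset.card_filter_add_card_filter_not, Finset.card_univ, Fintype.card_perm, Fintype.card_fin]
  have hD : (univ.filter (fun π => ¬ (p π ∧ q π))).card ≤
      (univ.filter (fun π => ¬ p π)).card + (univ.filter (fun π => ¬ q π)).card := by
    refine (Finset.card_le_card ?_).trans (Finset.card_union_le _ _)
    intro π hπ
    simp only [Finset.mem_filter, Finset.mem_univ, true_and, Finset.mem_union] at hπ ⊢
    exact not_and_or.1 hπ
  have hC' : ((univ.filter (fun π => p π ∧ q π)).card : ℝ) +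
      ((univ.filter (fun π => ¬ (p π ∧ q π))).card : ℝ) = n.factorial := by exact_mod_cast hC
  have hD' : ((univ.filter (fun π => ¬ (p π ∧ q π))).card : ℝ) ≤
      ((univ.filter (fun π => ¬ p π)).card : ℝ) + ((univ.filter (fun π => ¬ q π)).card : ℝ) := by
    exact_mod_cast hD
  have h0 : (0 : ℝ) ≤ ((univ.filter (fun π => ¬ (p π ∧ q π))).card : ℝ) := Nat.cast_nonneg _
  show dist ((Nat.card {π : Equiv.Perm (Fin n) // p π ∧ q π} : ℝ) / n.factorial) 1 < ε
  rw [hS, Real.dist_eq, div_sub_one hf.ne', abs_div, abs_of_pos hf, div_lt_iff₀ hf, abs_lt]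
  have hεf : 0 < ε * (n.factorial : ℝ) := mul_pos hε hf
  constructor
  · linarith
  · linarith

end Pool.Agent.H69.AP
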