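import Mathlib

/-! A bound for the number of monotone maps. -/

namespace Pool.Agent.H69.AP

open Finset

theorem choose_pow_le (t : ℕ) : (t : ℝ) ^ t ≤ 3 ^ t * t.factorial := by
  have h1 := Real.pow_div_factorial_le_exp (t : ℝ) (Nat.cast_nonneg t) t
  have h2 : Real.exp (t : ℝ) = (Real.exp 1) ^ t := by
    rw [← Real.exp_nat_mul, mul_one]
  have h3 : (Real.exp 1) ^ t ≤ (3 : ℝ) ^ t :=
    pow_le_pow_left₀ (Real.exp_pos 1).le (by linarith [Real.exp_one_lt_d9]) t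
  have h4 : (0 : ℝ) < t.factorial := by exact_mod_cast t.factorial_pos
  rw [div_le_iff₀ h4, h2] at h1
  exact h1.trans (mul_le_mul_of_nonneg_right h3 h4.le)

theorem choose_le {n t : ℕ} (h1 : 2 ^ 20 * t ≤ n) (h2 : n < 2 ^ 20 * (t + 1)) :
    (n + t).choose n ≤ 2 ^ (23 * t) := by
  rcases Nat.eq_zero_or_pos t with rfl | ht
  · simp
  · have h0 : (n + t).choose n = (n + t).choose t := Nat.choose_symm_add
    rw [h0]
    have h3 : (((n + t).choose t : ℕ) : ℝ) ≤ ((n + t : ℕ) : ℝ) ^ t / t.factorial :=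
      Nat.choose_le_pow_div t (n + t)
    have h4 : (0 : ℝ) < t.factorial := by exact_mod_cast t.factorial_pos
    have h5 : n + t ≤ (2 ^ 21 + 1) * t := by omega
    have h6 : ((n + t : ℕ) : ℝ) ≤ (2 ^ 21 + 1) * t := by exact_mod_cast h5
    have h7 : ((n + t : ℕ) : ℝ) ^ t ≤ ((2 : ℝ) ^ 23) ^ t * t.factorial := by
      calc ((n + t : ℕ) : ℝ) ^ t ≤ ((2 ^ 21 + 1) * t) ^ t :=
            pow_le_pow_left₀ (Nat.cast_nonneg _) h6 t
        _ = ((2 : ℝ) ^ 21 + 1) ^ t * (t : ℝ) ^ t := by rw [mul_pow]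
        _ ≤ ((2 : ℝ) ^ 21 + 1) ^ t * (3 ^ t * t.factorial) :=
            mul_le_mul_of_nonneg_left (choose_pow_le t) (by positivity)
        _ = (((2 : ℝ) ^ 21 + 1) * 3) ^ t * t.factorial := by rw [mul_pow]; ring
        _ ≤ ((2 : ℝ) ^ 23) ^ t * t.factorial :=
            mul_le_mul_of_nonneg_right
              (pow_le_pow_left₀ (by norm_num) (by norm_num) t) h4.le
    have h8 : (((n + t).choose t : ℕ) : ℝ) ≤ ((2 : ℝ) ^ 23) ^ t := by
      refine h3.trans ?_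
      rw [div_le_iff₀ h4]
      exact h7
    rw [← pow_mul] at h8
    exact_mod_cast h8

end Pool.Agent.H69.AP
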