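import Pool.Agent.H68.RS.Fin

/-! Definitions for the Ramsey numbers of random permutation matrices.
`D` is a set of cells (rows `y`, columns `x`). -/

namespace Pool.Agent.H69.AP

open Finset

/-- length of the run of `D`-cells that starts at row `y` in column `x` and goes down -/
noncomputable def run (D : ℕ → ℕ → Prop) (y x : ℕ) : ℕ := sInf {k : ℕ | ¬ D (y + k) x}

/-- greedy rows: the first free row after `a` steps, starting at row `y`, along the columns
`col 0, col 1, ...` (step `a` waits for the first cell of column `col a` that is not in `D`) -/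
noncomputable def pos (D : ℕ → ℕ → Prop) (col : ℕ → ℕ) (y : ℕ) : ℕ → ℕ
  | 0 => y
  | a + 1 => pos D col y a + run D (pos D col y a) (col a) + 1

/-- no `K × K` submatrix with columns `< m` lies in `D` -/
def KFree (K m : ℕ) (D : ℕ → ℕ → Prop) : Prop :=
  ∀ A B : Finset ℕ, A.card = K → B.card = K → (∀ x ∈ B, x < m) → ¬ ∀ y ∈ A, ∀ x ∈ B, D y x

/-- the values of a permutation as a function on `ℕ` -/
def pn {n : ℕ} (π : Equiv.Perm (Fin n)) (a : ℕ) : ℕ := if h : a < n then (π ⟨a, h⟩ : ℕ) else 0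

/-- element `a` has an element of the same `r`-block of values among its last `τ` predecessors -/
def Loc (r τ : ℕ) (p : ℕ → ℕ) (a : ℕ) : Prop := ∃ a', a' < a ∧ a ≤ a' + τ ∧ p a' / r = p a / r

/-- the column of an element with value `c` when block `β` is shifted by `s β` inside its window
`[2 r β, 2 r β + 2 r)` -/
def colOf (r : ℕ) (s : ℕ → ℕ) (c : ℕ) : ℕ := 2 * r * (c / r) + s (c / r) + c % r

/-- sum of the runs that start at row `y` over the columns of the window of the value `c` -/
noncomputable def win (D : ℕ → ℕ → Prop) (r c y : ℕ) : ℕ :=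
  ∑ x ∈ Ico (2 * r * (c / r)) (2 * r * (c / r) + 2 * r), run D y x

/-- size of a fibre -/
def fib {n t : ℕ} (u : Fin n → Fin t) (x : Fin t) : ℕ := (univ.filter (fun a => u a = x)).card

/-- the cells that a pair of maps forces -/
def cells {n t : ℕ} (π : Equiv.Perm (Fin n)) (u v : Fin n → Fin t) : Finset (Fin t × Fin t) :=
  univ.image (fun a => (u a, v (π a)))

/-- the box `[i, i + X) × [j, j + Y)` contains a point of `π` -/
def Hit {n : ℕ} (π : Equiv.Perm (Fin n)) (X Y i j : ℕ) : Prop :=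
  ∃ a : Fin n, i ≤ a ∧ (a : ℕ) < i + X ∧ j ≤ π a ∧ (π a : ℕ) < j + Y

open scoped Classical in
/-- (P1): in every grid of `q × q` boxes of size `X × Y`, `X Y ≥ 8 n`, `4 X ≤ Y`, at least half of
the boxes are hit -/
def Meets (n q : ℕ) (π : Equiv.Perm (Fin n)) : Prop :=
  ∀ X Y : ℕ, 4 * X ≤ Y → 8 * n ≤ X * Y → 2 * q * X ≤ n → ∀ i j : Fin q → ℕ,
    (∀ k l, k ≠ l → i k + X ≤ i l ∨ i l + X ≤ i k) → (∀ k, i k + X ≤ n) →
    (∀ k l, k ≠ l → j k + Y ≤ j l ∨ j l + Y ≤ j k) → (∀ k, j k + Y ≤ n) →
    q ^ 2 ≤ 2 * (univ.filter (fun kl : Fin q × Fin q => Hit π X Y (i kl.1) (j kl.2))).card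

/-- (P2): monotone maps with small fibres force many cells -/
def Spread (n t : ℕ) (π : Equiv.Perm (Fin n)) : Prop :=
  ∀ u v : Fin n → Fin t, Monotone u → Monotone v → ∀ X Y : ℕ, X * Y ≤ 64 * n →
    8 * (univ.filter (fun a => X < fib u (u a))).card ≤ n →
    8 * (univ.filter (fun c => Y < fib v (v c))).card ≤ n →
    n ≤ 4096 * (cells π u v).card

open scoped Classical in
/-- the cells `(T k, T' l)` of the boxes `(k, l)` that are hit -/
noncomputable def Qset {n t q : ℕ} (π : Equiv.Perm (Fin n)) (X Y : ℕ) (i j : Fin q → ℕ)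
    (T T' : Fin q → Fin t) : Finset (Fin t × Fin t) :=
  (univ.filter (fun kl : Fin q × Fin q => Hit π X Y (i kl.1) (j kl.2))).image
    (fun kl => (T kl.1, T' kl.2))

end Pool.Agent.H69.AP
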