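import Pool.Agent.H69.AP.Choose
import Pool.Agent.H69.AP.Def

/-! The colouring of the cells. -/

namespace Pool.Agent.H69.AP

open Finset

/-- the sets of the second family -/
noncomputable def colB (n q t : ℕ) (π : Equiv.Perm (Fin n)) :
    Fin (n + 1) × Fin (n + 1) × (Fin q → Fin (n + 1)) × (Fin q → Fin (n + 1)) ×
      (Fin q → Fin t) × (Fin q → Fin t) → Finset (Fin t × Fin t) :=
  fun p => Qset π p.1 p.2.1 (fun k => (p.2.2.1 k : ℕ)) (fun k => (p.2.2.2.1 k : ℕ))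
    p.2.2.2.2.1 p.2.2.2.2.2

theorem col_cardB (n q t : ℕ) :
    Fintype.card (Fin (n + 1) × Fin (n + 1) × (Fin q → Fin (n + 1)) × (Fin q → Fin (n + 1)) ×
      (Fin q → Fin t) × (Fin q → Fin t)) = (n + 1) ^ (2 * q + 2) * t ^ (2 * q) := by
  simp only [Fintype.card_prod, Fintype.card_fun, Fintype.card_fin]
  ring

theorem exists_col {n q L : ℕ} (hn : 2 ^ 24 ≤ n) (hL : n ≤ 2 ^ L) (hq : q = 12 * L)
    (π : Equiv.Perm (Fin n)) :
    ∃ c : Fin (n / 2 ^ 20) × Fin (n / 2 ^ 20) → Bool,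
      (∀ b, ∀ u v : Fin n → Fin (n / 2 ^ 20), Monotone u → Monotone v →
        n ≤ 4096 * (cells π u v).card → ¬ ∀ z ∈ cells π u v, c z = b) ∧
      (∀ b, ∀ X Y : ℕ, X ≤ n → Y ≤ n → ∀ i j : Fin q → ℕ, (∀ k, i k ≤ n) → (∀ k, j k ≤ n) →
        ∀ T T' : Fin q → Fin (n / 2 ^ 20), q ^ 2 ≤ 2 * (Qset π X Y i j T T').card →
          ¬ ∀ z ∈ Qset π X Y i j T T', c z = b) := by
  classical
  set t := n / 2 ^ 20 with ht
  have hL24 : 24 ≤ L := by
    by_contra hlt
    push Not at hlt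
    have : 2 ^ L ≤ 2 ^ 23 := Nat.pow_le_pow_right (by norm_num) (by omega)
    omega
  have ht1 : 2 ^ 20 * t ≤ n := Nat.mul_div_le n (2 ^ 20)
  have ht2 : n < 2 ^ 20 * (t + 1) := Nat.lt_mul_div_succ n (by norm_num)
  have ht16 : 16 ≤ t := by
    rw [ht, Nat.le_div_iff_mul_le (by norm_num)]
    omega
  have htL : t ≤ 2 ^ L := (Nat.div_le_self n _).trans hL
  set MM := (univ.filter (fun u : Fin n → Fin t => Monotone u)) with hMM
  have hMMc : MM.card ≤ 2 ^ (23 * t) :=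
    (H68.RS.card_monotone n t).trans (choose_le ht1 ht2)
  set A := (((MM ×ˢ MM).image (fun p => cells π p.1 p.2)).filter (fun Q => n ≤ 4096 * Q.card))
    with hA
  set B := ((univ : Finset (Fin (n + 1) × Fin (n + 1) × (Fin q → Fin (n + 1)) ×
    (Fin q → Fin (n + 1)) × (Fin q → Fin t) × (Fin q → Fin t))).image (colB n q t π)).filter
    (fun Q => q ^ 2 ≤ 2 * Q.card) with hB
  have hA1 : ∀ Q ∈ A, n / 4096 ≤ Q.card := by
    intro Q hQ
    rw [hA, mem_filter] at hQ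
    have := hQ.2
    omega
  have hA2 : A.card * 4 < 2 ^ (n / 4096) := by
    have h1 : A.card ≤ 2 ^ (46 * t) := by
      refine (Finset.card_filter_le _ _).trans (Finset.card_image_le.trans ?_)
      rw [card_product]
      calc MM.card * MM.card ≤ 2 ^ (23 * t) * 2 ^ (23 * t) := Nat.mul_le_mul hMMc hMMc
        _ = 2 ^ (46 * t) := by rw [← pow_add]; congr 1; ring
    calc A.card * 4 ≤ 2 ^ (46 * t) * 2 ^ 2 := Nat.mul_le_mul h1 (by norm_num)
      _ = 2 ^ (46 * t + 2) := by rw [pow_add]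
      _ < 2 ^ (n / 4096) := by
          apply Nat.pow_lt_pow_right (by norm_num)
          have : 256 * t ≤ n / 4096 := by
            rw [Nat.le_div_iff_mul_le (by norm_num)]
            omega
          omega
  have hq2 : q ^ 2 = 2 * (72 * L ^ 2) := by rw [hq]; ring
  have hB1 : ∀ Q ∈ B, 72 * L ^ 2 ≤ Q.card := by
    intro Q hQ
    rw [hB, mem_filter, hq2] at hQ
    have := hQ.2
    omega
  have hB2 : B.card * 4 < 2 ^ (72 * L ^ 2) := by
    have h1 : B.card ≤ 2 ^ ((L + 1) * (2 * q + 2) + 2 * q * L) := by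
      refine (Finset.card_filter_le _ _).trans (Finset.card_image_le.trans ?_)
      rw [Finset.card_univ, col_cardB]
      have h2 : n + 1 ≤ 2 ^ (L + 1) := by
        rw [pow_succ]
        have : 1 ≤ 2 ^ L := Nat.one_le_two_pow
        omega
      calc (n + 1) ^ (2 * q + 2) * t ^ (2 * q)
          ≤ (2 ^ (L + 1)) ^ (2 * q + 2) * (2 ^ L) ^ (2 * q) :=
            Nat.mul_le_mul (Nat.pow_le_pow_left h2 _) (Nat.pow_le_pow_left htL _)
        _ = 2 ^ ((L + 1) * (2 * q + 2) + 2 * q * L) := by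
            rw [← pow_mul, ← pow_mul, ← pow_add]; congr 1; ring
    calc B.card * 4 ≤ 2 ^ ((L + 1) * (2 * q + 2) + 2 * q * L) * 2 ^ 2 :=
          Nat.mul_le_mul h1 (by norm_num)
      _ = 2 ^ ((L + 1) * (2 * q + 2) + 2 * q * L + 2) := (pow_add _ _ _).symm
      _ < 2 ^ (72 * L ^ 2) := by
          apply Nat.pow_lt_pow_right (by norm_num)
          rw [hq]
          nlinarith
  obtain ⟨c, hc1, hc2⟩ := H68.RS.avoid A B (n / 4096) (72 * L ^ 2) hA1 hA2 hB1 hB2
  refine ⟨c, ?_, ?_⟩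
  · intro b u v hu hv hcard
    apply hc1 b
    rw [hA, mem_filter]
    refine ⟨?_, hcard⟩
    rw [mem_image]
    refine ⟨(u, v), ?_, rfl⟩
    rw [mem_product, hMM, mem_filter, mem_filter]
    exact ⟨⟨mem_univ _, hu⟩, ⟨mem_univ _, hv⟩⟩
  · intro b X Y hX hY i j hi hj T T' hcard
    apply hc2 b
    rw [hB, mem_filter]
    refine ⟨?_, hcard⟩
    rw [mem_image]
    refine ⟨(⟨X, by omega⟩, ⟨Y, by omega⟩, fun k => ⟨i k, by have := hi k; omega⟩,
      fun k => ⟨j k, by have := hj k; omega⟩, T, T'), mem_univ _, rfl⟩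

end Pool.Agent.H69.AP
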