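import Pool.Agent.H69.AP.Run

/-! Columns without long runs. -/

namespace Pool.Agent.H69.AP

open Finset

theorem good_columns {K M m : ℕ} (hK : 1 ≤ K) (D : ℕ → ℕ → Prop) (hM : ∀ y x, D y x → y < M)
    (hD : KFree K M D) (hm : m + (M / (2 * K) + 1) * K ≤ M) :
    ∃ G : ℕ → ℕ, (∀ i j, i < j → j < m → G i < G j) ∧ (∀ i, i < m → G i < M) ∧
      ∀ i, i < m → ∀ y, run D y (G i) < 4 * K := by
  classical
  obtain ⟨L, hL⟩ : ∃ L, L = M / (2 * K) + 1 := ⟨_, rfl⟩
  rw [← hL] at hm
  have hK2 : 0 < 2 * K := by omega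
  let Bd : Finset ℕ := (range M).filter (fun x => ∃ y, 4 * K ≤ run D y x)
  let Bj : ℕ → Finset ℕ := fun j =>
    (range M).filter (fun x => ∀ y ∈ Ico (2 * K * j) (2 * K * j + 2 * K), D y x)
  have hBj : ∀ j x, x ∈ Bj j ↔ x ∈ range M ∧
      ∀ y ∈ Ico (2 * K * j) (2 * K * j + 2 * K), D y x := by
    intro j x
    simp only [Bj, Finset.mem_filter]
  have hsub : Bd ⊆ (range L).biUnion Bj := by
    intro x hx
    obtain ⟨hxM, y, hy⟩ := Finset.mem_filter.1 hx
    obtain ⟨j, hj⟩ : ∃ j, j = (y + 2 * K - 1) / (2 * K) := ⟨_, rfl⟩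
    have h1 : 2 * K * j ≤ y + 2 * K - 1 := by rw [hj]; exact Nat.mul_div_le _ _
    have h2 : y + 2 * K - 1 < 2 * K * j + 2 * K := by
      have h3 := Nat.lt_mul_div_succ (y + 2 * K - 1) hK2
      rw [← hj] at h3
      rw [Nat.mul_add, Nat.mul_one] at h3
      exact h3
    have hall : ∀ z ∈ Ico (2 * K * j) (2 * K * j + 2 * K), D z x := by
      intro z hz
      obtain ⟨hz1, hz2⟩ := Finset.mem_Ico.1 hz
      have h4 : D (y + (z - y)) x := run_lt (by omega)
      rwa [show y + (z - y) = z by omega] at h4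
    have h5 : 2 * K * j < M := hM _ x (hall _ (Finset.mem_Ico.2 ⟨le_rfl, by omega⟩))
    have h6 : j < L := by
      rw [hL]
      have h7 : j ≤ M / (2 * K) := by
        rw [Nat.le_div_iff_mul_le hK2]
        rw [Nat.mul_comm] at h5
        exact h5.le
      omega
    exact Finset.mem_biUnion.2 ⟨j, Finset.mem_range.2 h6, (hBj j x).2 ⟨hxM, hall⟩⟩
  have hcard : ∀ j ∈ range L, (Bj j).card ≤ K := by
    intro j _
    by_contra hcon
    push Not at hcon
    obtain ⟨B, hB, hBc⟩ := Finset.exists_subset_card_eq hcon.le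
    refine hD (Ico (2 * K * j) (2 * K * j + K)) B (by rw [Nat.card_Ico]; omega) hBc ?_ ?_
    · intro x hx
      exact Finset.mem_range.1 ((hBj j x).1 (hB hx)).1
    · intro y hy x hx
      obtain ⟨hy1, hy2⟩ := Finset.mem_Ico.1 hy
      exact ((hBj j x).1 (hB hx)).2 y (Finset.mem_Ico.2 ⟨hy1, by omega⟩)
  have hBd : Bd.card ≤ L * K := by
    calc Bd.card ≤ ((range L).biUnion Bj).card := Finset.card_le_card hsub
      _ ≤ (range L).card * K := Finset.card_biUnion_le_card_mul _ _ _ hcard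
      _ = L * K := by rw [Finset.card_range]
  have hgood : m ≤ (range M \ Bd).card := by
    have h1 : (range M).card - Bd.card ≤ (range M \ Bd).card := Finset.le_card_sdiff _ _
    rw [Finset.card_range] at h1
    omega
  obtain ⟨S, hS, hSc⟩ := Finset.exists_subset_card_eq hgood
  have hmem : ∀ (i : ℕ) (h : i < m), S.orderEmbOfFin hSc ⟨i, h⟩ ∈ range M \ Bd := fun i h =>
    hS (Finset.orderEmbOfFin_mem S hSc ⟨i, h⟩)
  refine ⟨fun i => if h : i < m then S.orderEmbOfFin hSc ⟨i, h⟩ else 0, ?_, ?_, ?_⟩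
  · intro i j hij hj
    have hi : i < m := hij.trans hj
    simp only [dif_pos hi, dif_pos hj]
    exact (S.orderEmbOfFin hSc).strictMono (by simpa [Fin.lt_def] using hij)
  · intro i hi
    simp only [dif_pos hi]
    exact Finset.mem_range.1 (Finset.mem_sdiff.1 (hmem i hi)).1
  · intro i hi y
    simp only [dif_pos hi]
    by_contra hcon
    push Not at hcon
    obtain ⟨h1, h2⟩ := Finset.mem_sdiff.1 (hmem i hi)
    exact h2 (Finset.mem_filter.2 ⟨h1, y, hcon⟩)

end Pool.Agent.H69.AP
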