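import Pool.Agent.H69.AP.Total
import Pool.Agent.H69.AP.Good

/-! The embedding. -/

namespace Pool.Agent.H69.AP

open Finset

private theorem core_colOf_lt {r n : ℕ} (s : ℕ → ℕ) (hr : 0 < r) (hs : ∀ β, s β < r) {c : ℕ}
    (hc : c < n) : colOf r s c < 2 * r * (n / r + 1) := by
  have h1 : c % r < r := Nat.mod_lt c hr
  have h2 := hs (c / r)
  have h3 : c / r ≤ n / r := Nat.div_le_div_right hc.le
  have h4 : 2 * r * (c / r + 1) ≤ 2 * r * (n / r + 1) := Nat.mul_le_mul_left _ (by omega)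
  have h5 : 2 * r * (c / r + 1) = 2 * r * (c / r) + 2 * r := by ring
  unfold colOf
  omega

private theorem core_colOf_mono {r : ℕ} (s : ℕ → ℕ) (hr : 0 < r) (hs : ∀ β, s β < r)
    {c c' : ℕ} (hc : c < c') : colOf r s c < colOf r s c' := by
  have h1 : c % r < r := Nat.mod_lt c hr
  have h2 := hs (c / r)
  have h3 : c / r ≤ c' / r := Nat.div_le_div_right hc.le
  unfold colOf
  rcases h3.eq_or_lt with h | h
  · have h4 := Nat.div_add_mod c r
    have h5 := Nat.div_add_mod c' r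
    rw [h] at h4 ⊢
    omega
  · have h4 : 2 * r * (c / r + 1) ≤ 2 * r * (c' / r) := Nat.mul_le_mul_left _ h
    have h5 : 2 * r * (c / r + 1) = 2 * r * (c / r) + 2 * r := by ring
    omega

open scoped Classical in
theorem core_embed {κ r n τ : ℕ} (hκ : 3 ≤ κ) (hr : 16 ^ (2 ^ κ) ≤ r) (hrn : 2 * r ≤ n)
    (hτ : 4 * 2 ^ κ * Real.log (8 * (n : ℝ) ^ 2) ≤ τ) (hτB : 4 * 2 ^ κ ≤ τ) (hτn : 2 * τ ≤ n)
    (π : Equiv.Perm (Fin n))
    (hloc : 4 * 2 ^ κ * ((range n).filter (fun a => Loc r τ (pn π) a)).card ≤ n)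
    (D : ℕ → ℕ → Prop) (hM : ∀ y x, D y x → y < 8 * n) (hD : KFree (2 ^ κ) (8 * n) D) :
    ∃ f g : Fin n → ℕ, StrictMono f ∧ StrictMono g ∧ (∀ a, f a < 8 * n) ∧ (∀ c, g c < 8 * n) ∧
      ∀ a, ¬ D (f a) (g (π a)) := by
  have hr0 : 0 < r := lt_of_lt_of_le (by positivity) hr
  have hK : 1 ≤ 2 ^ κ := Nat.one_le_two_pow
  have hm0 : 2 * r * (n / r + 1) ≤ 3 * n := by
    have h1 : r * (n / r) ≤ n := Nat.mul_div_le n r
    have h2 : 2 * r * (n / r + 1) = 2 * (r * (n / r)) + 2 * r := by ring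
    omega
  have hm : 2 * r * (n / r + 1) + (8 * n / (2 * 2 ^ κ) + 1) * 2 ^ κ ≤ 8 * n := by
    have h1 : 8 * n / (2 * 2 ^ κ) * (2 * 2 ^ κ) ≤ 8 * n := Nat.div_mul_le_self _ _
    have h2 : 8 * n / (2 * 2 ^ κ) * (2 * 2 ^ κ) = 2 * (8 * n / (2 * 2 ^ κ) * 2 ^ κ) := by ring
    have h3 : (8 * n / (2 * 2 ^ κ) + 1) * 2 ^ κ = 8 * n / (2 * 2 ^ κ) * 2 ^ κ + 2 ^ κ := by ring
    omega
  obtain ⟨G, hG1, hG2, hG3⟩ := good_columns hK D hM hD hm
  have hMe : ∀ y x, (x < 2 * r * (n / r + 1) ∧ D y (G x)) → y < 8 * n := fun y x h => hM _ _ h.2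
  have hDe : KFree (2 ^ κ) (2 * r * (n / r + 1))
      (fun y x => x < 2 * r * (n / r + 1) ∧ D y (G x)) := by
    intro A B hA hB hBm hall
    refine hD A (B.image G) hA ?_ ?_ ?_
    · rw [card_image_of_injOn, hB]
      intro x hx x' hx' hxx
      have hx1 := hBm x hx
      have hx2 := hBm x' hx'
      rcases lt_trichotomy x x' with h | h | h
      · exact absurd hxx (hG1 x x' h hx2).ne
      · exact h
      · exact absurd hxx (hG1 x' x h hx1).ne'
    · intro x hx
      obtain ⟨j, hj, rfl⟩ := mem_image.1 hx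
      exact hG2 j (hBm j hj)
    · intro y hy x hx
      obtain ⟨j, hj, rfl⟩ := mem_image.1 hx
      exact (hall y hy j hj).2
  have hrune : ∀ y x, x < 2 * r * (n / r + 1) →
      run (fun y x => x < 2 * r * (n / r + 1) ∧ D y (G x)) y x < 4 * 2 ^ κ := by
    intro y x hx
    have h1 : run (fun y x => x < 2 * r * (n / r + 1) ∧ D y (G x)) y x = run D y (G x) := by
      unfold run
      congr 1
      ext k
      simp [hx]
    rw [h1]
    exact hG3 x hx y
  obtain ⟨s, hs, hpos⟩ := total hκ hr hrn hτ hτB hτn π hloc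
    (fun y x => x < 2 * r * (n / r + 1) ∧ D y (G x)) hMe hDe hrune
  set E : ℕ → ℕ → Prop := fun y x => x < 2 * r * (n / r + 1) ∧ D y (G x) with hE
  set col : ℕ → ℕ := fun i => colOf r s (pn π i) with hcol
  refine ⟨fun a => pos E col 0 a + run E (pos E col 0 a) (col a),
    fun c => G (colOf r s c), ?_, ?_, ?_, ?_, ?_⟩
  · intro a b hab
    have h1 := pos_lt_pos E col 0 (show (a : ℕ) < b from hab)
    show pos E col 0 a + run E (pos E col 0 a) (col a) <
      pos E col 0 b + run E (pos E col 0 b) (col b)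
    omega
  · intro c c' hc
    exact hG1 _ _ (core_colOf_mono s hr0 hs hc) (core_colOf_lt s hr0 hs c'.isLt)
  · intro a
    have h1 := pos_succ E col 0 a
    have h2 := pos_add_le E col 0 (a + 1) (n - (a + 1))
    have h3 := a.isLt
    rw [show (a : ℕ) + 1 + (n - (a + 1)) = n by omega] at h2
    show pos E col 0 a + run E (pos E col 0 a) (col a) < 8 * n
    omega
  · intro c
    exact hG2 _ (core_colOf_lt s hr0 hs c.isLt)
  · intro a h
    have h1 := run_spec (D := E) hMe (pos E col 0 a) (col a)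
    have h2 : col a = colOf r s (π a) := by
      simp [hcol, pn]
    have h3 : col a < 2 * r * (n / r + 1) := by
      rw [h2]
      exact core_colOf_lt s hr0 hs (π a).isLt
    apply h1
    refine ⟨h3, ?_⟩
    have h4 : D (pos E col 0 a + run E (pos E col 0 a) (col a)) (G (colOf r s (π a))) := h
    rw [← h2] at h4
    exact h4

end Pool.Agent.H69.AP
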