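import Pool.Agent.H69.AP.Def

/-! Many large fibres of both maps give a `Qset` of forced cells. -/

namespace Pool.Agent.H69.AP

open Finset

theorem grid_pick {n t q X : ℕ} (u : Fin n → Fin t) (hu : Monotone u) (hX1 : 1 ≤ X)
    (hX : q ≤ (univ.filter (fun x => X ≤ fib u x)).card) :
    ∃ (T : Fin q → Fin t) (i : Fin q → ℕ), Function.Injective T ∧ (∀ k, i k + X ≤ n) ∧
      (∀ k, ∀ a : Fin n, i k ≤ a → (a : ℕ) < i k + X → u a = T k) ∧
      (∀ k l, k ≠ l → i k + X ≤ i l ∨ i l + X ≤ i k) := by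
  classical
  obtain ⟨S, hS, hSc⟩ := Finset.exists_subset_card_eq hX
  let e : Fin q ≃ S := (S.equivFinOfCardEq hSc).symm
  have hlo : ∀ k : Fin q, ∃ a0 : ℕ, a0 + X ≤ n ∧
      ∀ a : Fin n, a0 ≤ a → (a : ℕ) < a0 + X → u a = (e k : Fin t) := by
    intro k
    refine H68.RS.fiber_lo hu (e k : Fin t) X hX1 ?_
    have := hS (e k).2
    rw [mem_filter] at this
    exact this.2
  choose i hi1 hi2 using hlo
  have hT : Function.Injective (fun k : Fin q => (e k : Fin t)) :=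
    Subtype.val_injective.comp e.injective
  refine ⟨fun k => (e k : Fin t), i, hT, hi1, hi2, ?_⟩
  intro k l hkl
  by_contra hcon
  push Not at hcon
  obtain ⟨h1, h2⟩ := hcon
  apply hkl
  apply hT
  -- a common point
  have hk := hi1 k
  have hl := hi1 l
  let m : ℕ := max (i k) (i l)
  have hm : m < n := by
    rcases le_total (i k) (i l) with h | h
    · have : m = i l := max_eq_right h
      omega
    · have : m = i k := max_eq_left h
      omega
  have hmk : i k ≤ m := le_max_left _ _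
  have hml : i l ≤ m := le_max_right _ _
  have hmk' : m < i k + X := by
    rcases le_total (i k) (i l) with h | h
    · have : m = i l := max_eq_right h
      omega
    · have : m = i k := max_eq_left h
      omega
  have hml' : m < i l + X := by
    rcases le_total (i k) (i l) with h | h
    · have : m = i l := max_eq_right h
      omega
    · have : m = i k := max_eq_left h
      omega
  have e1 := hi2 k ⟨m, hm⟩ hmk hmk'
  have e2 := hi2 l ⟨m, hm⟩ hml hml'
  exact e1.symm.trans e2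

open scoped Classical in
theorem grid_core {n t q X Y : ℕ} (π : Equiv.Perm (Fin n)) (u v : Fin n → Fin t)
    (hu : Monotone u) (hv : Monotone v) (hX1 : 1 ≤ X) (hY1 : 1 ≤ Y)
    (hX : q ≤ (univ.filter (fun x => X ≤ fib u x)).card)
    (hY : q ≤ (univ.filter (fun x => Y ≤ fib v x)).card)
    (hXn : X ≤ n) (hYn : Y ≤ n)
    (hcount : ∀ i j : Fin q → ℕ,
      (∀ k l, k ≠ l → i k + X ≤ i l ∨ i l + X ≤ i k) → (∀ k, i k + X ≤ n) →
      (∀ k l, k ≠ l → j k + Y ≤ j l ∨ j l + Y ≤ j k) → (∀ k, j k + Y ≤ n) →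
      q ^ 2 ≤ 2 * (univ.filter
        (fun kl : Fin q × Fin q => Hit π X Y (i kl.1) (j kl.2))).card) :
    ∃ X' Y' : ℕ, X' ≤ n ∧ Y' ≤ n ∧ ∃ i j : Fin q → ℕ, (∀ k, i k ≤ n) ∧ (∀ k, j k ≤ n) ∧
      ∃ T T' : Fin q → Fin t, q ^ 2 ≤ 2 * (Qset π X' Y' i j T T').card ∧
        ∀ z ∈ Qset π X' Y' i j T T', ∃ a, (u a, v (π a)) = z := by
  obtain ⟨T, i, hT, hi1, hi2, hi3⟩ := grid_pick u hu hX1 hX
  obtain ⟨T', j, hT', hj1, hj2, hj3⟩ := grid_pick v hv hY1 hY
  refine ⟨X, Y, hXn, hYn, i, j, fun k => by have := hi1 k; omega,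
    fun k => by have := hj1 k; omega, T, T', ?_, ?_⟩
  · have h := hcount i j hi3 hi1 hj3 hj1
    have hc : (Qset π X Y i j T T').card = (univ.filter
        (fun kl : Fin q × Fin q => Hit π X Y (i kl.1) (j kl.2))).card := by
      unfold Qset
      apply Finset.card_image_of_injective
      rintro ⟨a, b⟩ ⟨c, d⟩ h
      simp only [Prod.mk.injEq] at h
      rw [hT h.1, hT' h.2]
    rw [hc]
    exact h
  · intro z hz
    unfold Qset at hz
    rw [mem_image] at hz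
    obtain ⟨⟨k, l⟩, hkl, rfl⟩ := hz
    rw [mem_filter] at hkl
    obtain ⟨a, h1, h2, h3, h4⟩ := hkl.2
    exact ⟨a, by rw [hi2 k a h1 h2, hj2 l (π a) h3 h4]⟩

open scoped Classical in
theorem grid_mono {n t q X X' : ℕ} (u : Fin n → Fin t) (h : X' ≤ X)
    (hX : q ≤ (univ.filter (fun x => X ≤ fib u x)).card) :
    q ≤ (univ.filter (fun x => X' ≤ fib u x)).card := by
  refine hX.trans (Finset.card_le_card ?_)
  intro x hx
  rw [mem_filter] at hx ⊢
  exact ⟨hx.1, h.trans hx.2⟩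

theorem grid_arith {n q s X Y : ℕ} (hq : 1 ≤ q) (hs : 16 * q * s ≤ n) (hXs : X ≤ s)
    (hYs : Y ≤ s) (hXY : 64 * n < X * Y) (hle : X ≤ Y) :
    8 * n / Y + 1 ≤ X ∧ 4 * (8 * n / Y + 1) ≤ Y ∧ 8 * n ≤ (8 * n / Y + 1) * Y ∧
      2 * q * (8 * n / Y + 1) ≤ n ∧ 8 * n / Y + 1 ≤ n ∧ Y ≤ n ∧ 1 ≤ Y := by
  have hY0 : 0 < Y := by
    rcases Nat.eq_zero_or_pos Y with h | h
    · subst h; omega
    · exact h
  have hsn : s ≤ n := by nlinarith
  have hs0 : 0 < s := by omega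
  have hX1024 : 1024 < X := by
    by_contra hcon
    push Not at hcon
    have h1 : X * Y ≤ 1024 * s := Nat.mul_le_mul hcon hYs
    have h2 : 1024 * s ≤ 64 * n := by nlinarith
    omega
  have h1 : 8 * (8 * n / Y) ≤ X := by
    by_contra hcon
    push Not at hcon
    have h2 : (8 * n / Y) * Y ≤ 8 * n := Nat.div_mul_le_self _ _
    have h3 : X * Y < (8 * (8 * n / Y)) * Y := Nat.mul_lt_mul_of_pos_right hcon hY0
    have h4 : (8 * (8 * n / Y)) * Y = 8 * ((8 * n / Y) * Y) := by ring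
    omega
  have h5 : 8 * n / Y + 1 ≤ X := by omega
  have h6 : 8 * n < (8 * n / Y + 1) * Y := by
    have := Nat.lt_div_mul_add hY0 (a := 8 * n)
    nlinarith
  refine ⟨h5, by omega, h6.le, ?_, by omega, by omega, by omega⟩
  have h7 : 2 * q * (8 * n / Y + 1) ≤ 2 * q * s := Nat.mul_le_mul_left _ (by omega)
  have h8 : 2 * q * s ≤ 16 * q * s := by
    apply Nat.mul_le_mul_right
    omega
  omega

theorem grid_hit {n : ℕ} (π : Equiv.Perm (Fin n)) (X Y a b : ℕ) :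
    Hit π⁻¹ Y X b a ↔ Hit π X Y a b := by
  constructor
  · rintro ⟨c, h1, h2, h3, h4⟩
    refine ⟨π⁻¹ c, h3, h4, ?_, ?_⟩
    · simpa using h1
    · simpa using h2
  · rintro ⟨c, h1, h2, h3, h4⟩
    refine ⟨π c, h3, h4, ?_, ?_⟩
    · simpa using h1
    · simpa using h2

open scoped Classical in
theorem grid_swap {n q X Y : ℕ} (π : Equiv.Perm (Fin n)) (i j : Fin q → ℕ) :
    (univ.filter (fun kl : Fin q × Fin q => Hit π⁻¹ Y X (j kl.1) (i kl.2))).card =
      (univ.filter (fun kl : Fin q × Fin q => Hit π X Y (i kl.1) (j kl.2))).card := by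
  refine Finset.card_bij (fun kl _ => kl.swap) ?_ ?_ ?_
  · intro kl h
    rw [mem_filter] at h ⊢
    exact ⟨mem_univ _, (grid_hit π X Y _ _).1 h.2⟩
  · intro a _ b _ h
    exact Prod.swap_injective h
  · intro kl h
    rw [mem_filter] at h
    exact ⟨kl.swap, by rw [mem_filter]; exact ⟨mem_univ _, (grid_hit π X Y _ _).2 h.2⟩,
      Prod.swap_swap _⟩

open scoped Classical in
theorem grid {n t q X Y : ℕ} (π : Equiv.Perm (Fin n)) (hM : Meets n q π)
    (hM' : Meets n q π⁻¹) {s : ℕ} (hq : 1 ≤ q) (hs : 16 * q * s ≤ n) (u v : Fin n → Fin t)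
    (hu : Monotone u) (hv : Monotone v) (hXs : X ≤ s) (hYs : Y ≤ s)
    (hX : q ≤ (univ.filter (fun x => X ≤ fib u x)).card)
    (hY : q ≤ (univ.filter (fun x => Y ≤ fib v x)).card) (hXY : 64 * n < X * Y) :
    ∃ X' Y' : ℕ, X' ≤ n ∧ Y' ≤ n ∧ ∃ i j : Fin q → ℕ, (∀ k, i k ≤ n) ∧ (∀ k, j k ≤ n) ∧
      ∃ T T' : Fin q → Fin t, q ^ 2 ≤ 2 * (Qset π X' Y' i j T T').card ∧
        ∀ z ∈ Qset π X' Y' i j T T', ∃ a, (u a, v (π a)) = z := by
  rcases le_total X Y with hle | hle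
  · obtain ⟨a1, a2, a3, a4, a5, a6, a7⟩ := grid_arith hq hs hXs hYs hXY hle
    refine grid_core (X := 8 * n / Y + 1) (Y := Y) π u v hu hv (Nat.le_add_left 1 _) a7
      (grid_mono u a1 hX) hY a5 a6 ?_
    intro i j h1 h2 h3 h4
    exact hM _ _ a2 a3 a4 i j h1 h2 h3 h4
  · obtain ⟨a1, a2, a3, a4, a5, a6, a7⟩ :=
      grid_arith hq hs hYs hXs (by rw [Nat.mul_comm Y X]; exact hXY) hle
    refine grid_core (X := X) (Y := 8 * n / X + 1) π u v hu hv a7 (Nat.le_add_left 1 _)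
      hX (grid_mono v a1 hY) a6 a5 ?_
    intro i j h1 h2 h3 h4
    have := hM' _ _ a2 a3 a4 j i h3 h4 h1 h2
    rwa [grid_swap] at this

end Pool.Agent.H69.AP
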