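import Pool.Agent.H69.AP.Run

/-! Kővári–Sós–Turán for runs of length `2 ^ i`. -/

namespace Pool.Agent.H69.AP

open Finset

open scoped Classical in
theorem kst_bad {κ i m : ℕ} (hi : i ≤ κ) {D : ℕ → ℕ → Prop} (hD : KFree (2 ^ κ) m D)
    (V W : Finset ℕ) (hW : ∀ x ∈ W, x < m) (hV : ∀ y ∈ V, ∀ y' ∈ V, y < y' → y + 2 ^ κ ≤ y') :
    (W.filter (fun x => V.card + 4 ^ (2 ^ i) * 2 ^ (κ - i) ≤
      4 ^ (2 ^ i) * (V.filter (fun y => 2 ^ i ≤ run D y x)).card)).card ≤
      2 ^ κ * 4 ^ (2 ^ κ) := by
  set bad := W.filter (fun x => V.card + 4 ^ (2 ^ i) * 2 ^ (κ - i) ≤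
      4 ^ (2 ^ i) * (V.filter (fun y => 2 ^ i ≤ run D y x)).card) with hbad
  set v := V.card with hv
  set s := 2 ^ (κ - i) with hs
  set L := 2 ^ i with hL
  have hs1 : 1 ≤ s := Nat.one_le_two_pow
  have hL1 : 1 ≤ L := Nat.one_le_two_pow
  have hLs : L * s = 2 ^ κ := by
    rw [hL, hs, ← pow_add]; congr 1; omega
  have hLK : L ≤ 2 ^ κ := Nat.pow_le_pow_right (by norm_num) hi
  have h4 : 0 < 4 ^ L := by positivity
  rcases Nat.eq_zero_or_pos v with hv0 | hv1
  · have : bad = ∅ := by
      rw [hbad, Finset.filter_eq_empty_iff]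
      intro x _ hx
      have hV0 : V = ∅ := Finset.card_eq_zero.mp (hv ▸ hv0)
      rw [hV0] at hx
      simp only [Finset.filter_empty, Finset.card_empty, mul_zero] at hx
      have : 0 < 4 ^ L * s := Nat.mul_pos h4 hs1
      omega
    rw [this]; simp
  set w := (v + 4 ^ L - 1) / 4 ^ L with hw
  have hw1 : v ≤ w * 4 ^ L := by
    have h1 := Nat.lt_div_mul_add (a := v + 4 ^ L - 1) h4
    rw [← hw] at h1
    omega
  have hw0 : 1 ≤ w := by
    rw [hw]
    exact (Nat.one_le_div_iff h4).mpr (by omega)
  have hmain : bad.card * w ^ s ≤ (univ : Finset (Fin s ↪ ↥V)).card * 2 ^ κ := by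
    apply Finset.card_mul_le_card_mul (fun (x : ℕ) (e : Fin s ↪ ↥V) =>
      ∀ j, L ≤ run D (e j) x)
    · intro x hx
      rw [hbad, mem_filter] at hx
      set Vx := V.filter (fun y => L ≤ run D y x) with hVx
      have hd : w + s ≤ Vx.card := by
        have h2 : v + 4 ^ L - 1 < 4 ^ L * (Vx.card - s + 1) := by
          have h3 : s ≤ Vx.card := by
            by_contra hlt
            push Not at hlt
            have h5 : 4 ^ L * Vx.card < 4 ^ L * s := Nat.mul_lt_mul_of_pos_left hlt h4
            omega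
          obtain ⟨e, he⟩ : ∃ e, Vx.card = s + e := ⟨Vx.card - s, by omega⟩
          rw [he, Nat.mul_add] at hx
          rw [he, Nat.add_sub_cancel_left, Nat.mul_add, mul_one]
          omega
        have h6 : w < Vx.card - s + 1 := by
          rw [hw]
          exact Nat.div_lt_of_lt_mul h2
        have h3 : s ≤ Vx.card := by
          by_contra hlt
          push Not at hlt
          have h5 : 4 ^ L * Vx.card < 4 ^ L * s := Nat.mul_lt_mul_of_pos_left hlt h4
          omega
        omega
      have hcount : w ^ s ≤ (univ : Finset (Fin s ↪ ↥Vx)).card := by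
        rw [Finset.card_univ, Fintype.card_embedding_eq, Fintype.card_fin, Fintype.card_coe]
        refine le_trans ?_ (Nat.pow_sub_le_descFactorial _ _)
        exact Nat.pow_le_pow_left (by omega) _
      refine hcount.trans ?_
      apply Finset.card_le_card_of_injOn (fun e : Fin s ↪ ↥Vx =>
        e.trans ⟨fun y : ↥Vx => (⟨y.1, (mem_filter.mp y.2).1⟩ : ↥V), fun a b h => by
          apply Subtype.ext
          exact congrArg (fun z : ↥V => (z : ℕ)) h⟩)
      · intro e _
        rw [mem_coe, Finset.mem_bipartiteAbove]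
        refine ⟨mem_univ _, fun j => ?_⟩
        exact (mem_filter.mp (e j).2).2
      · intro e _ e' _ h
        apply DFunLike.ext
        intro j
        have h1 := congrArg (fun f : Fin s ↪ ↥V => ((f j : ↥V) : ℕ)) h
        exact Subtype.ext h1
    · intro e _
      by_contra hlt
      push Not at hlt
      obtain ⟨B, hB, hBc⟩ := Finset.exists_subset_card_eq hlt.le
      apply hD ((univ : Finset (Fin s × Fin L)).image (fun z => ((e z.1 : ↥V) : ℕ) + z.2)) B
        ?_ hBc ?_
      · intro y hy x hx
        rw [mem_image] at hy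
        obtain ⟨⟨j, k⟩, _, rfl⟩ := hy
        have h1 := hB hx
        rw [Finset.mem_bipartiteBelow] at h1
        apply run_lt
        exact lt_of_lt_of_le k.2 (h1.2 j)
      · rw [Finset.card_image_of_injective, Finset.card_univ, Fintype.card_prod, Fintype.card_fin,
          Fintype.card_fin, mul_comm, hLs]
        rintro ⟨j, k⟩ ⟨j', k'⟩ h
        simp only at h
        have hk := k.2
        have hk' := k'.2
        rcases lt_trichotomy ((e j : ↥V) : ℕ) (e j' : ↥V) with h1 | h1 | h1
        · have := hV _ (e j).2 _ (e j').2 h1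
          omega
        · have h2 : e j = e j' := Subtype.ext h1
          have h3 : j = j' := e.injective h2
          subst h3
          have h4 : k = k' := Fin.ext (by omega)
          rw [h4]
        · have := hV _ (e j').2 _ (e j).2 h1
          omega
      · intro x hx
        have h1 := hB hx
        rw [Finset.mem_bipartiteBelow, hbad, mem_filter] at h1
        exact hW x h1.1.1
  have hemb : (univ : Finset (Fin s ↪ ↥V)).card ≤ w ^ s * 4 ^ (2 ^ κ) := by
    rw [Finset.card_univ, Fintype.card_embedding_eq, Fintype.card_fin, Fintype.card_coe]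
    refine (Nat.descFactorial_le_pow _ _).trans ?_
    calc v ^ s ≤ (w * 4 ^ L) ^ s := Nat.pow_le_pow_left hw1 _
      _ = w ^ s * 4 ^ (2 ^ κ) := by rw [mul_pow, ← pow_mul, hLs]
  have hws : 0 < w ^ s := Nat.pow_pos hw0
  have h5 : bad.card * w ^ s ≤ (2 ^ κ * 4 ^ (2 ^ κ)) * w ^ s := by
    refine hmain.trans ((Nat.mul_le_mul_right _ hemb).trans (le_of_eq ?_))
    ring
  exact Nat.le_of_mul_le_mul_right h5 hws

end Pool.Agent.H69.AP
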