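import Pool.Agent.H69.AP.Def

/-! The block colouring. -/

namespace Pool.Agent.H69.AP

open Finset

theorem LowR_fib {n t s : ℕ} (hs0 : 0 < s) (f : Fin n → ℕ) (hf : StrictMono f)
    (hd : ∀ a, f a / s < t) (x : Fin t) :
    fib (fun a => (⟨f a / s, hd a⟩ : Fin t)) x ≤ s := by
  classical
  have h1 : (univ.filter (fun a => (⟨f a / s, hd a⟩ : Fin t) = x)).card ≤ (range s).card := by
    apply Finset.card_le_card_of_injOn (fun a => f a % s)
    · intro a _
      rw [mem_coe, mem_range]
      exact Nat.mod_lt _ hs0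
    · intro a ha a' ha' h
      simp only [coe_filter, mem_univ, true_and, Set.mem_ofPred_eq] at ha ha' h
      have h2 : f a / s = f a' / s := by
        have := congrArg Fin.val (ha.trans ha'.symm)
        exact this
      apply hf.injective
      rw [← Nat.div_add_mod (f a) s, ← Nat.div_add_mod (f a') s, h2, h]
  rw [card_range] at h1
  exact h1

theorem lt_R_of_col {n t s : ℕ} (hn : 1 ≤ n) (π : Equiv.Perm (Fin n))
    (c : Fin t × Fin t → Bool)
    (hc : ∀ b, ∀ u v : Fin n → Fin t, Monotone u → Monotone v →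
      (∀ x, fib u x ≤ s) → (∀ x, fib v x ≤ s) → ¬ ∀ a, c (u a, v (π a)) = b) :
    t * s < H68.RS.R (H68.RS.P π) := by
  classical
  apply H68.RS.lt_R _ (H68.RS.P_ne hn π) (fun i j => if h : i / s < t ∧ j / s < t then
    c (⟨i / s, h.1⟩, ⟨j / s, h.2⟩) else false)
  intro b f g hf hg hfN hgN hcol
  have hs0 : 0 < s := by
    rcases Nat.eq_zero_or_pos s with h | h
    · have := hfN ⟨0, hn⟩
      rw [h] at this
      omega
    · exact h
  have hdf : ∀ a, f a / s < t := fun a => (Nat.div_lt_iff_lt_mul hs0).mpr (hfN a)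
  have hdg : ∀ a, g a / s < t := fun a => (Nat.div_lt_iff_lt_mul hs0).mpr (hgN a)
  apply hc b (fun a => ⟨f a / s, hdf a⟩) (fun a => ⟨g a / s, hdg a⟩)
  · intro a a' h
    exact Nat.div_le_div_right (hf.monotone h)
  · intro a a' h
    exact Nat.div_le_div_right (hg.monotone h)
  · exact LowR_fib hs0 f hf hdf
  · exact LowR_fib hs0 g hg hdg
  · intro a
    have h1 := hcol a (π a) rfl
    beta_reduce at h1
    rw [dif_pos ⟨hdf a, hdg _⟩] at h1
    exact h1

end Pool.Agent.H69.AP
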