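import Pool.Agent.H69.AP.Grid
import Pool.Agent.H69.AP.Col

/-! No pair of monotone maps with small fibres is monochromatic. -/

namespace Pool.Agent.H69.AP

open Finset

theorem NoMaps_few {n t q s X : ℕ} (hs : 16 * q * s ≤ n) (u : Fin n → Fin t)
    (hus : ∀ x, fib u x ≤ s)
    (hX : (univ.filter (fun x => X + 1 ≤ (univ.filter (fun a => u a = x)).card)).card < q) :
    8 * (univ.filter (fun a => X < fib u (u a))).card ≤ n := by
  have h1 := Pool.Agent.H68.RS.large_few u hus hX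
  have h2 : (univ.filter (fun a => X < fib u (u a))).card ≤
      (univ.filter (fun a => ¬ (univ.filter (fun a' => u a' = u a)).card ≤ X)).card := by
    apply Finset.card_le_card
    intro a ha
    rw [mem_filter] at ha ⊢
    exact ⟨ha.1, not_le.mpr ha.2⟩
  have h3 : 16 * q * s = 16 * (q * s) := by rw [mul_assoc]
  omega

theorem no_maps {n q L s : ℕ} (hn : 2 ^ 24 ≤ n) (hL : n ≤ 2 ^ L) (hq : q = 12 * L)
    (hqt : q ≤ n / 2 ^ 20) (hs : 16 * q * s ≤ n) (π : Equiv.Perm (Fin n)) (hM : Meets n q π)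
    (hM' : Meets n q π⁻¹) (hS : Spread n (n / 2 ^ 20) π) :
    ∃ c : Fin (n / 2 ^ 20) × Fin (n / 2 ^ 20) → Bool,
      ∀ b, ∀ u v : Fin n → Fin (n / 2 ^ 20), Monotone u → Monotone v →
        (∀ x, fib u x ≤ s) → (∀ x, fib v x ≤ s) → ¬ ∀ a, c (u a, v (π a)) = b := by
  obtain ⟨c, hc1, hc2⟩ := exists_col hn hL hq π
  refine ⟨c, ?_⟩
  intro b u v hu hv hus hvs hcol
  have hcol' : ∀ z ∈ cells π u v, c z = b := by
    intro z hz
    rw [cells, mem_image] at hz
    obtain ⟨a, _, rfl⟩ := hz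
    exact hcol a
  have hL1 : 1 ≤ L := by
    rcases Nat.eq_zero_or_pos L with h | h
    · subst h
      rw [pow_zero] at hL
      have : (1 : ℕ) < 2 ^ 24 := by norm_num
      omega
    · exact h
  have hq1 : 1 ≤ q := by omega
  obtain ⟨X, hXs, hX1, hX2⟩ := Pool.Agent.H68.RS.threshold (r := q) u hq1 hqt hus
  obtain ⟨Y, hYs, hY1, hY2⟩ := Pool.Agent.H68.RS.threshold (r := q) v hq1 hqt hvs
  by_cases hXY : 64 * n < X * Y
  · obtain ⟨X', Y', hX', hY', i, j, hi, hj, T, T', hQ, hz⟩ :=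
      grid π hM hM' hq1 hs u v hu hv hXs hYs hX1 hY1 hXY
    apply hc2 b X' Y' hX' hY' i j hi hj T T' hQ
    intro z hz'
    obtain ⟨a, ha⟩ := hz z hz'
    rw [← ha]
    exact hcol a
  · push Not at hXY
    exact hc1 b u v hu hv (hS u v hu hv X Y hXY (NoMaps_few hs u hus hX2)
      (NoMaps_few hs v hvs hY2)) hcol'

end Pool.Agent.H69.AP
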