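import Pool.Agent.H69.AP.SpreadFix
import Pool.Agent.H69.AP.Choose

/-! (P2) for almost all permutations. -/

namespace Pool.Agent.H69.AP

open Finset

theorem spreadAll_num {n : ℕ} (hn : 2 ^ 24 ≤ n) :
    (2 : ℝ) ^ (46 * (n / 2 ^ 20)) * (3 / 4) ^ (n / 586) ≤ (1 / 2) ^ (n / 2000) := by
  have h1 : ((3 : ℝ) / 4) ^ (n / 586) ≤ (1 / 2) ^ (2 * (n / 2930)) := by
    have h2 : ((3 : ℝ) / 4) ^ (n / 586) ≤ (3 / 4) ^ (5 * (n / 2930)) :=
      pow_le_pow_of_le_one (by norm_num) (by norm_num) (by omega)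
    refine h2.trans ?_
    rw [pow_mul, pow_mul]
    exact pow_le_pow_left₀ (by norm_num) (by norm_num) _
  have h3 : ((1 : ℝ) / 2) ^ (2 * (n / 2930)) ≤ (1 / 2) ^ (46 * (n / 2 ^ 20) + n / 2000) :=
    pow_le_pow_of_le_one (by norm_num) (by norm_num) (by omega)
  calc (2 : ℝ) ^ (46 * (n / 2 ^ 20)) * (3 / 4) ^ (n / 586)
      ≤ (2 : ℝ) ^ (46 * (n / 2 ^ 20)) * (1 / 2) ^ (46 * (n / 2 ^ 20) + n / 2000) :=
        mul_le_mul_of_nonneg_left (h1.trans h3) (by positivity)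
    _ = ((2 : ℝ) * (1 / 2)) ^ (46 * (n / 2 ^ 20)) * (1 / 2) ^ (n / 2000) := by
        rw [pow_add, mul_pow, mul_assoc]
    _ = (1 / 2) ^ (n / 2000) := by norm_num

open scoped Classical in
theorem spread_all {n : ℕ} (hn : 2 ^ 24 ≤ n) :
    ((univ.filter (fun π : Equiv.Perm (Fin n) => ¬ Spread n (n / 2 ^ 20) π)).card : ℝ) ≤
      (1 / 2) ^ (n / 2000) * n.factorial := by
  have hnum := spreadAll_num hn
  obtain ⟨t, ht⟩ : ∃ t, t = n / 2 ^ 20 := ⟨_, rfl⟩
  rw [← ht] at hnum ⊢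
  have ht16 : 16 * t ≤ n := by omega
  have hMMc : (univ.filter (fun u : Fin n → Fin t => Monotone u)).card ≤ 2 ^ (23 * t) := by
    refine le_trans ?_ (choose_le (n := n) (t := t) (by omega) (by omega))
    convert Pool.Agent.H68.RS.card_monotone n t
  set MM := univ.filter (fun u : Fin n → Fin t => Monotone u) with hMM
  set J := (MM ×ˢ MM).filter (fun p => ∃ X Y : ℕ, X * Y ≤ 64 * n ∧
    8 * (univ.filter (fun a => X < fib p.1 (p.1 a))).card ≤ n ∧
    8 * (univ.filter (fun c => Y < fib p.2 (p.2 c))).card ≤ n) with hJ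
  have hsub : univ.filter (fun π : Equiv.Perm (Fin n) => ¬ Spread n t π) ⊆
      J.biUnion (fun p => univ.filter
        (fun π : Equiv.Perm (Fin n) => 4096 * (cells π p.1 p.2).card < n)) := by
    intro π hπ
    rw [mem_filter] at hπ
    have h := hπ.2
    unfold Spread at h
    push Not at h
    obtain ⟨u, v, hu, hv, X, Y, h1, h2, h3, h4⟩ := h
    rw [mem_biUnion]
    refine ⟨(u, v), ?_, ?_⟩
    · rw [hJ, mem_filter, mem_product, hMM, mem_filter, mem_filter]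
      exact ⟨⟨⟨mem_univ _, hu⟩, ⟨mem_univ _, hv⟩⟩, X, Y, h1, h2, h3⟩
    · rw [mem_filter]
      exact ⟨mem_univ _, h4⟩
  have hc1 : ((univ.filter (fun π : Equiv.Perm (Fin n) => ¬ Spread n t π)).card : ℝ) ≤
      ∑ p ∈ J, ((univ.filter
        (fun π : Equiv.Perm (Fin n) => 4096 * (cells π p.1 p.2).card < n)).card : ℝ) := by
    exact_mod_cast (card_le_card hsub).trans card_biUnion_le
  have hc2 : ∀ p ∈ J, ((univ.filter
        (fun π : Equiv.Perm (Fin n) => 4096 * (cells π p.1 p.2).card < n)).card : ℝ) ≤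
      (3 / 4) ^ (n / 586) * n.factorial := by
    intro p hp
    rw [hJ, mem_filter] at hp
    obtain ⟨-, X, Y, h1, h2, h3⟩ := hp
    exact spread_fix ht16 p.1 p.2 h1 h2 h3
  have hJc : (J.card : ℝ) ≤ 2 ^ (46 * t) := by
    have h5 : J.card ≤ 2 ^ (46 * t) := by
      refine (card_filter_le _ _).trans ?_
      rw [card_product]
      calc MM.card * MM.card ≤ 2 ^ (23 * t) * 2 ^ (23 * t) := Nat.mul_le_mul hMMc hMMc
        _ = 2 ^ (46 * t) := by rw [← pow_add]; congr 1; ring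
    exact_mod_cast h5
  calc ((univ.filter (fun π : Equiv.Perm (Fin n) => ¬ Spread n t π)).card : ℝ)
      ≤ ∑ p ∈ J, ((univ.filter
        (fun π : Equiv.Perm (Fin n) => 4096 * (cells π p.1 p.2).card < n)).card : ℝ) := hc1
    _ ≤ ∑ _p ∈ J, ((3 / 4) ^ (n / 586) * n.factorial : ℝ) := sum_le_sum hc2
    _ = J.card * ((3 / 4) ^ (n / 586) * n.factorial) := by rw [sum_const, nsmul_eq_mul]
    _ ≤ 2 ^ (46 * t) * ((3 / 4) ^ (n / 586) * n.factorial) :=
        mul_le_mul_of_nonneg_right hJc (by positivity)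
    _ = (2 ^ (46 * t) * (3 / 4) ^ (n / 586)) * n.factorial := by ring
    _ ≤ (1 / 2) ^ (n / 2000) * n.factorial :=
        mul_le_mul_of_nonneg_right hnum (by positivity)

end Pool.Agent.H69.AP
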