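import Pool.Agent.H69.AP.MeetsAll
import Pool.Agent.H69.AP.SpreadAll
import Pool.Agent.H69.AP.NoMaps
import Pool.Agent.H69.AP.LowR

/-! The lower bound for almost all permutations. -/

namespace Pool.Agent.H69.AP

open Finset

theorem low_q_le {n : ℕ} (hn : 2 ^ 32 ≤ n) : 12 * (Nat.log 2 n + 1) ≤ n / 2 ^ 20 := by
  have hl : 32 ≤ Nat.log 2 n := Nat.le_log_of_pow_le (by norm_num) hn
  obtain ⟨m, hm⟩ := Nat.exists_eq_add_of_le hl
  have hp : 2 ^ Nat.log 2 n ≤ n := Nat.pow_log_le_self 2 (by omega)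
  rw [Nat.le_div_iff_mul_le (by norm_num)]
  refine le_trans ?_ hp
  rw [hm]
  have h1 : m < 2 ^ m := Nat.lt_two_pow_self
  have h2 : 2 ^ (32 + m) = 2 ^ 32 * 2 ^ m := pow_add _ _ _
  rw [h2]
  omega

theorem low_num {n L q : ℕ} (hn : 2 ^ 32 ≤ n) (hL : L = Nat.log 2 n + 1) (hq : q = 12 * L)
    (hqt : q ≤ n / 2 ^ 20) :
    (n : ℝ) ^ 2 / Real.log n / 2 ^ 32 ≤ ((n / 2 ^ 20 * (n / (16 * q)) : ℕ) : ℝ) := by
  have hL1 : 1 ≤ L := by omega
  have hq1 : 1 ≤ q := by omega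
  have hn0 : 0 < n := by omega
  have h16 : 16 * q ≤ n := by
    have : n / 2 ^ 20 ≤ n / 2 ^ 20 := le_rfl
    have h2 : q * 2 ^ 20 ≤ n := (Nat.le_div_iff_mul_le (by norm_num)).mp hqt
    nlinarith
  have ht : n ≤ 2 ^ 21 * (n / 2 ^ 20) := by
    have := Nat.div_add_mod n (2 ^ 20)
    have := Nat.mod_lt n (show 0 < 2 ^ 20 by norm_num)
    omega
  have hs : n ≤ 32 * q * (n / (16 * q)) := by
    have h1 := Nat.div_add_mod n (16 * q)
    have h2 := Nat.mod_lt n (show 0 < 16 * q by omega)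
    have h3 : 1 ≤ n / (16 * q) := (Nat.one_le_div_iff (by omega)).mpr h16
    have h4 : 16 * q * 1 ≤ 16 * q * (n / (16 * q)) := Nat.mul_le_mul_left _ h3
    calc n = 16 * q * (n / (16 * q)) + n % (16 * q) := h1.symm
      _ ≤ 16 * q * (n / (16 * q)) + 16 * q * (n / (16 * q)) := by omega
      _ = 32 * q * (n / (16 * q)) := by ring
  have hts : n * n ≤ 2 ^ 26 * q * (n / 2 ^ 20 * (n / (16 * q))) := by
    calc n * n ≤ (2 ^ 21 * (n / 2 ^ 20)) * (32 * q * (n / (16 * q))) := Nat.mul_le_mul ht hs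
      _ = 2 ^ 26 * q * (n / 2 ^ 20 * (n / (16 * q))) := by ring
  have htsR : (n : ℝ) ^ 2 ≤ 2 ^ 26 * q * ((n / 2 ^ 20 * (n / (16 * q)) : ℕ) : ℝ) := by
    have h : ((n * n : ℕ) : ℝ) ≤ ((2 ^ 26 * q * (n / 2 ^ 20 * (n / (16 * q))) : ℕ) : ℝ) := by
      exact_mod_cast hts
    rw [Nat.cast_mul, ← pow_two] at h
    refine le_trans h (le_of_eq ?_)
    rw [Nat.cast_mul, Nat.cast_mul (2 ^ 26) q, Nat.cast_pow]
    norm_num
  have hn32 : (2 : ℝ) ^ 32 ≤ n := by exact_mod_cast hn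
  have hl2 : 0.6931471803 < Real.log 2 := Real.log_two_gt_d9
  have hlog1 : (1 : ℝ) ≤ Real.log n := by
    have h1 : Real.log ((2 : ℝ) ^ 32) ≤ Real.log n := Real.log_le_log (by positivity) hn32
    rw [Real.log_pow] at h1
    push_cast at h1
    linarith
  have hLlog : (L : ℝ) ≤ 3 * Real.log n := by
    have hp : 2 ^ Nat.log 2 n ≤ n := Nat.pow_log_le_self 2 (by omega)
    have hpR : (2 : ℝ) ^ Nat.log 2 n ≤ n := by exact_mod_cast hp
    have h1 : Real.log ((2 : ℝ) ^ Nat.log 2 n) ≤ Real.log n :=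
      Real.log_le_log (by positivity) hpR
    rw [Real.log_pow] at h1
    have h2 : (L : ℝ) = (Nat.log 2 n : ℝ) + 1 := by rw [hL]; push_cast; rfl
    rw [h2]
    have h3 : (0 : ℝ) ≤ (Nat.log 2 n : ℝ) := Nat.cast_nonneg _
    nlinarith
  have hqR : (q : ℝ) = 12 * L := by rw [hq]; push_cast; rfl
  have hlogpos : 0 < Real.log n := by linarith
  set T : ℝ := ((n / 2 ^ 20 * (n / (16 * q)) : ℕ) : ℝ) with hT
  have hT0 : 0 ≤ T := Nat.cast_nonneg _
  rw [div_div, div_le_iff₀ (by positivity)]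
  calc (n : ℝ) ^ 2 ≤ 2 ^ 26 * q * T := htsR
    _ = 2 ^ 26 * 12 * L * T := by rw [hqR]; ring
    _ ≤ 2 ^ 26 * 12 * (3 * Real.log n) * T := by gcongr
    _ = T * (Real.log n * (2 ^ 26 * 36)) := by ring
    _ ≤ T * (Real.log n * 2 ^ 32) := by gcongr; norm_num

open scoped Classical in
theorem lower_all (ε : ℝ) (hε : 0 < ε) : ∃ n₀ : ℕ, ∀ n : ℕ, n₀ ≤ n →
    ((univ.filter (fun π : Equiv.Perm (Fin n) =>
      ¬ ((n : ℝ) ^ 2 / Real.log n / 2 ^ 32 ≤ (H68.RS.R (H68.RS.P π) : ℝ)))).card : ℝ) ≤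
      ε * n.factorial := by
  have ht : Filter.Tendsto (fun m : ℕ => (1 / 2 : ℝ) ^ m) Filter.atTop (nhds 0) :=
    tendsto_pow_atTop_nhds_zero_of_lt_one (by norm_num) (by norm_num)
  have ht' : ∀ᶠ m : ℕ in Filter.atTop, (1 / 2 : ℝ) ^ m < ε / 3 :=
    ht.eventually (gt_mem_nhds (by positivity))
  obtain ⟨m₀, hm₀⟩ := Filter.eventually_atTop.mp ht'
  refine ⟨max (2 ^ 32) (max (2 ^ m₀) (2000 * m₀)), fun n hn => ?_⟩
  have hn1 : 2 ^ 32 ≤ n := le_trans (le_max_left _ _) hn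
  have hn2 : 2 ^ m₀ ≤ n :=
    le_trans (le_trans (le_max_left _ _) (le_max_right _ _)) hn
  have hn3 : 2000 * m₀ ≤ n :=
    le_trans (le_trans (le_max_right _ _) (le_max_right _ _)) hn
  obtain ⟨L, hL⟩ : ∃ L, L = Nat.log 2 n + 1 := ⟨_, rfl⟩
  obtain ⟨q, hq⟩ : ∃ q, q = 12 * L := ⟨_, rfl⟩
  have hL1 : 1 ≤ L := by omega
  have hnL : n ≤ 2 ^ L := by rw [hL]; exact (Nat.lt_pow_succ_log_self (by norm_num) n).le
  have hqt : q ≤ n / 2 ^ 20 := by rw [hq, hL]; exact low_q_le hn1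
  have hn24 : 2 ^ 24 ≤ n := le_trans (by norm_num) hn1
  have hn0 : 1 ≤ n := le_trans (by norm_num) hn1
  have hs : 16 * q * (n / (16 * q)) ≤ n := Nat.mul_div_le _ _
  -- the three exceptional sets
  set A := univ.filter (fun π : Equiv.Perm (Fin n) => ¬ Meets n q π) with hA
  set A' := univ.filter (fun π : Equiv.Perm (Fin n) => ¬ Meets n q π⁻¹) with hA'
  set C := univ.filter (fun π : Equiv.Perm (Fin n) => ¬ Spread n (n / 2 ^ 20) π) with hC
  have hcA : (A.card : ℝ) ≤ (1 / 2) ^ q * n.factorial := meets_all hn0 hL1 hnL hq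
  have hAA' : A'.card = A.card := by
    apply Finset.card_bij (fun π _ => π⁻¹)
    · intro π hπ
      rw [hA', mem_filter] at hπ
      rw [hA, mem_filter]
      exact ⟨mem_univ _, hπ.2⟩
    · intro a _ b _ h
      exact inv_injective h
    · intro b hb
      rw [hA, mem_filter] at hb
      refine ⟨b⁻¹, ?_, inv_inv b⟩
      rw [hA', mem_filter]
      exact ⟨mem_univ _, by rw [inv_inv]; exact hb.2⟩
  have hcC : (C.card : ℝ) ≤ (1 / 2) ^ (n / 2000) * n.factorial := spread_all hn24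
  have hsub : univ.filter (fun π : Equiv.Perm (Fin n) =>
      ¬ ((n : ℝ) ^ 2 / Real.log n / 2 ^ 32 ≤ (H68.RS.R (H68.RS.P π) : ℝ))) ⊆
      (A ∪ A') ∪ C := by
    intro π hπ
    rw [mem_filter] at hπ
    by_contra hnot
    rw [mem_union, mem_union, hA, hA', hC, mem_filter, mem_filter, mem_filter] at hnot
    push Not at hnot
    obtain ⟨⟨hM, hM'⟩, hS⟩ := hnot
    obtain ⟨c, hc⟩ := no_maps hn24 hnL hq hqt hs π (hM (mem_univ _)) (hM' (mem_univ _))
      (hS (mem_univ _))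
    have hR := lt_R_of_col hn0 π c hc
    apply hπ.2
    refine le_trans (low_num hn1 hL hq hqt) ?_
    exact_mod_cast hR.le
  have h1 : (1 / 2 : ℝ) ^ q < ε / 3 := by
    apply hm₀
    have : m₀ ≤ Nat.log 2 n := Nat.le_log_of_pow_le (by norm_num) hn2
    omega
  have h2 : (1 / 2 : ℝ) ^ (n / 2000) < ε / 3 := by
    apply hm₀
    omega
  have hf : (0 : ℝ) ≤ n.factorial := Nat.cast_nonneg _
  calc ((univ.filter (fun π : Equiv.Perm (Fin n) =>
      ¬ ((n : ℝ) ^ 2 / Real.log n / 2 ^ 32 ≤ (H68.RS.R (H68.RS.P π) : ℝ)))).card : ℝ)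
      ≤ (((A ∪ A') ∪ C).card : ℝ) := by exact_mod_cast card_le_card hsub
    _ ≤ ((A.card + A'.card + C.card : ℕ) : ℝ) := by
        have e1 := card_union_le (A ∪ A') C
        have e2 := card_union_le A A'
        exact_mod_cast (by omega : ((A ∪ A') ∪ C).card ≤ A.card + A'.card + C.card)
    _ = A.card + A.card + C.card := by rw [hAA']; push_cast; ring
    _ ≤ (1 / 2) ^ q * n.factorial + (1 / 2) ^ q * n.factorial +
          (1 / 2) ^ (n / 2000) * n.factorial := by gcongr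
    _ = ((1 / 2) ^ q + (1 / 2) ^ q + (1 / 2) ^ (n / 2000)) * n.factorial := by ring
    _ ≤ ε * n.factorial := by
        apply mul_le_mul_of_nonneg_right _ hf
        linarith

end Pool.Agent.H69.AP
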