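import Pool.Agent.H69.AP.MeetsFix

/-! (P1) for almost all permutations. -/

namespace Pool.Agent.H69.AP

open Finset

theorem meets_all_num {n q L : ℕ} (hn : 1 ≤ n) (hL1 : 1 ≤ L) (hL : n ≤ 2 ^ L)
    (hq : q = 12 * L) :
    ((n : ℝ) + 1) ^ (2 * q + 2) * (2 ^ (q ^ 2) * Real.exp (-2 * (q : ℝ) ^ 2)) ≤
      (1 / 2 : ℝ) ^ q := by
  have h1 : ((n : ℝ) + 1) ≤ 2 ^ (L + 1) := by
    have : n + 1 ≤ 2 ^ (L + 1) := by rw [pow_succ]; omega
    exact_mod_cast this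
  have h2 : ((n : ℝ) + 1) ^ (2 * q + 2) ≤ 2 ^ ((L + 1) * (2 * q + 2)) := by
    rw [pow_mul]
    exact pow_le_pow_left₀ (by positivity) h1 _
  have h3 : (4 : ℝ) ≤ Real.exp 2 := by
    have h := Real.add_one_le_exp (1 : ℝ)
    have h' : Real.exp 2 = Real.exp 1 * Real.exp 1 := by
      rw [← Real.exp_add]; norm_num
    rw [h']
    nlinarith
  have h4 : Real.exp (-2 * (q : ℝ) ^ 2) * 2 ^ (2 * q ^ 2) ≤ 1 := by
    have e1 : Real.exp (-2 * (q : ℝ) ^ 2) = (Real.exp 2 ^ (q ^ 2))⁻¹ := by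
      rw [← Real.exp_nat_mul, ← Real.exp_neg]
      congr 1
      push_cast
      ring
    have e2 : (2 : ℝ) ^ (2 * q ^ 2) = 4 ^ (q ^ 2) := by
      rw [pow_mul]; norm_num
    rw [e1, e2]
    have hpos : (0 : ℝ) < Real.exp 2 ^ (q ^ 2) := by positivity
    rw [inv_mul_le_iff₀ hpos, mul_one]
    exact pow_le_pow_left₀ (by norm_num) h3 _
  have h5 : (L + 1) * (2 * q + 2) + q ^ 2 + q ≤ 2 * q ^ 2 := by
    subst hq
    nlinarith
  have h6 : (2 : ℝ) ^ ((L + 1) * (2 * q + 2)) * 2 ^ (q ^ 2) * 2 ^ q ≤ 2 ^ (2 * q ^ 2) := by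
    rw [← pow_add, ← pow_add]
    exact pow_le_pow_right₀ (by norm_num) h5
  have hE : (0 : ℝ) ≤ Real.exp (-2 * (q : ℝ) ^ 2) := (Real.exp_pos _).le
  have h7 : (1 / 2 : ℝ) ^ q = (2 ^ q)⁻¹ := by
    rw [one_div, inv_pow]
  have h8 : (0 : ℝ) < 2 ^ q := by positivity
  rw [h7, ← one_div, le_div_iff₀ h8]
  calc ((n : ℝ) + 1) ^ (2 * q + 2) * (2 ^ (q ^ 2) * Real.exp (-2 * (q : ℝ) ^ 2)) * 2 ^ q
      ≤ 2 ^ ((L + 1) * (2 * q + 2)) * (2 ^ (q ^ 2) * Real.exp (-2 * (q : ℝ) ^ 2)) * 2 ^ q := by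
        gcongr
    _ = Real.exp (-2 * (q : ℝ) ^ 2) * (2 ^ ((L + 1) * (2 * q + 2)) * 2 ^ (q ^ 2) * 2 ^ q) := by
        ring
    _ ≤ Real.exp (-2 * (q : ℝ) ^ 2) * 2 ^ (2 * q ^ 2) := by
        gcongr
    _ ≤ 1 := h4

open scoped Classical in
theorem meets_all {n q L : ℕ} (hn : 1 ≤ n) (hL1 : 1 ≤ L) (hL : n ≤ 2 ^ L) (hq : q = 12 * L) :
    ((univ.filter (fun π : Equiv.Perm (Fin n) => ¬ Meets n q π)).card : ℝ) ≤
      (1 / 2) ^ q * n.factorial := by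
  have hq0 : 0 < q := by omega
  let T := Fin (n + 1) × Fin (n + 1) × (Fin q → Fin (n + 1)) × (Fin q → Fin (n + 1))
  let cond : T → Prop := fun t =>
    4 * (t.1 : ℕ) ≤ t.2.1 ∧ 8 * n ≤ (t.1 : ℕ) * t.2.1 ∧ 2 * q * (t.1 : ℕ) ≤ n ∧
    (∀ k l, k ≠ l → (t.2.2.1 k : ℕ) + t.1 ≤ t.2.2.1 l ∨ (t.2.2.1 l : ℕ) + t.1 ≤ t.2.2.1 k) ∧
    (∀ k, (t.2.2.1 k : ℕ) + t.1 ≤ n) ∧
    (∀ k l, k ≠ l → (t.2.2.2 k : ℕ) + t.2.1 ≤ t.2.2.2 l ∨ (t.2.2.2 l : ℕ) + t.2.1 ≤ t.2.2.2 k) ∧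
    (∀ k, (t.2.2.2 k : ℕ) + t.2.1 ≤ n)
  let Bad : T → Finset (Equiv.Perm (Fin n)) := fun t =>
    univ.filter (fun π => cond t ∧
      2 * (univ.filter (fun kl : Fin q × Fin q =>
        Hit π (t.1 : ℕ) (t.2.1 : ℕ) (t.2.2.1 kl.1 : ℕ) (t.2.2.2 kl.2 : ℕ))).card < q ^ 2)
  set B : ℝ := 2 ^ (q ^ 2) * Real.exp (-2 * (q : ℝ) ^ 2) * n.factorial with hB
  have hB0 : 0 ≤ B := by positivity
  have hbad : ∀ t : T, ((Bad t).card : ℝ) ≤ B := by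
    intro t
    by_cases hc : cond t
    · obtain ⟨c1, c2, c3, c4, c5, c6, c7⟩ := hc
      refine le_trans ?_ (meets_fix hn c1 c2 c3 (fun k => (t.2.2.1 k : ℕ))
        (fun k => (t.2.2.2 k : ℕ)) c4 c5 c6 c7)
      have : Bad t ⊆ univ.filter (fun π : Equiv.Perm (Fin n) =>
          2 * (univ.filter (fun kl : Fin q × Fin q =>
            Hit π (t.1 : ℕ) (t.2.1 : ℕ) (t.2.2.1 kl.1 : ℕ) (t.2.2.2 kl.2 : ℕ))).card < q ^ 2) := by
        intro π hπ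
        simp only [Bad, mem_filter, mem_univ, true_and] at hπ ⊢
        exact hπ.2
      exact_mod_cast card_le_card this
    · have : Bad t = ∅ := by
        apply Finset.filter_eq_empty_iff.mpr
        intro π _ h
        exact hc h.1
      rw [this]
      simpa using hB0
  have hsub : univ.filter (fun π : Equiv.Perm (Fin n) => ¬ Meets n q π) ⊆ univ.biUnion Bad := by
    intro π hπ
    simp only [mem_filter, mem_univ, true_and] at hπ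
    unfold Meets at hπ
    push Not at hπ
    obtain ⟨X, Y, hXY, h8, h2q, i, j, hi, hi', hj, hj', hlt⟩ := hπ
    have hX : X ≤ n := le_trans (Nat.le_add_left _ _) (hi' ⟨0, hq0⟩)
    have hY : Y ≤ n := le_trans (Nat.le_add_left _ _) (hj' ⟨0, hq0⟩)
    have hin : ∀ k, i k < n + 1 := fun k =>
      Nat.lt_succ_of_le (le_trans (Nat.le_add_right _ _) (hi' k))
    have hjn : ∀ k, j k < n + 1 := fun k =>
      Nat.lt_succ_of_le (le_trans (Nat.le_add_right _ _) (hj' k))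
    rw [mem_biUnion]
    refine ⟨(⟨X, Nat.lt_succ_of_le hX⟩, ⟨Y, Nat.lt_succ_of_le hY⟩,
      (fun k => ⟨i k, hin k⟩), (fun k => ⟨j k, hjn k⟩)), mem_univ _, ?_⟩
    simp only [Bad, mem_filter, mem_univ, true_and, cond]
    exact ⟨⟨hXY, h8, h2q, hi, hi', hj, hj'⟩, hlt⟩
  have hT : (Fintype.card T : ℝ) = ((n : ℝ) + 1) ^ (2 * q + 2) := by
    have : Fintype.card T = (n + 1) * ((n + 1) * ((n + 1) ^ q * (n + 1) ^ q)) := by
      simp only [T, Fintype.card_prod, Fintype.card_fun, Fintype.card_fin]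
    rw [this]
    push_cast
    ring
  calc ((univ.filter (fun π : Equiv.Perm (Fin n) => ¬ Meets n q π)).card : ℝ)
      ≤ ((univ.biUnion Bad).card : ℝ) := by exact_mod_cast card_le_card hsub
    _ ≤ ((∑ t : T, (Bad t).card : ℕ) : ℝ) := by exact_mod_cast card_biUnion_le
    _ = ∑ t : T, ((Bad t).card : ℝ) := by push_cast; rfl
    _ ≤ ∑ t : T, B := sum_le_sum (fun t _ => hbad t)
    _ = ((n : ℝ) + 1) ^ (2 * q + 2) * B := by
        rw [sum_const, card_univ, nsmul_eq_mul, hT]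
    _ = ((n : ℝ) + 1) ^ (2 * q + 2) * (2 ^ (q ^ 2) * Real.exp (-2 * (q : ℝ) ^ 2)) *
          n.factorial := by rw [hB]; ring
    _ ≤ (1 / 2) ^ q * n.factorial := by
        have := meets_all_num hn hL1 hL hq
        gcongr

end Pool.Agent.H69.AP
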