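import Pool.Agent.H69.AP.Avoid
import Pool.Agent.H69.AP.Def

/-! (P1) for one choice of the boxes. -/

namespace Pool.Agent.H69.AP

open Finset

theorem MeetsFix_card_int {n : ℕ} (s X : ℕ) (h : s + X ≤ n) :
    (univ.filter (fun a : Fin n => s ≤ (a : ℕ) ∧ (a : ℕ) < s + X)).card = X := by
  have h1 : (univ.filter (fun a : Fin n => s ≤ (a : ℕ) ∧ (a : ℕ) < s + X)).map
      Fin.valEmbedding = Finset.Ico s (s + X) := by
    ext b
    simp only [mem_map, mem_filter, mem_univ, true_and, Fin.valEmbedding_apply, mem_Ico]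
    constructor
    · rintro ⟨a, ha, rfl⟩
      exact ha
    · intro hb
      exact ⟨⟨b, by omega⟩, hb, rfl⟩
  rw [← card_map Fin.valEmbedding, h1, Nat.card_Ico]
  omega

open scoped Classical in
/-- the box -/
noncomputable def MeetsFix_box (n X Y s t : ℕ) : Finset (Fin n × Fin n) :=
  (univ.filter (fun a : Fin n => s ≤ (a : ℕ) ∧ (a : ℕ) < s + X)) ×ˢ
    (univ.filter (fun a : Fin n => t ≤ (a : ℕ) ∧ (a : ℕ) < t + Y))

theorem MeetsFix_mem_box {n X Y s t : ℕ} (p : Fin n × Fin n) :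
    p ∈ MeetsFix_box n X Y s t ↔
      (s ≤ (p.1 : ℕ) ∧ (p.1 : ℕ) < s + X) ∧ (t ≤ (p.2 : ℕ) ∧ (p.2 : ℕ) < t + Y) := by
  simp [MeetsFix_box, mem_product]

theorem MeetsFix_card_box {n X Y s t : ℕ} (hs : s + X ≤ n) (ht : t + Y ≤ n) :
    (MeetsFix_box n X Y s t).card = X * Y := by
  rw [MeetsFix_box, card_product, MeetsFix_card_int s X hs, MeetsFix_card_int t Y ht]

open scoped Classical in
/-- one set of boxes -/
theorem MeetsFix_one {n q X Y : ℕ} (hn : 1 ≤ n) (hXY : 4 * X ≤ Y) (h8 : 8 * n ≤ X * Y)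
    (hq : 2 * q * X ≤ n) (i j : Fin q → ℕ)
    (hi : ∀ k l, k ≠ l → i k + X ≤ i l ∨ i l + X ≤ i k) (hi' : ∀ k, i k + X ≤ n)
    (hj : ∀ k l, k ≠ l → j k + Y ≤ j l ∨ j l + Y ≤ j k) (hj' : ∀ k, j k + Y ≤ n)
    (E : Finset (Fin q × Fin q)) (hE : q ^ 2 < 2 * E.card) :
    ((univ.filter (fun π : Equiv.Perm (Fin n) =>
      ∀ kl ∈ E, ¬ Hit π X Y (i kl.1) (j kl.2))).card : ℝ) ≤
      Real.exp (-2 * (q : ℝ) ^ 2) * n.factorial := by
  set A : Finset (Fin n) := univ.biUnion (fun k : Fin q =>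
    univ.filter (fun a : Fin n => i k ≤ (a : ℕ) ∧ (a : ℕ) < i k + X)) with hA
  set forb : Fin n → Finset (Fin n) := fun a => univ.filter (fun c : Fin n =>
    ∃ kl ∈ E, (i kl.1 ≤ (a : ℕ) ∧ (a : ℕ) < i kl.1 + X) ∧
      (j kl.2 ≤ (c : ℕ) ∧ (c : ℕ) < j kl.2 + Y)) with hforb
  have hAcard : A.card ≤ q * X := by
    refine card_biUnion_le.trans ?_
    rw [sum_congr rfl (fun k _ => MeetsFix_card_int (i k) X (hi' k))]
    simp
  have hA2 : 2 * A.card ≤ n := by
    calc 2 * A.card ≤ 2 * (q * X) := Nat.mul_le_mul_left 2 hAcard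
      _ = 2 * q * X := by ring
      _ ≤ n := hq
  have hsub : univ.filter (fun π : Equiv.Perm (Fin n) =>
      ∀ kl ∈ E, ¬ Hit π X Y (i kl.1) (j kl.2)) ⊆
      univ.filter (fun π : Equiv.Perm (Fin n) => ∀ a ∈ A, π a ∉ forb a) := by
    intro π hπ
    simp only [mem_filter, mem_univ, true_and] at hπ ⊢
    intro a _ hc
    rw [hforb] at hc
    simp only [mem_filter, mem_univ, true_and] at hc
    obtain ⟨kl, hkl, h1, h2⟩ := hc
    exact hπ kl hkl ⟨a, h1.1, h1.2, h2.1, h2.2⟩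
  have hsum : E.card * (X * Y) ≤ ∑ a ∈ A, (forb a).card := by
    have h1 : (E.biUnion (fun kl => MeetsFix_box n X Y (i kl.1) (j kl.2))).card =
        E.card * (X * Y) := by
      rw [card_biUnion]
      · rw [sum_congr rfl (fun kl _ => MeetsFix_card_box (hi' kl.1) (hj' kl.2))]
        simp
      · intro kl _ kl' _ hne
        refine Finset.disjoint_left.2 ?_
        intro p hp hp'
        rw [MeetsFix_mem_box] at hp hp'
        by_cases h1 : kl.1 = kl'.1
        · have h2 : kl.2 ≠ kl'.2 := fun h => hne (Prod.ext h1 h)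
          have := hj kl.2 kl'.2 h2
          omega
        · have := hi kl.1 kl'.1 h1
          omega
    rw [← h1]
    have h2 : ∀ p ∈ E.biUnion (fun kl => MeetsFix_box n X Y (i kl.1) (j kl.2)), p.1 ∈ A := by
      intro p hp
      rw [mem_biUnion] at hp
      obtain ⟨kl, _, hp⟩ := hp
      rw [MeetsFix_mem_box] at hp
      rw [hA, mem_biUnion]
      exact ⟨kl.1, mem_univ _, by simp only [mem_filter, mem_univ, true_and]; exact hp.1⟩
    rw [card_eq_sum_card_fiberwise h2]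
    refine sum_le_sum fun a _ => ?_
    refine card_le_card_of_injOn Prod.snd ?_ ?_
    · intro p hp
      simp only [coe_filter, Set.mem_setOf_eq, mem_biUnion] at hp
      obtain ⟨⟨kl, hkl, hp⟩, hpa⟩ := hp
      rw [MeetsFix_mem_box] at hp
      rw [hforb]
      simp only [coe_filter, mem_univ, true_and, Set.mem_setOf_eq]
      subst hpa
      exact ⟨kl, hkl, hp.1, hp.2⟩
    · intro p hp p' hp' h
      simp only [coe_filter, Set.mem_setOf_eq] at hp hp'
      exact Prod.ext (hp.2.trans hp'.2.symm) h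
  have h1 := avoid_count A hA2 forb
  have hn0 : (0 : ℝ) < n := by exact_mod_cast hn
  have hexp : (A.card : ℝ) ^ 2 / n - (∑ a ∈ A, ((forb a).card : ℝ)) / n ≤ -2 * (q : ℝ) ^ 2 := by
    rw [← sub_div, div_le_iff₀ hn0]
    have e1 : (A.card : ℝ) ≤ q * X := by exact_mod_cast hAcard
    have e2 : (E.card : ℝ) * (X * Y) ≤ ∑ a ∈ A, ((forb a).card : ℝ) := by exact_mod_cast hsum
    have e3 : (4 : ℝ) * X ≤ Y := by exact_mod_cast hXY
    have e4 : (8 : ℝ) * n ≤ X * Y := by exact_mod_cast h8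
    have e5 : (q : ℝ) ^ 2 ≤ 2 * E.card := by exact_mod_cast hE.le
    have e6 : (A.card : ℝ) ^ 2 ≤ (q * X) ^ 2 := pow_le_pow_left₀ (by positivity) e1 2
    have e7 : ((q : ℝ) * X) ^ 2 ≤ (q : ℝ) ^ 2 * (X * Y) / 4 := by
      have : (q : ℝ) ^ 2 * (X * (4 * X)) ≤ (q : ℝ) ^ 2 * (X * Y) := by gcongr
      nlinarith
    have e8 : (q : ℝ) ^ 2 * (X * Y) ≤ 2 * (E.card * (X * Y)) := by
      have : (q : ℝ) ^ 2 * (X * Y) ≤ (2 * E.card) * (X * Y) := by gcongr
      linarith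
    have e9 : (q : ℝ) ^ 2 * (8 * n) ≤ (q : ℝ) ^ 2 * (X * Y) := by gcongr
    nlinarith
  calc ((univ.filter (fun π : Equiv.Perm (Fin n) =>
      ∀ kl ∈ E, ¬ Hit π X Y (i kl.1) (j kl.2))).card : ℝ) ≤
      ((univ.filter (fun π : Equiv.Perm (Fin n) => ∀ a ∈ A, π a ∉ forb a)).card : ℝ) := by
        exact_mod_cast card_le_card hsub
    _ ≤ Real.exp ((A.card : ℝ) ^ 2 / n - (∑ a ∈ A, ((forb a).card : ℝ)) / n) * n.factorial := h1
    _ ≤ Real.exp (-2 * (q : ℝ) ^ 2) * n.factorial := by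
        gcongr

open scoped Classical in
theorem meets_fix {n q X Y : ℕ} (hn : 1 ≤ n) (hXY : 4 * X ≤ Y) (h8 : 8 * n ≤ X * Y)
    (hq : 2 * q * X ≤ n) (i j : Fin q → ℕ)
    (hi : ∀ k l, k ≠ l → i k + X ≤ i l ∨ i l + X ≤ i k) (hi' : ∀ k, i k + X ≤ n)
    (hj : ∀ k l, k ≠ l → j k + Y ≤ j l ∨ j l + Y ≤ j k) (hj' : ∀ k, j k + Y ≤ n) :
    ((univ.filter (fun π : Equiv.Perm (Fin n) =>
      2 * (univ.filter (fun kl : Fin q × Fin q => Hit π X Y (i kl.1) (j kl.2))).card <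
        q ^ 2)).card : ℝ) ≤ 2 ^ (q ^ 2) * Real.exp (-2 * (q : ℝ) ^ 2) * n.factorial := by
  set 𝓔 : Finset (Finset (Fin q × Fin q)) :=
    (univ : Finset (Finset (Fin q × Fin q))).filter (fun E => q ^ 2 < 2 * E.card) with h𝓔
  have hcard : (univ : Finset (Fin q × Fin q)).card = q ^ 2 := by
    rw [card_univ, Fintype.card_prod, Fintype.card_fin]
    ring
  have hsub : univ.filter (fun π : Equiv.Perm (Fin n) =>
      2 * (univ.filter (fun kl : Fin q × Fin q => Hit π X Y (i kl.1) (j kl.2))).card < q ^ 2) ⊆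
      𝓔.biUnion (fun E => univ.filter (fun π : Equiv.Perm (Fin n) =>
        ∀ kl ∈ E, ¬ Hit π X Y (i kl.1) (j kl.2))) := by
    intro π hπ
    simp only [mem_filter, mem_univ, true_and] at hπ
    rw [mem_biUnion]
    refine ⟨univ.filter (fun kl : Fin q × Fin q => ¬ Hit π X Y (i kl.1) (j kl.2)), ?_, ?_⟩
    · rw [h𝓔]
      simp only [mem_filter, mem_univ, true_and]
      have h1 := card_filter_add_card_filter_not (s := (univ : Finset (Fin q × Fin q)))
        (fun kl => Hit π X Y (i kl.1) (j kl.2))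
      rw [hcard] at h1
      omega
    · simp only [mem_filter, mem_univ, true_and]
      intro kl hkl
      exact hkl
  have hE : (𝓔.card : ℝ) ≤ 2 ^ (q ^ 2) := by
    have h1 : 𝓔.card ≤ (univ : Finset (Finset (Fin q × Fin q))).card := card_le_card (filter_subset _ _)
    rw [card_univ, Fintype.card_finset, ← card_univ, hcard] at h1
    exact_mod_cast h1
  calc ((univ.filter (fun π : Equiv.Perm (Fin n) =>
      2 * (univ.filter (fun kl : Fin q × Fin q => Hit π X Y (i kl.1) (j kl.2))).card <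
        q ^ 2)).card : ℝ) ≤ ((𝓔.biUnion (fun E => univ.filter (fun π : Equiv.Perm (Fin n) =>
        ∀ kl ∈ E, ¬ Hit π X Y (i kl.1) (j kl.2)))).card : ℝ) := by
        exact_mod_cast card_le_card hsub
    _ ≤ ∑ E ∈ 𝓔, ((univ.filter (fun π : Equiv.Perm (Fin n) =>
        ∀ kl ∈ E, ¬ Hit π X Y (i kl.1) (j kl.2))).card : ℝ) := by
        exact_mod_cast card_biUnion_le
    _ ≤ ∑ E ∈ 𝓔, Real.exp (-2 * (q : ℝ) ^ 2) * n.factorial := by
        refine sum_le_sum fun E hE => ?_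
        rw [h𝓔] at hE
        simp only [mem_filter, mem_univ, true_and] at hE
        exact MeetsFix_one hn hXY h8 hq i j hi hi' hj hj' E hE
    _ = 𝓔.card * (Real.exp (-2 * (q : ℝ) ^ 2) * n.factorial) := by
        rw [sum_const, nsmul_eq_mul]
    _ ≤ 2 ^ (q ^ 2) * (Real.exp (-2 * (q : ℝ) ^ 2) * n.factorial) := by gcongr
    _ = 2 ^ (q ^ 2) * Real.exp (-2 * (q : ℝ) ^ 2) * n.factorial := by ring

end Pool.Agent.H69.AP
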