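import Mathlib

/-! Sums over product spaces of products of factors that depend on the past. -/

namespace Pool.Agent.H69.AP

open Finset

theorem superm_avg {β γ : Type*} [Fintype β] [DecidableEq β] [Fintype γ] (j : β)
    (F : (β → γ) → ℝ) :
    ∑ s : β → γ, ∑ σ : γ, F (Function.update s j σ) = (Fintype.card γ : ℝ) * ∑ s, F s := by
  obtain ⟨e, he⟩ : ∃ e : (β → γ) × γ ≃ (β → γ) × γ,
      ∀ q, e q = (Function.update q.1 j q.2, q.1 j) :=
    ⟨{ toFun := fun q => (Function.update q.1 j q.2, q.1 j)
       invFun := fun q => (Function.update q.1 j q.2, q.1 j)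
       left_inv := fun q => by simp
       right_inv := fun q => by simp }, fun q => rfl⟩
  calc ∑ s : β → γ, ∑ σ : γ, F (Function.update s j σ)
      = ∑ q : (β → γ) × γ, F (Function.update q.1 j q.2) :=
        (Fintype.sum_prod_type (fun q : (β → γ) × γ => F (Function.update q.1 j q.2))).symm
    _ = ∑ q : (β → γ) × γ, F q.1 := by
        refine Fintype.sum_equiv e _ _ fun q => ?_
        rw [he]
    _ = (Fintype.card γ : ℝ) * ∑ s, F s := by
        rw [Fintype.sum_prod_type, mul_sum]
        exact sum_congr rfl fun s _ => by simp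

theorem superm {β γ : Type*} [Fintype β] [DecidableEq β] [Fintype γ] [Nonempty γ] (ρ : ℝ)
    (hρ : 1 ≤ ρ) (T : ℕ) (b : ℕ → β) (c : ℕ → (β → γ) → ℝ) (hc0 : ∀ k s, 0 ≤ c k s)
    (hdep : ∀ k, k < T → ∀ s s' : β → γ, (∀ i, i ≤ k → s (b i) = s' (b i)) → c k s = c k s')
    (h : ∀ k, k < T → (∀ s, c k s ≤ 1) ∨ ((∀ i, i < k → b i ≠ b k) ∧
      ∀ s, ∑ σ : γ, c k (Function.update s (b k) σ) ≤ ρ * Fintype.card γ)) :
    ∑ s : β → γ, ∏ k ∈ range T, c k s ≤ ρ ^ T * (Fintype.card γ : ℝ) ^ Fintype.card β := by
  have hγ : (0 : ℝ) < Fintype.card γ := by exact_mod_cast Fintype.card_pos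
  induction T with
  | zero => simp
  | succ T ih =>
    have ih' := ih (fun k hk => hdep k (by omega)) (fun k hk => h k (by omega))
    have hP0 : ∀ s, 0 ≤ ∏ k ∈ range T, c k s := fun s => prod_nonneg fun k _ => hc0 k s
    have hstep : ∑ s : β → γ, ∏ k ∈ range (T + 1), c k s ≤
        ρ * ∑ s : β → γ, ∏ k ∈ range T, c k s := by
      simp only [prod_range_succ]
      rcases h T (by omega) with h1 | ⟨hb, h2⟩
      · have h3 : ∑ s : β → γ, (∏ k ∈ range T, c k s) * c T s ≤
            ∑ s : β → γ, ∏ k ∈ range T, c k s :=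
          sum_le_sum fun s _ => mul_le_of_le_one_right (hP0 s) (h1 s)
        refine h3.trans (le_mul_of_one_le_left (sum_nonneg fun s _ => hP0 s) hρ)
      · have hup : ∀ (s : β → γ) (σ : γ), ∏ k ∈ range T, c k (Function.update s (b T) σ) =
            ∏ k ∈ range T, c k s := by
          intro s σ
          refine prod_congr rfl fun k hk => ?_
          have hkT : k < T := mem_range.1 hk
          refine hdep k (by omega) _ _ fun i hi => ?_
          rw [Function.update_of_ne (hb i (by omega))]
        have h4 := superm_avg (b T) (fun s => (∏ k ∈ range T, c k s) * c T s)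
        have h5 : ∑ s : β → γ, ∑ σ : γ, (∏ k ∈ range T, c k (Function.update s (b T) σ)) *
            c T (Function.update s (b T) σ) ≤
            ∑ s : β → γ, (∏ k ∈ range T, c k s) * (ρ * Fintype.card γ) := by
          refine sum_le_sum fun s _ => ?_
          simp only [hup]
          rw [← mul_sum]
          exact mul_le_mul_of_nonneg_left (h2 s) (hP0 s)
        rw [h4, ← sum_mul] at h5
        refine le_of_mul_le_mul_left (h5.trans (le_of_eq ?_)) hγ
        ring
    refine hstep.trans ?_
    rw [pow_succ]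
    calc ρ * ∑ s : β → γ, ∏ k ∈ range T, c k s ≤
          ρ * (ρ ^ T * (Fintype.card γ : ℝ) ^ Fintype.card β) :=
          mul_le_mul_of_nonneg_left ih' (by linarith)
      _ = ρ ^ T * ρ * (Fintype.card γ : ℝ) ^ Fintype.card β := by ring

end Pool.Agent.H69.AP
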