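import Pool.Agent.H69.AP.PermFun
import Pool.Agent.H69.AP.Fact
import Pool.Agent.H69.AP.Super

/-! Sequential exposure: few rows of `A` avoid their forbidden sets with small probability. -/

namespace Pool.Agent.H69.AP

open Finset

open scoped Classical in
/-- the weight of a function -/
private noncomputable def ncG {n : ℕ} (A : Finset (Fin n))
    (F : Fin n → (Fin n → Fin n) → Finset (Fin n)) (s : Fin n → Fin n) : ℝ :=
  ∏ a ∈ A, (if s a ∈ F a s then (16 : ℝ) else 1)

open scoped Classical in
private theorem nc_sum {n : ℕ} (hn : 0 < n) (A : Finset (Fin n))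
    (F : Fin n → (Fin n → Fin n) → Finset (Fin n))
    (hdep : ∀ a ∈ A, ∀ s s' : Fin n → Fin n, (∀ a' ∈ A, a' < a → s a' = s' a') → F a s = F a s')
    (hF : ∀ a ∈ A, ∀ s, 4 * (F a s).card ≤ n) :
    ∑ s : Fin n → Fin n, ncG A F s ≤ (19 / 4) ^ A.card * (n : ℝ) ^ n := by
  have hne : Nonempty (Fin n) := ⟨⟨0, hn⟩⟩
  set m := A.card with hm
  set e := A.orderEmbOfFin hm.symm with he
  let b : ℕ → Fin n := fun k => if h : k < m then e ⟨k, h⟩ else ⟨0, hn⟩
  have hb : ∀ k (h : k < m), b k = e ⟨k, h⟩ := fun k h => by simp only [b, dif_pos h]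
  have hbA : ∀ k, k < m → b k ∈ A := by
    intro k h
    rw [hb k h]
    exact A.orderEmbOfFin_mem hm.symm _
  have hbm : ∀ i k, i < k → k < m → b i < b k := by
    intro i k hik hk
    rw [hb k hk, hb i (hik.trans hk)]
    exact e.strictMono (by simpa using hik)
  have hbs : ∀ a ∈ A, ∃ i, i < m ∧ b i = a := by
    intro a ha
    have h1 : a ∈ Set.range e := by
      rw [he, Finset.range_orderEmbOfFin]
      exact ha
    obtain ⟨i, hi⟩ := h1
    exact ⟨i.1, i.2, by rw [hb _ i.2]; exact hi⟩
  let c : ℕ → (Fin n → Fin n) → ℝ := fun k s => if s (b k) ∈ F (b k) s then 16 else 1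
  have hdep' : ∀ k, k < m → ∀ s s' : Fin n → Fin n, (∀ i, i < k → s (b i) = s' (b i)) →
      F (b k) s = F (b k) s' := by
    intro k hk s s' hs
    apply hdep _ (hbA k hk)
    intro a' ha' hlt
    obtain ⟨i, hi, rfl⟩ := hbs a' ha'
    apply hs
    by_contra hik
    rcases Nat.lt_or_ge k i with h | h
    · exact absurd (hbm k i h hi) (not_lt.2 hlt.le)
    · have : i = k := by omega
      subst this
      exact lt_irrefl _ hlt
  have key := superm (β := Fin n) (γ := Fin n) (19 / 4) (by norm_num) m b c
    (fun k s => by simp only [c]; split_ifs <;> norm_num)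
    (by
      intro k hk s s' hs
      simp only [c]
      rw [hdep' k hk s s' (fun i hi => hs i hi.le), hs k le_rfl])
    (by
      intro k hk
      right
      refine ⟨fun i hi => (hbm i k hi hk).ne, ?_⟩
      intro s
      have h1 : ∀ σ : Fin n, c k (Function.update s (b k) σ) =
          (if σ ∈ F (b k) s then (16 : ℝ) else 1) := by
        intro σ
        simp only [c]
        rw [hdep' k hk (Function.update s (b k) σ) s (fun i hi => by
          rw [Function.update_of_ne (hbm i k hi hk).ne]), Function.update_self]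
      simp only [h1]
      have h2 : ∀ σ : Fin n, (if σ ∈ F (b k) s then (16 : ℝ) else 1) =
          1 + (if σ ∈ F (b k) s then (15 : ℝ) else 0) := by
        intro σ
        split_ifs <;> norm_num
      simp only [h2, Finset.sum_add_distrib]
      rw [← Finset.sum_filter]
      simp only [Finset.sum_const, nsmul_eq_mul, Finset.card_univ, Fintype.card_fin]
      have h3 : (univ.filter (fun σ => σ ∈ F (b k) s)) = F (b k) s := by
        ext σ
        simp
      rw [h3]
      have h4 : (4 : ℝ) * ((F (b k) s).card : ℝ) ≤ n := by exact_mod_cast hF _ (hbA k hk) s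
      linarith)
  simp only [Fintype.card_fin] at key
  refine le_trans (le_of_eq ?_) key
  refine Finset.sum_congr rfl fun s _ => ?_
  unfold ncG
  rw [← Fin.prod_univ_eq_prod_range (fun k => c k s) m]
  have h5 : A = Finset.univ.map e.toEmbedding := by
    rw [he, Finset.map_orderEmbOfFin_univ]
  conv_lhs => rw [h5]
  rw [Finset.prod_map]
  refine Finset.prod_congr rfl fun i _ => ?_
  simp only [c]
  rw [hb _ i.2]
  rfl

private theorem nc_exp : Real.exp (1 / 8) ≤ 24 / 19 := by
  have h := Real.exp_bound' (x := 1 / 8) (by norm_num) (by norm_num) (n := 3) (by norm_num)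
  refine h.trans ?_
  norm_num [Finset.sum_range_succ, Nat.factorial]

open scoped Classical in
theorem new_count {n : ℕ} (A : Finset (Fin n)) (hA : 8 * A.card ≤ n)
    (F : Fin n → (Fin n → Fin n) → Finset (Fin n))
    (hdep : ∀ a ∈ A, ∀ s s' : Fin n → Fin n, (∀ a' ∈ A, a' < a → s a' = s' a') → F a s = F a s')
    (hF : ∀ a ∈ A, ∀ s, 4 * (F a s).card ≤ n) :
    ((univ.filter (fun π : Equiv.Perm (Fin n) =>
      4 * (A.filter (fun a => π a ∉ F a π)).card ≤ A.card)).card : ℝ) ≤
      (3 / 4) ^ A.card * n.factorial := by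
  rcases Nat.eq_zero_or_pos A.card with h0 | hmpos
  · rw [h0, pow_zero, one_mul]
    have h1 : (univ.filter (fun π : Equiv.Perm (Fin n) =>
        4 * (A.filter (fun a => π a ∉ F a π)).card ≤ 0)).card ≤ n.factorial := by
      refine (Finset.card_filter_le _ _).trans ?_
      rw [Finset.card_univ, Fintype.card_perm, Fintype.card_fin]
    exact_mod_cast h1
  have hn : 0 < n := by omega
  have hnR : (0 : ℝ) < n := by exact_mod_cast hn
  set m := A.card with hm
  have hG0 : ∀ s, 0 ≤ ncG A F s := by
    intro s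
    unfold ncG
    apply Finset.prod_nonneg
    intro a _
    split_ifs <;> norm_num
  have hG : ∀ s s' : Fin n → Fin n, (∀ a ∈ A, s a = s' a) → ncG A F s = ncG A F s' := by
    intro s s' hs
    unfold ncG
    refine Finset.prod_congr rfl fun a ha => ?_
    rw [hdep a ha s s' (fun a' ha' _ => hs a' ha'), hs a ha]
  have h1 := perm_le_fun A (ncG A F) hG0 hG
  have h2 := nc_sum hn A F hdep hF
  have h3 := fact_mul_pow_le (n := n) (m := m) (by omega)
  rw [← hm] at h1 h2
  have hmn : m ≤ n := by omega
  -- the sum over permutations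
  have h4 : ∑ π : Equiv.Perm (Fin n), ncG A F π ≤
      (Real.exp (1 / 8) * (19 / 4)) ^ m * n.factorial := by
    have hpos : (0 : ℝ) < (n : ℝ) ^ (n - m) := by positivity
    refine le_of_mul_le_mul_left ?_ hpos
    refine h1.trans ?_
    refine (mul_le_mul_of_nonneg_left h2 (by positivity)).trans ?_
    have h5 : (n : ℝ) ^ n = (n : ℝ) ^ (n - m) * (n : ℝ) ^ m := by
      rw [← pow_add]
      congr 1
      omega
    have h6 : Real.exp ((m : ℝ) ^ 2 / n) ≤ Real.exp (1 / 8) ^ m := by
      rw [← Real.exp_nat_mul]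
      apply Real.exp_le_exp.2
      rw [div_le_iff₀ hnR]
      have h7 : (8 : ℝ) * m ≤ n := by exact_mod_cast hA
      have h8 : (0 : ℝ) ≤ m := by positivity
      nlinarith
    calc ((n - m).factorial : ℝ) * ((19 / 4) ^ m * (n : ℝ) ^ n)
        = (n : ℝ) ^ (n - m) * ((19 / 4) ^ m * (((n - m).factorial : ℝ) * (n : ℝ) ^ m)) := by
          rw [h5]; ring
      _ ≤ (n : ℝ) ^ (n - m) * ((19 / 4) ^ m * (Real.exp (1 / 8) ^ m * n.factorial)) := by
          apply mul_le_mul_of_nonneg_left _ hpos.le
          apply mul_le_mul_of_nonneg_left _ (by positivity)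
          exact h3.trans (mul_le_mul_of_nonneg_right h6 (by positivity))
      _ = (n : ℝ) ^ (n - m) * ((Real.exp (1 / 8) * (19 / 4)) ^ m * n.factorial) := by
          rw [mul_pow]; ring
  -- every counted permutation has large weight
  have h9 : ∀ π ∈ (univ.filter (fun π : Equiv.Perm (Fin n) =>
      4 * (A.filter (fun a => π a ∉ F a π)).card ≤ m)), (8 : ℝ) ^ m ≤ ncG A F π := by
    intro π hπ
    rw [Finset.mem_filter] at hπ
    have h10 : ncG A F π = (16 : ℝ) ^ (A.filter (fun a => π a ∈ F a π)).card := by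
      unfold ncG
      rw [Finset.prod_ite]
      simp
    have h11 : (A.filter (fun a => π a ∈ F a π)).card +
        (A.filter (fun a => π a ∉ F a π)).card = m := by
      rw [Finset.card_filter_add_card_filter_not]
    rw [h10]
    have h12 : (8 : ℝ) ^ m = 2 ^ (3 * m) := by
      rw [pow_mul]; norm_num
    have h13 : ∀ k : ℕ, (16 : ℝ) ^ k = 2 ^ (4 * k) := by
      intro k
      rw [pow_mul]; norm_num
    rw [h12, h13]
    apply pow_le_pow_right₀ (by norm_num)
    omega
  have h14 : ((univ.filter (fun π : Equiv.Perm (Fin n) =>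
      4 * (A.filter (fun a => π a ∉ F a π)).card ≤ m)).card : ℝ) * 8 ^ m ≤
      ∑ π : Equiv.Perm (Fin n), ncG A F π := by
    rw [← nsmul_eq_mul]
    refine (Finset.card_nsmul_le_sum _ _ _ h9).trans ?_
    exact Finset.sum_le_sum_of_subset_of_nonneg (Finset.filter_subset _ _) (fun π _ _ => hG0 π)
  have h15 : ((univ.filter (fun π : Equiv.Perm (Fin n) =>
      4 * (A.filter (fun a => π a ∉ F a π)).card ≤ m)).card : ℝ) * 8 ^ m ≤
      ((3 / 4) ^ m * n.factorial) * 8 ^ m := by
    refine (h14.trans h4).trans ?_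
    have h16 : (Real.exp (1 / 8) * (19 / 4)) ^ m ≤ (3 / 4 * 8) ^ m := by
      apply pow_le_pow_left₀ (by positivity)
      have := nc_exp
      linarith
    calc (Real.exp (1 / 8) * (19 / 4)) ^ m * (n.factorial : ℝ)
        ≤ (3 / 4 * 8) ^ m * n.factorial := mul_le_mul_of_nonneg_right h16 (by positivity)
      _ = ((3 / 4) ^ m * n.factorial) * 8 ^ m := by
          rw [mul_pow]; ring
  exact le_of_mul_le_mul_right h15 (by positivity)

end Pool.Agent.H69.AP
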