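import Mathlib

/-! Comparison of random permutations with random functions on few points. -/

namespace Pool.Agent.H69.AP

open Finset

theorem card_fix {n : ℕ} (A : Finset (Fin n)) :
    (univ.filter (fun σ : Equiv.Perm (Fin n) => ∀ a ∈ A, σ a = a)).card =
      (n - A.card).factorial := by
  classical
  have e := Equiv.Perm.subtypeEquivSubtypePerm (fun a : Fin n => a ∉ A)
  have h1 : Fintype.card (Equiv.Perm {a : Fin n // a ∉ A}) =
      Fintype.card {f : Equiv.Perm (Fin n) // ∀ a : Fin n, ¬ (a ∉ A) → f a = a} :=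
    Fintype.card_congr e
  have h2 : Fintype.card {a : Fin n // a ∉ A} = n - A.card := by
    rw [Fintype.card_subtype_compl, Fintype.card_fin, Fintype.card_coe]
  rw [Fintype.card_perm, h2] at h1
  rw [h1, Fintype.card_subtype]
  congr 1
  ext σ
  simp

theorem card_ext_fun {n : ℕ} (A : Finset (Fin n)) (f : Fin n → Fin n) :
    (univ.filter (fun s : Fin n → Fin n => ∀ a ∈ A, s a = f a)).card = n ^ (n - A.card) := by
  classical
  have h : (univ.filter (fun s : Fin n → Fin n => ∀ a ∈ A, s a = f a)) =
      Fintype.piFinset (fun a => if a ∈ A then ({f a} : Finset (Fin n)) else univ) := by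
    ext c
    simp only [mem_filter, mem_univ, true_and, Fintype.mem_piFinset]
    constructor
    · intro h z
      by_cases hz : z ∈ A
      · simp [hz, h z hz]
      · simp [hz]
    · intro h z hz
      have := h z
      simpa [hz] using this
  rw [h, Fintype.card_piFinset]
  have h2 : ∀ z : Fin n, (if z ∈ A then ({f z} : Finset (Fin n)) else univ).card =
      if z ∈ A then 1 else n := by
    intro z
    by_cases hz : z ∈ A <;> simp [hz]
  simp only [h2]
  rw [Finset.prod_ite]
  simp only [prod_const_one, one_mul, prod_const]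
  congr 1
  have h3 : (univ.filter (fun z => z ∉ A)) = Aᶜ := by
    ext z; simp
  rw [h3, Finset.card_compl, Fintype.card_fin]

theorem card_ext_perm {n : ℕ} (A : Finset (Fin n)) (π₀ : Equiv.Perm (Fin n)) :
    (univ.filter (fun π : Equiv.Perm (Fin n) => ∀ a ∈ A, π a = π₀ a)).card ≤
      (n - A.card).factorial := by
  classical
  rw [← card_fix A]
  apply Finset.card_le_card_of_injOn (fun π => π₀⁻¹ * π)
  · intro π hπ
    simp only [coe_filter, mem_univ, true_and, Set.mem_ofPred_eq] at hπ ⊢
    intro a ha
    rw [Equiv.Perm.mul_apply, hπ a ha]; simp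
  · intro π _ π' _ h
    exact mul_left_cancel h

theorem perm_le_fun {n : ℕ} (A : Finset (Fin n)) (G : (Fin n → Fin n) → ℝ)
    (hG0 : ∀ s, 0 ≤ G s) (hG : ∀ s s' : Fin n → Fin n, (∀ a ∈ A, s a = s' a) → G s = G s') :
    (n : ℝ) ^ (n - A.card) * ∑ π : Equiv.Perm (Fin n), G π ≤
      ((n - A.card).factorial : ℝ) * ∑ s : Fin n → Fin n, G s := by
  classical
  rw [← Finset.sum_fiberwise (univ : Finset (Equiv.Perm (Fin n)))
    (fun π => (fun a : ↥A => π a)) (fun π => G π),
    ← Finset.sum_fiberwise (univ : Finset (Fin n → Fin n)) (fun s => (fun a : ↥A => s a)) G,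
    Finset.mul_sum, Finset.mul_sum]
  apply Finset.sum_le_sum
  intro f _
  rcases (univ.filter (fun π : Equiv.Perm (Fin n) =>
    (fun a : ↥A => π a) = f)).eq_empty_or_nonempty with he | ⟨π₀, hπ₀⟩
  · rw [he, Finset.sum_empty, mul_zero]
    exact mul_nonneg (Nat.cast_nonneg _) (Finset.sum_nonneg (fun s _ => hG0 s))
  · rw [mem_filter] at hπ₀
    have hf : ∀ a (ha : a ∈ A), π₀ a = f ⟨a, ha⟩ := fun a ha => congrFun hπ₀.2 ⟨a, ha⟩
    have h1 : ∑ π ∈ univ.filter (fun π : Equiv.Perm (Fin n) => (fun a : ↥A => π a) = f), G π =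
        ((univ.filter (fun π : Equiv.Perm (Fin n) => ∀ a ∈ A, π a = π₀ a)).card : ℝ) * G π₀ := by
      rw [← nsmul_eq_mul, ← Finset.sum_const]
      have hfil : univ.filter (fun π : Equiv.Perm (Fin n) => (fun a : ↥A => π a) = f) =
          univ.filter (fun π : Equiv.Perm (Fin n) => ∀ a ∈ A, π a = π₀ a) := by
        ext π
        simp only [mem_filter, mem_univ, true_and]
        constructor
        · intro h a ha
          rw [hf a ha]
          exact congrFun h ⟨a, ha⟩
        · intro h
          funext a
          rw [h a a.2, hf a a.2]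
      rw [hfil]
      apply Finset.sum_congr rfl
      intro π hπ
      rw [mem_filter] at hπ
      exact hG _ _ hπ.2
    have h2 : ∑ s ∈ univ.filter (fun s : Fin n → Fin n => (fun a : ↥A => s a) = f), G s =
        ((univ.filter (fun s : Fin n → Fin n => ∀ a ∈ A, s a = π₀ a)).card : ℝ) * G π₀ := by
      rw [← nsmul_eq_mul, ← Finset.sum_const]
      have hfil : univ.filter (fun s : Fin n → Fin n => (fun a : ↥A => s a) = f) =
          univ.filter (fun s : Fin n → Fin n => ∀ a ∈ A, s a = π₀ a) := by
        ext s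
        simp only [mem_filter, mem_univ, true_and]
        constructor
        · intro h a ha
          rw [hf a ha]
          exact congrFun h ⟨a, ha⟩
        · intro h
          funext a
          rw [h a a.2, hf a a.2]
      rw [hfil]
      apply Finset.sum_congr rfl
      intro s hs
      rw [mem_filter] at hs
      exact hG _ _ hs.2
    rw [h1, h2, card_ext_fun A π₀]
    have h3 : ((univ.filter (fun π : Equiv.Perm (Fin n) => ∀ a ∈ A, π a = π₀ a)).card : ℝ) ≤
        ((n - A.card).factorial : ℝ) := by
      exact_mod_cast card_ext_perm A π₀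
    push_cast
    have h4 : (0 : ℝ) ≤ (n : ℝ) ^ (n - A.card) := by positivity
    have h5 := mul_le_mul_of_nonneg_right h3 (hG0 π₀)
    have h6 := mul_le_mul_of_nonneg_left h5 h4
    calc _ ≤ _ := h6
      _ = _ := by ring

end Pool.Agent.H69.AP
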