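import Pool.Agent.H69.AP.Run

/-! Cells of side `σ`: `D` is the set of the cells all of whose entries have colour `false`. -/

namespace Pool.Agent.H69.AP

open Finset

theorem red_lt {y M i σ : ℕ} (hy : y < M) (hi : i < σ) : y * σ + i < M * σ := by
  have h : (y + 1) * σ ≤ M * σ := Nat.mul_le_mul_right _ hy
  rw [Nat.add_mul, one_mul] at h
  omega

theorem red_step {y y' i i' σ : ℕ} (hy : y < y') (hi : i < σ) : y * σ + i < y' * σ + i' :=
  lt_of_lt_of_le (red_lt hy hi) (Nat.le_add_right _ _)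

theorem red_mono {A : Finset ℕ} {K σ n : ℕ} (hA : A.card = K) (hn : n ≤ K * σ) (_hσ : 0 < σ) :
    ∃ F : Fin n → ℕ, StrictMono F ∧ ∀ a, ∃ y ∈ A, ∃ i, i < σ ∧ F a = y * σ + i := by
  have hk : ∀ a : Fin n, (a : ℕ) / σ < K := fun a =>
    Nat.div_lt_of_lt_mul (by rw [mul_comm]; exact lt_of_lt_of_le a.2 hn)
  refine ⟨fun a => A.orderEmbOfFin hA ⟨(a : ℕ) / σ, hk a⟩ * σ + (a : ℕ) % σ, ?_, fun a =>
    ⟨_, Finset.orderEmbOfFin_mem A hA _, _, Nat.mod_lt _ _hσ, rfl⟩⟩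
  intro a b hab
  have hab' : (a : ℕ) < b := hab
  show A.orderEmbOfFin hA ⟨(a : ℕ) / σ, hk a⟩ * σ + (a : ℕ) % σ <
    A.orderEmbOfFin hA ⟨(b : ℕ) / σ, hk b⟩ * σ + (b : ℕ) % σ
  rcases (Nat.div_le_div_right (c := σ) hab'.le).lt_or_eq with h | h
  · refine red_step ?_ (Nat.mod_lt _ _hσ)
    exact (A.orderEmbOfFin hA).strictMono (show (⟨(a : ℕ) / σ, hk a⟩ : Fin K) < ⟨(b : ℕ) / σ, hk b⟩
      from h)
  · have h1 := Nat.div_add_mod (a : ℕ) σ
    have h2 := Nat.div_add_mod (b : ℕ) σ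
    have h3 : (⟨(a : ℕ) / σ, hk a⟩ : Fin K) = ⟨(b : ℕ) / σ, hk b⟩ := Fin.ext h
    rw [h3]
    rw [h] at h1
    omega

theorem red_nat {n K σ M : ℕ} (hn : 1 ≤ n) (hσ : n ≤ K * σ) (π : Equiv.Perm (Fin n))
    (h : ∀ D : ℕ → ℕ → Prop, (∀ y x, D y x → y < M) → KFree K M D →
      ∃ f g : Fin n → ℕ, StrictMono f ∧ StrictMono g ∧ (∀ a, f a < M) ∧ (∀ c, g c < M) ∧
        ∀ a, ¬ D (f a) (g (π a))) (χ : ℕ → ℕ → Bool) :
    ∃ (b : Bool) (f g : Fin n → ℕ), StrictMono f ∧ StrictMono g ∧ (∀ a, f a < M * σ) ∧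
      (∀ c, g c < M * σ) ∧ ∀ a, χ (f a) (g (π a)) = b := by
  have hσ0 : 0 < σ := by
    rcases Nat.eq_zero_or_pos σ with h0 | h0
    · rw [h0, mul_zero] at hσ
      omega
    · exact h0
  set D : ℕ → ℕ → Prop := fun y x => y < M ∧ x < M ∧
    ∀ i j, i < σ → j < σ → χ (y * σ + i) (x * σ + j) = false with hD
  by_cases hK : KFree K M D
  · obtain ⟨f, g, hf, hg, hfM, hgM, hfg⟩ := h D (fun y x hyx => hyx.1) hK
    have hex : ∀ a, ∃ i j, i < σ ∧ j < σ ∧ χ (f a * σ + i) (g (π a) * σ + j) = true := by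
      intro a
      by_contra hc
      push Not at hc
      refine hfg a ⟨hfM a, hgM _, fun i j hi hj => ?_⟩
      have := hc i j hi hj
      revert this
      cases χ (f a * σ + i) (g (π a) * σ + j) <;> simp
    choose i j hi hj hij using hex
    refine ⟨true, fun a => f a * σ + i a, fun c => g c * σ + j (π.symm c), ?_, ?_, ?_, ?_, ?_⟩
    · intro a b hab
      exact red_step (hf hab) (hi a)
    · intro a b hab
      exact red_step (hg hab) (hj _)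
    · intro a
      exact red_lt (hfM a) (hi a)
    · intro c
      exact red_lt (hgM c) (hj _)
    · intro a
      have := hij a
      simpa using this
  · unfold KFree at hK
    push Not at hK
    obtain ⟨A, B, hA, hB, -, hAB⟩ := hK
    obtain ⟨F, hF, hFA⟩ := red_mono hA hσ hσ0
    obtain ⟨G, hG, hGB⟩ := red_mono hB hσ hσ0
    have hc : ∀ a c, F a < M * σ ∧ G c < M * σ ∧ χ (F a) (G c) = false := by
      intro a c
      obtain ⟨y, hy, i, hi, e1⟩ := hFA a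
      obtain ⟨x, hx, j, hj, e2⟩ := hGB c
      obtain ⟨h1, h2, h3⟩ := hAB y hy x hx
      rw [e1, e2]
      exact ⟨red_lt h1 hi, red_lt h2 hj, h3 i j hi hj⟩
    exact ⟨false, F, G, hF, hG, fun a => (hc a a).1, fun c => (hc c c).2.1,
      fun a => (hc a (π a)).2.2⟩

theorem R_le_of_embed {n K σ M : ℕ} (hn : 1 ≤ n) (hσ : n ≤ K * σ) (π : Equiv.Perm (Fin n))
    (h : ∀ D : ℕ → ℕ → Prop, (∀ y x, D y x → y < M) → KFree K M D →
      ∃ f g : Fin n → ℕ, StrictMono f ∧ StrictMono g ∧ (∀ a, f a < M) ∧ (∀ c, g c < M) ∧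
        ∀ a, ¬ D (f a) (g (π a))) :
    H68.RS.R (H68.RS.P π) ≤ M * σ := by
  refine Nat.sInf_le fun χ => ?_
  obtain ⟨b, f, g, hf, hg, hfM, hgM, hχ⟩ := red_nat hn hσ π h
    (fun r c => if hrc : r < M * σ ∧ c < M * σ then χ ⟨r, hrc.1⟩ ⟨c, hrc.2⟩ else false)
  refine ⟨b, fun a => ⟨f a, hfM a⟩, fun c => ⟨g c, hgM c⟩, fun a b hab => hf hab,
    fun a b hab => hg hab, ?_⟩
  intro r c hrc
  have hrc' : π r = c := hrc
  have h1 := hχ r
  rw [dif_pos ⟨hfM r, hgM _⟩] at h1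
  subst hrc'
  exact h1

end Pool.Agent.H69.AP
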