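import Pool.Agent.H69.AP.Run

/-! From rounds to the whole sequence. -/

namespace Pool.Agent.H69.AP

open Finset

open scoped Classical in
theorem rounds_total {n r τ B M : ℕ} (hτ : 1 ≤ τ) (hn : n / τ + 1 ≤ n) (hM1 : 1 ≤ M)
    (D : ℕ → ℕ → Prop) (hM : ∀ y x, D y x → y < M) (p : ℕ → ℕ) (s : ℕ → ℕ) (S : ℕ → Prop)
    (hS : ∀ a, n ≤ a → S a)
    (h : ∀ k, k < n → ∀ y, y < M →
      ∑ j ∈ range τ, (if S (k * τ + j) then (0 : ℝ) else
        (run D (pos D (fun i => colOf r s (p (k * τ + i))) y j)
            (colOf r s (p (k * τ + j))) : ℝ) -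
          2 / r * (win D r (p (k * τ + j))
            (pos D (fun i => colOf r s (p (k * τ + i))) y j) : ℝ)) ≤
      B * Real.log (n * M)) :
    ∑ a ∈ range n, (if S a then (0 : ℝ) else
      (run D (pos D (fun i => colOf r s (p i)) 0 a) (colOf r s (p a)) : ℝ)) ≤
    (n / τ + 1 : ℕ) * (B * Real.log (n * M)) + 2 / r * ∑ a ∈ range n,
      ((if S a then 0 else win D r (p a) (pos D (fun i => colOf r s (p i)) 0 a) : ℕ) : ℝ) := by
  have hn1 : 1 ≤ n := le_trans (Nat.le_add_left 1 _) hn
  have hC : (0 : ℝ) ≤ B * Real.log (n * M) := by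
    refine mul_nonneg (Nat.cast_nonneg _) (Real.log_nonneg ?_)
    have h1 : (1 : ℝ) ≤ n := by exact_mod_cast hn1
    have h2 : (1 : ℝ) ≤ M := by exact_mod_cast hM1
    nlinarith
  set term : ℕ → ℝ := fun a => if S a then (0 : ℝ) else
    (run D (pos D (fun i => colOf r s (p i)) 0 a) (colOf r s (p a)) : ℝ) -
      2 / r * (win D r (p a) (pos D (fun i => colOf r s (p i)) 0 a) : ℝ) with hterm
  have hround : ∀ k, k < n / τ + 1 → ∑ j ∈ range τ, term (k * τ + j) ≤ B * Real.log (n * M) := by
    intro k hk
    have hkn : k < n := lt_of_lt_of_le hk hn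
    by_cases hy : pos D (fun i => colOf r s (p i)) 0 (k * τ) < M
    · have h1 := h k hkn _ hy
      refine le_trans (le_of_eq ?_) h1
      refine Finset.sum_congr rfl (fun j _ => ?_)
      simp only [hterm]
      rw [pos_add]
    · push Not at hy
      have h0 : ∀ j ∈ range τ, term (k * τ + j) = 0 := by
        intro j _
        have h1 : M ≤ pos D (fun i => colOf r s (p i)) 0 (k * τ + j) := by
          have h2 := pos_add_le D (fun i => colOf r s (p i)) 0 (k * τ) j
          omega
        have h3 : win D r (p (k * τ + j)) (pos D (fun i => colOf r s (p i)) 0 (k * τ + j)) = 0 := by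
          unfold win
          exact Finset.sum_eq_zero (fun x _ => run_zero hM x h1)
        simp only [hterm]
        rw [run_zero hM _ h1, h3]
        simp
      rw [Finset.sum_eq_zero h0]
      exact hC
  have hsum : ∀ K, ∑ a ∈ range (K * τ), term a = ∑ k ∈ range K, ∑ j ∈ range τ, term (k * τ + j) := by
    intro K
    induction K with
    | zero => simp
    | succ K ih =>
      rw [Nat.succ_mul, Finset.sum_range_succ, ← ih, Finset.sum_range_add]
  have hlast : ∑ a ∈ range n, term a = ∑ a ∈ range ((n / τ + 1) * τ), term a := by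
    have hle : n ≤ (n / τ + 1) * τ := by
      have h1 := Nat.div_add_mod n τ
      have h2 := Nat.mod_lt n (by omega : 0 < τ)
      nlinarith
    refine Finset.sum_subset (Finset.range_mono hle) (fun a _ ha => ?_)
    rw [Finset.mem_range, not_lt] at ha
    simp only [hterm]
    rw [if_pos (hS a ha)]
  have hmain : ∑ a ∈ range n, term a ≤ (n / τ + 1 : ℕ) * (B * Real.log (n * M)) := by
    rw [hlast, hsum]
    calc ∑ k ∈ range (n / τ + 1), ∑ j ∈ range τ, term (k * τ + j)
        ≤ ∑ k ∈ range (n / τ + 1), (B * Real.log (n * M)) :=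
          Finset.sum_le_sum (fun k hk => hround k (Finset.mem_range.1 hk))
      _ = _ := by rw [Finset.sum_const, Finset.card_range, nsmul_eq_mul]
  have hsplit : ∑ a ∈ range n, term a = ∑ a ∈ range n, (if S a then (0 : ℝ) else
      (run D (pos D (fun i => colOf r s (p i)) 0 a) (colOf r s (p a)) : ℝ)) -
      2 / r * ∑ a ∈ range n,
      ((if S a then 0 else win D r (p a) (pos D (fun i => colOf r s (p i)) 0 a) : ℕ) : ℝ) := by
    rw [Finset.mul_sum, ← Finset.sum_sub_distrib]
    refine Finset.sum_congr rfl (fun a _ => ?_)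
    simp only [hterm]
    by_cases hs : S a
    · simp only [if_pos hs]
      simp
    · simp only [if_neg hs]
  rw [hsplit] at hmain
  linarith

end Pool.Agent.H69.AP
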