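import Pool.Agent.H69.AP.Def

/-! Basic facts about `run` and `pos`. -/

namespace Pool.Agent.H69.AP

open Finset

theorem run_spec {D : ℕ → ℕ → Prop} {M : ℕ} (hM : ∀ y x, D y x → y < M) (y x : ℕ) :
    ¬ D (y + run D y x) x := by
  have hne : {k : ℕ | ¬ D (y + k) x}.Nonempty :=
    ⟨M, fun h => by have := hM _ _ h; omega⟩
  exact Nat.sInf_mem hne

theorem run_lt {D : ℕ → ℕ → Prop} {y x k : ℕ} (h : k < run D y x) : D (y + k) x := by
  by_contra hk
  exact absurd (Nat.sInf_le (show k ∈ {k : ℕ | ¬ D (y + k) x} from hk)) (not_le.mpr h)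

theorem run_le_of {D : ℕ → ℕ → Prop} {y x k : ℕ} (h : ¬ D (y + k) x) : run D y x ≤ k :=
  Nat.sInf_le (show k ∈ {k : ℕ | ¬ D (y + k) x} from h)

theorem run_zero {D : ℕ → ℕ → Prop} {M : ℕ} (hM : ∀ y x, D y x → y < M) {y : ℕ} (x : ℕ)
    (h : M ≤ y) : run D y x = 0 := by
  have := run_le_of (D := D) (y := y) (x := x) (k := 0) (fun h' => by have := hM _ _ h'; omega)
  omega

theorem pos_zero (D : ℕ → ℕ → Prop) (col : ℕ → ℕ) (y : ℕ) : pos D col y 0 = y := rfl

theorem pos_succ (D : ℕ → ℕ → Prop) (col : ℕ → ℕ) (y a : ℕ) :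
    pos D col y (a + 1) = pos D col y a + run D (pos D col y a) (col a) + 1 := rfl

theorem pos_add_le (D : ℕ → ℕ → Prop) (col : ℕ → ℕ) (y a j : ℕ) :
    pos D col y a + j ≤ pos D col y (a + j) := by
  induction j with
  | zero => simp
  | succ j ih =>
    have h := pos_succ D col y (a + j)
    rw [Nat.add_assoc] at h
    omega

theorem pos_lt_pos (D : ℕ → ℕ → Prop) (col : ℕ → ℕ) (y : ℕ) {a b : ℕ} (h : a < b) :
    pos D col y a + run D (pos D col y a) (col a) < pos D col y b := by
  have h1 := pos_add_le D col y (a + 1) (b - (a + 1))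
  rw [show a + 1 + (b - (a + 1)) = b by omega] at h1
  rw [pos_succ] at h1
  omega

theorem pos_add (D : ℕ → ℕ → Prop) (col : ℕ → ℕ) (y a j : ℕ) :
    pos D col y (a + j) = pos D (fun i => col (a + i)) (pos D col y a) j := by
  induction j with
  | zero => rfl
  | succ j ih =>
    have h := pos_succ D col y (a + j)
    rw [Nat.add_assoc] at h
    rw [h, pos_succ, ih]

theorem pos_eq_sum (D : ℕ → ℕ → Prop) (col : ℕ → ℕ) (y a : ℕ) :
    pos D col y a = y + a + ∑ i ∈ range a, run D (pos D col y i) (col i) := by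
  induction a with
  | zero => simp [pos]
  | succ a ih =>
    rw [Finset.sum_range_succ, pos_succ]
    omega

theorem pos_congr (D : ℕ → ℕ → Prop) (col col' : ℕ → ℕ) (y a : ℕ)
    (h : ∀ i < a, col i = col' i) : pos D col y a = pos D col' y a := by
  induction a with
  | zero => rfl
  | succ a ih =>
    rw [pos_succ, pos_succ, ih (fun i hi => h i (by omega)), h a (by omega)]

end Pool.Agent.H69.AP
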