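import Pool.Agent.H69.AP.Kst

/-! The sum of the runs over far apart rows `V` and a window `W` of columns. -/

namespace Pool.Agent.H69.AP

open Finset

theorem rs_dyadic (n t : ℕ) (h : t < 2 ^ n) :
    t ≤ ∑ i ∈ range n, if 2 ^ i ≤ t then 2 ^ i else 0 := by
  induction n with
  | zero => simp at h; simp [h]
  | succ n ih =>
    rw [Finset.sum_range_succ]
    by_cases h2 : 2 ^ n ≤ t
    · rw [if_pos h2]
      have h3 : ∑ i ∈ range n, (if 2 ^ i ≤ t then 2 ^ i else 0) = ∑ i ∈ range n, 2 ^ i := by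
        refine Finset.sum_congr rfl fun i hi => ?_
        rw [if_pos]
        exact le_trans (Nat.pow_le_pow_right (by norm_num) (Finset.mem_range.mp hi).le) h2
      have h4 : ∑ i ∈ range n, 2 ^ i = 2 ^ n - 1 := by
        have := Nat.geomSum_eq (le_refl 2) n
        simpa using this
      rw [h3, h4]
      have h5 : 2 ^ (n + 1) = 2 * 2 ^ n := by rw [pow_succ]; ring
      have h6 : 0 < 2 ^ n := by positivity
      omega
    · push Not at h2
      exact le_trans (ih h2) (Nat.le_add_right _ _)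

theorem rs_term (n : ℕ) (hn : 2 ≤ n) : (2 : ℝ) ^ n / 4 ^ (2 ^ n) ≤ (1 / 4) ^ (n + 1) := by
  have h1 : 3 * n + 2 ≤ 2 * 2 ^ n := by
    induction n, hn using Nat.le_induction with
    | base => norm_num
    | succ n hn ih => rw [pow_succ]; omega
  rw [div_le_iff₀ (by positivity), one_div, inv_pow, inv_mul_eq_div, le_div_iff₀ (by positivity)]
  have h2 : (2 : ℝ) ^ n * 4 ^ (n + 1) = 2 ^ (3 * n + 2) := by
    rw [show (4 : ℝ) = 2 ^ 2 by norm_num, ← pow_mul, ← pow_add]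
    congr 1
    ring
  have h3 : (4 : ℝ) ^ (2 ^ n) = 2 ^ (2 * 2 ^ n) := by
    rw [show (4 : ℝ) = 2 ^ 2 by norm_num, ← pow_mul]
  rw [h2, h3]
  exact pow_le_pow_right₀ (by norm_num) h1

theorem rs_series (n : ℕ) (hn : 2 ≤ n) :
    ∑ i ∈ range n, (2 : ℝ) ^ i / 4 ^ (2 ^ i) ≤ 19 / 48 - (1 / 3) * (1 / 4) ^ n := by
  induction n, hn using Nat.le_induction with
  | base => norm_num [Finset.sum_range_succ]
  | succ n hn ih =>
    rw [Finset.sum_range_succ]
    have h := rs_term n hn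
    have h2 : (1 / 4 : ℝ) ^ (n + 1) = (1 / 4) ^ n * (1 / 4) := pow_succ _ _
    rw [h2] at h ⊢
    linarith

theorem run_sum {κ r m : ℕ} (hκ : 3 ≤ κ) (hr : 16 ^ (2 ^ κ) ≤ r) {D : ℕ → ℕ → Prop}
    (hD : KFree (2 ^ κ) m D) (V W : Finset ℕ) (hW : ∀ x ∈ W, x < m) (hWc : W.card ≤ 2 * r)
    (hVc : V.card ≤ r) (hV : ∀ y ∈ V, ∀ y' ∈ V, y < y' → y + 4 * 2 ^ κ ≤ y')
    (hrun : ∀ y x, x < m → run D y x < 4 * 2 ^ κ) :
    ∑ y ∈ V, ∑ x ∈ W, run D y x ≤ r ^ 2 := by
  classical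
  set K : ℕ := 2 ^ κ with hK
  have hK8 : 8 ≤ K := by
    calc 8 = 2 ^ 3 := by norm_num
      _ ≤ 2 ^ κ := Nat.pow_le_pow_right (by norm_num) hκ
  -- step A
  have hA : ∑ y ∈ V, ∑ x ∈ W, run D y x ≤
      ∑ i ∈ range (κ + 2), 2 ^ i * ∑ x ∈ W, (V.filter (fun y => 2 ^ i ≤ run D y x)).card := by
    have h1 : ∑ y ∈ V, ∑ x ∈ W, run D y x ≤
        ∑ y ∈ V, ∑ x ∈ W, ∑ i ∈ range (κ + 2), (if 2 ^ i ≤ run D y x then 2 ^ i else 0) := by
      refine Finset.sum_le_sum fun y _ => Finset.sum_le_sum fun x hx => rs_dyadic _ _ ?_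
      have := hrun y x (hW x hx)
      rw [pow_add, show (2 : ℕ) ^ 2 = 4 by norm_num, mul_comm]
      exact this
    refine h1.trans (le_of_eq ?_)
    rw [Finset.sum_comm]
    have h2 : ∀ x ∈ W, ∑ y ∈ V, ∑ i ∈ range (κ + 2), (if 2 ^ i ≤ run D y x then 2 ^ i else 0) =
        ∑ i ∈ range (κ + 2), 2 ^ i * (V.filter (fun y => 2 ^ i ≤ run D y x)).card := by
      intro x _
      rw [Finset.sum_comm]
      refine Finset.sum_congr rfl fun i _ => ?_
      rw [← Finset.sum_filter, Finset.sum_const, smul_eq_mul, mul_comm]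
    rw [Finset.sum_congr rfl h2, Finset.sum_comm]
    refine Finset.sum_congr rfl fun i _ => ?_
    rw [Finset.mul_sum]
  -- step B
  have hB : ∀ i ≤ κ, ((∑ x ∈ W, (V.filter (fun y => 2 ^ i ≤ run D y x)).card : ℕ) : ℝ) ≤
      2 * r * ((V.card : ℝ) / 4 ^ (2 ^ i) + 2 ^ (κ - i)) + K * 4 ^ K * V.card := by
    intro i hi
    have hb := kst_bad hi hD V W hW (fun y hy y' hy' h => by
      have := hV y hy y' hy' h
      rw [← hK]; omega)
    set B := W.filter (fun x => V.card + 4 ^ (2 ^ i) * 2 ^ (κ - i) ≤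
      4 ^ (2 ^ i) * (V.filter (fun y => 2 ^ i ≤ run D y x)).card) with hBdef
    have hx : ∀ x ∈ W, ((V.filter (fun y => 2 ^ i ≤ run D y x)).card : ℝ) ≤
        ((V.card : ℝ) / 4 ^ (2 ^ i) + 2 ^ (κ - i)) + (if x ∈ B then (V.card : ℝ) else 0) := by
      intro x hx
      by_cases hxB : x ∈ B
      · rw [if_pos hxB]
        have : ((V.filter (fun y => 2 ^ i ≤ run D y x)).card : ℝ) ≤ V.card := by
          exact_mod_cast Finset.card_filter_le _ _
        have h0 : (0 : ℝ) ≤ (V.card : ℝ) / 4 ^ (2 ^ i) + 2 ^ (κ - i) := by positivity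
        linarith
      · rw [if_neg hxB, add_zero]
        have h1 : ¬ (V.card + 4 ^ (2 ^ i) * 2 ^ (κ - i) ≤
            4 ^ (2 ^ i) * (V.filter (fun y => 2 ^ i ≤ run D y x)).card) := by
          intro h
          exact hxB (Finset.mem_filter.mpr ⟨hx, h⟩)
        push Not at h1
        have h2 : (4 : ℝ) ^ (2 ^ i) * ((V.filter (fun y => 2 ^ i ≤ run D y x)).card : ℝ) ≤
            V.card + 4 ^ (2 ^ i) * 2 ^ (κ - i) := by exact_mod_cast h1.le
        have h3 : (0 : ℝ) < 4 ^ (2 ^ i) := by positivity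
        rw [div_add' _ _ _ h3.ne', le_div_iff₀ h3]
        linarith
    push_cast
    calc ∑ x ∈ W, ((V.filter (fun y => 2 ^ i ≤ run D y x)).card : ℝ)
        ≤ ∑ x ∈ W, (((V.card : ℝ) / 4 ^ (2 ^ i) + 2 ^ (κ - i)) +
            (if x ∈ B then (V.card : ℝ) else 0)) := Finset.sum_le_sum hx
      _ = W.card * ((V.card : ℝ) / 4 ^ (2 ^ i) + 2 ^ (κ - i)) + B.card * V.card := by
          rw [Finset.sum_add_distrib, Finset.sum_const, nsmul_eq_mul, ← Finset.sum_filter,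
            Finset.sum_const, nsmul_eq_mul]
          congr 3
          rw [Finset.filter_mem_eq_inter, Finset.inter_eq_right.mpr (Finset.filter_subset _ _)]
      _ ≤ 2 * r * ((V.card : ℝ) / 4 ^ (2 ^ i) + 2 ^ (κ - i)) + K * 4 ^ K * V.card := by
          have h1 : (W.card : ℝ) ≤ 2 * r := by exact_mod_cast hWc
          have h2 : (B.card : ℝ) ≤ K * 4 ^ K := by exact_mod_cast hb
          gcongr
  -- step C
  have hC : ((∑ x ∈ W, (V.filter (fun y => 2 ^ (κ + 1) ≤ run D y x)).card : ℕ) : ℝ) ≤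
      K * V.card := by
    have h1 : ∑ x ∈ W, (V.filter (fun y => 2 ^ (κ + 1) ≤ run D y x)).card =
        ∑ y ∈ V, (W.filter (fun x => 2 ^ (κ + 1) ≤ run D y x)).card := by
      simp only [Finset.card_filter]
      rw [Finset.sum_comm]
    rw [h1]
    have h2 : ∀ y ∈ V, (W.filter (fun x => 2 ^ (κ + 1) ≤ run D y x)).card ≤ K := by
      intro y _
      by_contra hcon
      push Not at hcon
      obtain ⟨T, hT, hTc⟩ := Finset.exists_subset_card_eq hcon.le
      refine hD (Finset.Ico y (y + K)) T (by simp) hTc (fun x hx => ?_) (fun y' hy' x hx => ?_)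
      · exact hW x (Finset.mem_filter.mp (hT hx)).1
      · have h3 := (Finset.mem_filter.mp (hT hx)).2
        rw [Finset.mem_Ico] at hy'
        obtain ⟨k, rfl⟩ := Nat.exists_eq_add_of_le hy'.1
        refine run_lt ?_
        have h4 : 2 ^ (κ + 1) = 2 * K := by rw [pow_succ, hK]; ring
        omega
    have h3 : ∑ y ∈ V, (W.filter (fun x => 2 ^ (κ + 1) ≤ run D y x)).card ≤ K * V.card := by
      calc ∑ y ∈ V, (W.filter (fun x => 2 ^ (κ + 1) ≤ run D y x)).card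
          ≤ ∑ y ∈ V, K := Finset.sum_le_sum h2
        _ = K * V.card := by rw [Finset.sum_const, smul_eq_mul, mul_comm]
    exact_mod_cast h3
  -- the sum over the scales
  have hv : (V.card : ℝ) ≤ r := by exact_mod_cast hVc
  have hr' : (16 : ℝ) ^ K ≤ r := by exact_mod_cast hr
  have hsum : ((∑ i ∈ range (κ + 2), 2 ^ i *
      ∑ x ∈ W, (V.filter (fun y => 2 ^ i ≤ run D y x)).card : ℕ) : ℝ) ≤
      2 * r * V.card * (19 / 48) + 2 * r * K * (κ + 1) + 2 * K * (K * 4 ^ K * V.card)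
        + 2 * K * (K * V.card) := by
    rw [Finset.sum_range_succ]
    push_cast
    have h1 : ∑ i ∈ range (κ + 1), (2 : ℝ) ^ i *
        ∑ x ∈ W, ((V.filter (fun y => 2 ^ i ≤ run D y x)).card : ℝ) ≤
        ∑ i ∈ range (κ + 1), (2 * r * V.card * ((2 : ℝ) ^ i / 4 ^ (2 ^ i)) + 2 * r * K +
          2 ^ i * (K * 4 ^ K * V.card)) := by
      refine Finset.sum_le_sum fun i hi => ?_
      have hi' : i ≤ κ := by rw [Finset.mem_range] at hi; omega
      have h2 := hB i hi'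
      push_cast at h2
      have h3 : (2 : ℝ) ^ i * 2 ^ (κ - i) = K := by
        rw [← pow_add, Nat.add_sub_cancel' hi', hK]; push_cast; rfl
      calc (2 : ℝ) ^ i * ∑ x ∈ W, ((V.filter (fun y => 2 ^ i ≤ run D y x)).card : ℝ)
          ≤ 2 ^ i * (2 * r * ((V.card : ℝ) / 4 ^ (2 ^ i) + 2 ^ (κ - i)) + K * 4 ^ K * V.card) := by
            gcongr
        _ = 2 * r * V.card * ((2 : ℝ) ^ i / 4 ^ (2 ^ i)) + 2 * r * ((2 : ℝ) ^ i * 2 ^ (κ - i)) +
          2 ^ i * (K * 4 ^ K * V.card) := by ring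
        _ = _ := by rw [h3]
    have h4 : ∑ i ∈ range (κ + 1), (2 * r * V.card * ((2 : ℝ) ^ i / 4 ^ (2 ^ i)) + 2 * r * K +
          2 ^ i * (K * 4 ^ K * V.card)) ≤
        2 * (r : ℝ) * V.card * (19 / 48) + 2 * (r : ℝ) * K * (κ + 1) +
          2 * (K : ℝ) * (K * 4 ^ K * V.card) := by
      rw [Finset.sum_add_distrib, Finset.sum_add_distrib, ← Finset.mul_sum, Finset.sum_const,
        ← Finset.sum_mul, Finset.card_range, nsmul_eq_mul]
      have h5 := rs_series (κ + 1) (by omega)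
      have h6 : (0 : ℝ) ≤ (1 / 3) * (1 / 4) ^ (κ + 1) := by positivity
      have h7 : ∑ i ∈ range (κ + 1), (2 : ℝ) ^ i ≤ 2 * K := by
        rw [geom_sum_eq (by norm_num), hK]
        push_cast
        rw [pow_succ]
        have : (0 : ℝ) < 2 ^ κ := by positivity
        norm_num
        linarith
      have h8 : 2 * (r : ℝ) * V.card * ∑ i ∈ range (κ + 1), (2 : ℝ) ^ i / 4 ^ (2 ^ i) ≤
          2 * r * V.card * (19 / 48) := by
        gcongr
        linarith
      have h9 : (∑ i ∈ range (κ + 1), (2 : ℝ) ^ i) * (K * 4 ^ K * V.card) ≤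
          2 * K * (K * 4 ^ K * V.card) := by gcongr
      have h10 : ((κ + 1 : ℕ) : ℝ) * (2 * r * K) = 2 * r * K * (κ + 1) := by push_cast; ring
      rw [h10]
      linarith
    have h5 : (2 : ℝ) ^ (κ + 1) * ∑ x ∈ W,
        ((V.filter (fun y => 2 ^ (κ + 1) ≤ run D y x)).card : ℝ) ≤ 2 * K * (K * V.card) := by
      have h6 := hC
      push_cast at h6
      have h7 : (2 : ℝ) ^ (κ + 1) = 2 * K := by rw [pow_succ, hK]; push_cast; ring
      rw [h7]
      gcongr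
    linarith
  -- numerics
  have hnum : 2 * (K : ℝ) * (κ + 1) + 2 * K * (K * 4 ^ K) + 2 * K * K ≤ r / 5 := by
    have h1 : (κ : ℝ) + 1 ≤ K := by
      have : κ + 1 ≤ K := by rw [hK]; exact Nat.lt_two_pow_self
      exact_mod_cast this
    have h2 : ∀ k : ℕ, 8 ≤ k → 30 * k ^ 2 ≤ 4 ^ k := by
      intro k hk
      induction k, hk using Nat.le_induction with
      | base => norm_num
      | succ k hk ih =>
        have h20 : 4 ^ (k + 1) = 4 * 4 ^ k := by ring
        rw [h20]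
        nlinarith
    have h3 : 30 * (K : ℝ) ^ 2 ≤ 4 ^ K := by exact_mod_cast h2 K hK8
    have h4 : (1 : ℝ) ≤ 4 ^ K := one_le_pow₀ (by norm_num)
    have h5 : (16 : ℝ) ^ K = 4 ^ K * 4 ^ K := by
      rw [← mul_pow]; norm_num
    have h6 : (0 : ℝ) ≤ K := by positivity
    have h7 : 2 * (K : ℝ) * (κ + 1) ≤ 2 * K * K := by gcongr
    have h8 : 4 * (K : ℝ) ^ 2 ≤ 4 * K ^ 2 * 4 ^ K := by nlinarith [sq_nonneg (K : ℝ)]
    have h9 : 6 * (K : ℝ) ^ 2 * 4 ^ K ≤ 4 ^ K * 4 ^ K / 5 := by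
      have : 30 * (K : ℝ) ^ 2 * 4 ^ K ≤ 4 ^ K * 4 ^ K := by gcongr
      linarith
    rw [h5] at hr'
    have h10 : 2 * (K : ℝ) * (K * 4 ^ K) = 2 * K ^ 2 * 4 ^ K := by ring
    have h11 : 2 * (K : ℝ) * K = 2 * K ^ 2 := by ring
    rw [h10]
    rw [h11] at h7 ⊢
    linarith
  have hfin : ((∑ y ∈ V, ∑ x ∈ W, run D y x : ℕ) : ℝ) ≤ (r : ℝ) ^ 2 := by
    refine le_trans (by exact_mod_cast hA) (hsum.trans ?_)
    have h0 : (0 : ℝ) ≤ r := by positivity
    have h1 : 2 * (K : ℝ) * (K * 4 ^ K * V.card) ≤ 2 * K * (K * 4 ^ K * r) := by gcongr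
    have h2 : 2 * (K : ℝ) * (K * V.card) ≤ 2 * K * (K * r) := by gcongr
    have h3 : 2 * (r : ℝ) * V.card * (19 / 48) ≤ 2 * r * r * (19 / 48) := by gcongr
    have h4 : (2 * (K : ℝ) * (κ + 1) + 2 * K * (K * 4 ^ K) + 2 * K * K) * r ≤ r / 5 * r := by
      gcongr
    nlinarith
  exact_mod_cast hfin

end Pool.Agent.H69.AP
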