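import Pool.Agent.H69.AP.Run
import Pool.Agent.H69.AP.Super

/-! A choice of shifts that is good for all rounds and all start rows. -/

namespace Pool.Agent.H69.AP

open Finset

theorem sh_exp_le {x : ℝ} (h0 : 0 ≤ x) (h1 : x ≤ 1) : Real.exp x ≤ 1 + 2 * x := by
  have h := Real.abs_exp_sub_one_sub_id_le (x := x) (by rw [abs_of_nonneg h0]; exact h1)
  have h2 := (abs_le.1 h).2
  nlinarith

/-- extension of the shifts by `0` -/
def shExt {nb r : ℕ} (s : Fin nb → Fin r) (β : ℕ) : ℕ := if h : β < nb then (s ⟨β, h⟩ : ℕ) else 0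

theorem shExt_lt {nb r : ℕ} (hr : 1 ≤ r) (s : Fin nb → Fin r) (β : ℕ) : shExt s β < r := by
  unfold shExt
  split_ifs with h
  · exact (s ⟨β, h⟩).2
  · omega

theorem shExt_of_lt {nb r : ℕ} (s : Fin nb → Fin r) {β : ℕ} (h : β < nb) :
    shExt s β = (s ⟨β, h⟩ : ℕ) := by
  unfold shExt
  rw [dif_pos h]

open scoped Classical in
/-- one term of the sum -/
noncomputable def shTerm (D : ℕ → ℕ → Prop) (r τ : ℕ) (p : ℕ → ℕ) (S : ℕ → Prop) (s : ℕ → ℕ)
    (k y j : ℕ) : ℝ :=
  if S (k * τ + j) then (0 : ℝ) else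
        (run D (pos D (fun i => colOf r s (p (k * τ + i))) y j)
            (colOf r s (p (k * τ + j))) : ℝ) -
          2 / r * (win D r (p (k * τ + j))
            (pos D (fun i => colOf r s (p (k * τ + i))) y j) : ℝ)

theorem sh_colOf_congr {r : ℕ} {s s' : ℕ → ℕ} {c : ℕ} (h : s (c / r) = s' (c / r)) :
    colOf r s c = colOf r s' c := by
  unfold colOf
  rw [h]

theorem shTerm_congr (D : ℕ → ℕ → Prop) (r τ : ℕ) (p : ℕ → ℕ) (S : ℕ → Prop) {s s' : ℕ → ℕ}
    (k y j : ℕ) (h : ∀ i ≤ j, s (p (k * τ + i) / r) = s' (p (k * τ + i) / r)) :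
    shTerm D r τ p S s k y j = shTerm D r τ p S s' k y j := by
  have h1 : pos D (fun i => colOf r s (p (k * τ + i))) y j =
      pos D (fun i => colOf r s' (p (k * τ + i))) y j :=
    pos_congr D _ _ y j fun i hi => sh_colOf_congr (h i (by omega))
  have h2 : colOf r s (p (k * τ + j)) = colOf r s' (p (k * τ + j)) := sh_colOf_congr (h j le_rfl)
  unfold shTerm
  rw [h1, h2]

/-- the columns of the shifted block are distinct columns of the window -/
theorem sh_sum_cols (D : ℕ → ℕ → Prop) (r c Y : ℕ) (hr : 1 ≤ r) :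
    ∑ σ : Fin r, run D Y (2 * r * (c / r) + (σ : ℕ) + c % r) ≤ win D r c Y := by
  have ho : c % r < r := Nat.mod_lt _ (by omega)
  have h1 : ∑ σ : Fin r, run D Y (2 * r * (c / r) + (σ : ℕ) + c % r) =
      ∑ i ∈ range r, run D Y (2 * r * (c / r) + c % r + i) := by
    rw [Fin.sum_univ_eq_sum_range (fun i => run D Y (2 * r * (c / r) + i + c % r)) r]
    refine sum_congr rfl fun i _ => ?_
    congr 1
    omega
  have h2 : ∑ i ∈ range r, run D Y (2 * r * (c / r) + c % r + i) =
      ∑ x ∈ Ico (2 * r * (c / r) + c % r) (2 * r * (c / r) + c % r + r), run D Y x := by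
    rw [Finset.sum_Ico_eq_sum_range]
    congr 2
    omega
  rw [h1, h2]
  unfold win
  refine Finset.sum_le_sum_of_subset ?_
  exact Finset.Ico_subset_Ico (by omega) (by omega)

theorem sh_avg {r B : ℕ} (hr : 1 ≤ r) (hB : 1 ≤ B) (D : ℕ → ℕ → Prop) (c Y : ℕ)
    (hrun : ∀ x, x < 2 * r * (c / r) + 2 * r → run D Y x ≤ B) :
    ∑ σ : Fin r, Real.exp (((run D Y (2 * r * (c / r) + (σ : ℕ) + c % r) : ℕ) -
      2 / r * (win D r c Y : ℝ)) / B) ≤ r := by
  have hr' : (0 : ℝ) < r := by exact_mod_cast (by omega : 0 < r)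
  have hB' : (0 : ℝ) < B := by exact_mod_cast (by omega : 0 < B)
  have ho : c % r < r := Nat.mod_lt _ (by omega)
  have h1 : ∀ σ : Fin r, Real.exp (((run D Y (2 * r * (c / r) + (σ : ℕ) + c % r) : ℕ) -
      2 / r * (win D r c Y : ℝ)) / B) ≤
      (1 + 2 * ((run D Y (2 * r * (c / r) + (σ : ℕ) + c % r) : ℕ) / B)) *
        Real.exp (-(2 * (win D r c Y : ℝ) / (r * B))) := by
    intro σ
    have hσ := σ.2
    have h2 : run D Y (2 * r * (c / r) + (σ : ℕ) + c % r) ≤ B := hrun _ (by omega)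
    have h3 : ((run D Y (2 * r * (c / r) + (σ : ℕ) + c % r) : ℕ) : ℝ) / B ≤ 1 := by
      rw [div_le_one hB']
      exact_mod_cast h2
    have h4 : (((run D Y (2 * r * (c / r) + (σ : ℕ) + c % r) : ℕ) : ℝ) -
      2 / r * (win D r c Y : ℝ)) / B =
      ((run D Y (2 * r * (c / r) + (σ : ℕ) + c % r) : ℕ) : ℝ) / B +
        (-(2 * (win D r c Y : ℝ) / (r * B))) := by
      field_simp
      ring
    rw [h4, Real.exp_add]
    exact mul_le_mul_of_nonneg_right (sh_exp_le (by positivity) h3) (Real.exp_nonneg _)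
  refine (sum_le_sum fun σ _ => h1 σ).trans ?_
  rw [← sum_mul]
  have h5 : ∑ σ : Fin r, (1 + 2 * (((run D Y (2 * r * (c / r) + (σ : ℕ) + c % r) : ℕ) : ℝ) / B)) ≤
      r * Real.exp (2 * (win D r c Y : ℝ) / (r * B)) := by
    have h6 : ∑ σ : Fin r,
        (1 + 2 * (((run D Y (2 * r * (c / r) + (σ : ℕ) + c % r) : ℕ) : ℝ) / B)) =
        r + 2 / B * ((∑ σ : Fin r, run D Y (2 * r * (c / r) + (σ : ℕ) + c % r) : ℕ) : ℝ) := by
      rw [sum_add_distrib]
      push_cast
      rw [mul_sum]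
      congr 1
      · simp
      · refine sum_congr rfl fun σ _ => ?_
        ring
    have h7 : ((∑ σ : Fin r, run D Y (2 * r * (c / r) + (σ : ℕ) + c % r) : ℕ) : ℝ) ≤
        (win D r c Y : ℝ) := by exact_mod_cast sh_sum_cols D r c Y hr
    have h8 : 2 * (win D r c Y : ℝ) / (r * B) + 1 ≤
        Real.exp (2 * (win D r c Y : ℝ) / (r * B)) := Real.add_one_le_exp _
    rw [h6]
    calc (r : ℝ) + 2 / B * ((∑ σ : Fin r, run D Y (2 * r * (c / r) + (σ : ℕ) + c % r) : ℕ) : ℝ)
        ≤ r + 2 / B * (win D r c Y : ℝ) := by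
          have : (0 : ℝ) ≤ 2 / B := by positivity
          nlinarith [mul_le_mul_of_nonneg_left h7 this]
      _ = r * (2 * (win D r c Y : ℝ) / (r * B) + 1) := by
          field_simp
          ring
      _ ≤ r * Real.exp (2 * (win D r c Y : ℝ) / (r * B)) :=
          mul_le_mul_of_nonneg_left h8 hr'.le
  calc _ ≤ r * Real.exp (2 * (win D r c Y : ℝ) / (r * B)) *
        Real.exp (-(2 * (win D r c Y : ℝ) / (r * B))) :=
        mul_le_mul_of_nonneg_right h5 (Real.exp_nonneg _)
    _ = r := by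
        rw [mul_assoc, ← Real.exp_add, add_neg_cancel, Real.exp_zero, mul_one]

theorem sh_one {r τ B nb : ℕ} (hr : 1 ≤ r) (hB : 1 ≤ B)
    (D : ℕ → ℕ → Prop) (hrun : ∀ y x, x < 2 * r * nb → run D y x ≤ B) (p : ℕ → ℕ)
    (hp : ∀ a, p a / r < nb) (S : ℕ → Prop) (hS : ∀ a, ¬ S a → ¬ Loc r τ p a) (k y : ℕ) :
    ∑ s : Fin nb → Fin r, ∏ j ∈ range τ, Real.exp (shTerm D r τ p S (shExt s) k y j / B) ≤
      (r : ℝ) ^ nb := by
  have : Nonempty (Fin r) := ⟨⟨0, by omega⟩⟩
  have hmain := superm (β := Fin nb) (γ := Fin r) 1 le_rfl τ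
    (fun j => (⟨p (k * τ + j) / r, hp _⟩ : Fin nb))
    (fun j s => Real.exp (shTerm D r τ p S (shExt s) k y j / B))
    (fun j s => Real.exp_nonneg _) ?_ ?_
  · refine hmain.trans (le_of_eq ?_)
    simp
  · intro j _ s s' h
    have h1 : shTerm D r τ p S (shExt s) k y j = shTerm D r τ p S (shExt s') k y j := by
      refine shTerm_congr D r τ p S k y j fun i hi => ?_
      rw [shExt_of_lt s (hp _), shExt_of_lt s' (hp _), h i hi]
    show Real.exp _ = Real.exp _
    rw [h1]
  · intro j hj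
    by_cases hSj : S (k * τ + j)
    · left
      intro s
      show Real.exp _ ≤ 1
      unfold shTerm
      rw [if_pos hSj]
      simp
    · right
      have hne : ∀ i, i < j → p (k * τ + i) / r ≠ p (k * τ + j) / r := by
        intro i hi heq
        exact hS _ hSj ⟨k * τ + i, by omega, by omega, heq⟩
      refine ⟨fun i hi h => hne i hi (by simpa using congrArg Fin.val h), fun s => ?_⟩
      have hlt := hp (k * τ + j)
      have hY : ∀ σ : Fin r, pos D (fun i => colOf r (shExt (Function.update s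
          (⟨p (k * τ + j) / r, hp _⟩ : Fin nb) σ)) (p (k * τ + i))) y j =
          pos D (fun i => colOf r (shExt s) (p (k * τ + i))) y j := by
        intro σ
        refine pos_congr D _ _ y j fun i hi => sh_colOf_congr ?_
        rw [shExt_of_lt _ (hp _), shExt_of_lt _ (hp _), Function.update_of_ne]
        intro h
        exact hne i hi (by simpa using congrArg Fin.val h)
      have hcol : ∀ σ : Fin r, colOf r (shExt (Function.update s
          (⟨p (k * τ + j) / r, hp _⟩ : Fin nb) σ)) (p (k * τ + j)) =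
          2 * r * (p (k * τ + j) / r) + (σ : ℕ) + p (k * τ + j) % r := by
        intro σ
        unfold colOf
        rw [shExt_of_lt _ (hp _), Function.update_self]
      have h2 := sh_avg hr hB D (p (k * τ + j))
        (pos D (fun i => colOf r (shExt s) (p (k * τ + i))) y j) (fun x hx => hrun _ x (by
          have : 2 * r * (p (k * τ + j) / r) + 2 * r = 2 * r * (p (k * τ + j) / r + 1) := by ring
          have h3 : 2 * r * (p (k * τ + j) / r + 1) ≤ 2 * r * nb := Nat.mul_le_mul_left _ hlt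
          omega))
      simp only [Fintype.card_fin, one_mul]
      refine le_trans (le_of_eq ?_) h2
      refine sum_congr rfl fun σ _ => ?_
      unfold shTerm
      rw [if_neg hSj, hY σ, hcol σ]

theorem sh_prod {D : ℕ → ℕ → Prop} {r τ B : ℕ} {p : ℕ → ℕ} {S : ℕ → Prop} (s : ℕ → ℕ) (k y : ℕ) :
    ∏ j ∈ range τ, Real.exp (shTerm D r τ p S s k y j / B) =
      Real.exp ((∑ j ∈ range τ, shTerm D r τ p S s k y j) / B) := by
  rw [← Real.exp_sum, Finset.sum_div]

open scoped Classical in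
theorem exists_shift {n r τ B M nb : ℕ} (hr : 1 ≤ r) (hB : 1 ≤ B) (hn : 1 ≤ n) (hM : 1 ≤ M)
    (D : ℕ → ℕ → Prop) (hrun : ∀ y x, x < 2 * r * nb → run D y x ≤ B) (p : ℕ → ℕ)
    (hp : ∀ a, p a / r < nb) (S : ℕ → Prop) (hS : ∀ a, ¬ S a → ¬ Loc r τ p a) :
    ∃ s : ℕ → ℕ, (∀ β, s β < r) ∧ ∀ k, k < n → ∀ y, y < M →
      ∑ j ∈ range τ, (if S (k * τ + j) then (0 : ℝ) else
        (run D (pos D (fun i => colOf r s (p (k * τ + i))) y j)
            (colOf r s (p (k * τ + j))) : ℝ) -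
          2 / r * (win D r (p (k * τ + j))
            (pos D (fun i => colOf r s (p (k * τ + i))) y j) : ℝ)) ≤
      B * Real.log (n * M) := by
  have hB' : (0 : ℝ) < B := by exact_mod_cast (by omega : 0 < B)
  have hn' : (0 : ℝ) < n := by exact_mod_cast (by omega : 0 < n)
  have hM' : (0 : ℝ) < M := by exact_mod_cast (by omega : 0 < M)
  have : Nonempty (Fin r) := ⟨⟨0, by omega⟩⟩
  have hsum : ∑ s : Fin nb → Fin r, ∑ ky ∈ range n ×ˢ range M,
      ∏ j ∈ range τ, Real.exp (shTerm D r τ p S (shExt s) ky.1 ky.2 j / B) ≤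
      ∑ _s : Fin nb → Fin r, (n * M : ℝ) := by
    rw [sum_comm]
    refine (sum_le_sum fun ky _ => sh_one hr hB D hrun p hp S hS ky.1 ky.2).trans ?_
    simp only [sum_const, card_product, card_range, nsmul_eq_mul, card_univ, Fintype.card_fun,
      Fintype.card_fin]
    push_cast
    exact le_of_eq (by ring)
  obtain ⟨s, -, hs⟩ := Finset.exists_le_of_sum_le (univ_nonempty) hsum
  refine ⟨shExt s, shExt_lt hr s, fun k hk y hy => ?_⟩
  have h1 : ∏ j ∈ range τ, Real.exp (shTerm D r τ p S (shExt s) k y j / B) ≤ n * M := by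
    refine le_trans ?_ hs
    exact Finset.single_le_sum (f := fun ky : ℕ × ℕ =>
      ∏ j ∈ range τ, Real.exp (shTerm D r τ p S (shExt s) ky.1 ky.2 j / B))
      (fun ky _ => prod_nonneg fun j _ => Real.exp_nonneg _)
      (mem_product.2 ⟨mem_range.2 hk, mem_range.2 hy⟩ : (k, y) ∈ range n ×ˢ range M)
  rw [sh_prod] at h1
  have h2 : (∑ j ∈ range τ, shTerm D r τ p S (shExt s) k y j) / B ≤ Real.log (n * M) :=
    (Real.le_log_iff_exp_le (by positivity)).2 h1
  have h3 : ∑ j ∈ range τ, shTerm D r τ p S (shExt s) k y j ≤ B * Real.log (n * M) := by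
    rw [div_le_iff₀ hB'] at h2
    linarith
  exact h3

end Pool.Agent.H69.AP
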