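import Pool.Agent.H69.AP.NewCount
import Pool.Agent.H69.AP.Def

/-! (P2) for one pair of maps. -/

namespace Pool.Agent.H69.AP

open Finset

/-- the rank of `a` in `S` -/
private def sfRank {n : ℕ} (S : Finset (Fin n)) (a : Fin n) : ℕ := (S.filter (· < a)).card

private theorem sf_rank_lt {n : ℕ} (S : Finset (Fin n)) {a b : Fin n} (ha : a ∈ S) (h : a < b) :
    sfRank S a < sfRank S b := by
  unfold sfRank
  apply Finset.card_lt_card
  rw [Finset.ssubset_iff_of_subset]
  · refine ⟨a, Finset.mem_filter.2 ⟨ha, h⟩, ?_⟩
    simp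
  · intro c hc
    rw [Finset.mem_filter] at hc ⊢
    exact ⟨hc.1, hc.2.trans h⟩

private theorem sf_rank_card {n : ℕ} (S : Finset (Fin n)) :
    (S.filter (fun a => 512 * sfRank S a < S.card)).card = (S.card + 511) / 512 := by
  have hinj : Set.InjOn (sfRank S) S := by
    intro a ha b hb hab
    rcases lt_trichotomy a b with h | h | h
    · exact absurd hab (sf_rank_lt S ha h).ne
    · exact h
    · exact absurd hab (sf_rank_lt S hb h).ne'
  have hlt : ∀ a ∈ S, sfRank S a < S.card := by
    intro a ha
    unfold sfRank
    apply Finset.card_lt_card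
    rw [Finset.ssubset_iff_of_subset (Finset.filter_subset _ _)]
    exact ⟨a, ha, by simp⟩
  have himg : S.image (sfRank S) = range S.card := by
    apply Finset.eq_of_subset_of_card_le
    · intro r hr
      rw [Finset.mem_image] at hr
      obtain ⟨a, ha, rfl⟩ := hr
      exact Finset.mem_range.2 (hlt a ha)
    · rw [Finset.card_image_of_injOn hinj, Finset.card_range]
  have h2 : (S.filter (fun a => 512 * sfRank S a < S.card)).image (sfRank S) =
      range ((S.card + 511) / 512) := by
    ext r
    rw [Finset.mem_image, Finset.mem_range]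
    constructor
    · rintro ⟨a, ha, rfl⟩
      rw [Finset.mem_filter] at ha
      have := ha.2
      omega
    · intro hr
      have hr2 : r ∈ range S.card := by
        rw [Finset.mem_range]
        omega
      rw [← himg, Finset.mem_image] at hr2
      obtain ⟨a, ha, rfl⟩ := hr2
      exact ⟨a, Finset.mem_filter.2 ⟨ha, by omega⟩, rfl⟩
  rw [← Finset.card_range ((S.card + 511) / 512), ← h2, Finset.card_image_of_injOn]
  exact hinj.mono (by
    intro a ha
    have := Finset.mem_coe.1 ha
    exact Finset.mem_coe.2 (Finset.mem_filter.1 this).1)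

/-- the rows used in the exposure -/
private def sfA {n t : ℕ} (X : ℕ) (u : Fin n → Fin t) : Finset (Fin n) :=
  univ.filter (fun a => fib u (u a) ≤ X ∧
    512 * sfRank (univ.filter (fun a' => u a' = u a)) a < fib u (u a))

private theorem sfA_fib {n t : ℕ} (X : ℕ) (u : Fin n → Fin t) (x : Fin t) :
    ((sfA X u).filter (fun a => u a = x)).card =
      if fib u x ≤ X then (fib u x + 511) / 512 else 0 := by
  split_ifs with h
  · have h1 : (sfA X u).filter (fun a => u a = x) =
        (univ.filter (fun a' => u a' = x)).filter (fun a =>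
          512 * sfRank (univ.filter (fun a' => u a' = x)) a <
            (univ.filter (fun a' => u a' = x)).card) := by
      ext a
      simp only [sfA, Finset.mem_filter, Finset.mem_univ, true_and]
      constructor
      · rintro ⟨⟨h1, h2⟩, rfl⟩
        exact ⟨rfl, h2⟩
      · rintro ⟨rfl, h2⟩
        exact ⟨⟨h, h2⟩, rfl⟩
    rw [h1, sf_rank_card]
    rfl
  · rw [Finset.card_eq_zero, Finset.filter_eq_empty_iff]
    intro a ha hax
    simp only [sfA, Finset.mem_filter, Finset.mem_univ, true_and] at ha
    rw [hax] at ha
    exact h ha.1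

private theorem sf_sum_fib {n t : ℕ} (u : Fin n → Fin t) : ∑ x : Fin t, fib u x = n := by
  unfold fib
  have h := Finset.card_eq_sum_card_fiberwise (f := u) (s := (univ : Finset (Fin n)))
    (t := (univ : Finset (Fin t))) (fun a _ => Finset.mem_coe.2 (Finset.mem_univ _))
  rw [← h, Finset.card_univ, Fintype.card_fin]

private theorem sfA_upper {n t : ℕ} (ht : 16 * t ≤ n) (X : ℕ) (u : Fin n → Fin t) :
    8 * (sfA X u).card ≤ n := by
  have h := Finset.card_eq_sum_card_fiberwise (f := u) (s := sfA X u)
    (t := (univ : Finset (Fin t))) (fun a _ => Finset.mem_coe.2 (Finset.mem_univ _))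
  have h1 : 512 * (sfA X u).card ≤ ∑ x : Fin t, (fib u x + 511) := by
    rw [h, Finset.mul_sum]
    apply Finset.sum_le_sum
    intro x _
    have := sfA_fib X u x
    rw [this]
    split_ifs
    · omega
    · omega
  rw [Finset.sum_add_distrib, sf_sum_fib, Finset.sum_const, Finset.card_univ, Fintype.card_fin,
    smul_eq_mul] at h1
  omega

private theorem sfA_lower {n t : ℕ} (X : ℕ) (u : Fin n → Fin t)
    (h1 : 8 * (univ.filter (fun a => X < fib u (u a))).card ≤ n) :
    7 * n ≤ 4096 * (sfA X u).card := by
  have h := Finset.card_eq_sum_card_fiberwise (f := u) (s := sfA X u)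
    (t := (univ : Finset (Fin t))) (fun a _ => Finset.mem_coe.2 (Finset.mem_univ _))
  have h2 : (univ.filter (fun a => fib u (u a) ≤ X)).card ≤ 512 * (sfA X u).card := by
    have h3 := Finset.card_eq_sum_card_fiberwise (f := u)
      (s := univ.filter (fun a => fib u (u a) ≤ X))
      (t := (univ : Finset (Fin t))) (fun a _ => Finset.mem_coe.2 (Finset.mem_univ _))
    rw [h3, h, Finset.mul_sum]
    apply Finset.sum_le_sum
    intro x _
    rw [sfA_fib X u x]
    split_ifs with hx
    · have h4 : ((univ.filter (fun a => fib u (u a) ≤ X)).filter (fun a => u a = x)).card ≤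
          fib u x := by
        unfold fib
        apply Finset.card_le_card
        intro a ha
        rw [Finset.mem_filter] at ha
        exact Finset.mem_filter.2 ⟨Finset.mem_univ _, ha.2⟩
      omega
    · have h4 : ((univ.filter (fun a => fib u (u a) ≤ X)).filter (fun a => u a = x)).card = 0 := by
        rw [Finset.card_eq_zero, Finset.filter_eq_empty_iff]
        intro a ha hax
        rw [Finset.mem_filter, hax] at ha
        exact hx ha.2
      omega
  have h5 : (univ.filter (fun a => fib u (u a) ≤ X)).card +
      (univ.filter (fun a => X < fib u (u a))).card = n := by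
    have h6 := Finset.card_filter_add_card_filter_not (s := (univ : Finset (Fin n)))
      (fun a => fib u (u a) ≤ X)
    rw [Finset.card_univ, Fintype.card_fin] at h6
    simp only [not_le] at h6
    exact h6
  omega

open scoped Classical in
/-- the forbidden values -/
private noncomputable def sfF {n t : ℕ} (X Y : ℕ) (u v : Fin n → Fin t) (a : Fin n)
    (s : Fin n → Fin n) : Finset (Fin n) :=
  univ.filter (fun c => Y < fib v (v c)) ∪
    univ.filter (fun c => fib v (v c) ≤ Y ∧ ∃ a' ∈ sfA X u, a' < a ∧ u a' = u a ∧ v c = v (s a'))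

open scoped Classical in
private theorem sfF_card {n t X Y : ℕ} (u v : Fin n → Fin t) (hXY : X * Y ≤ 64 * n)
    (h2 : 8 * (univ.filter (fun c => Y < fib v (v c))).card ≤ n) (a : Fin n) (ha : a ∈ sfA X u)
    (s : Fin n → Fin n) : 4 * (sfF X Y u v a s).card ≤ n := by
  have h3 : (univ.filter (fun c => fib v (v c) ≤ Y ∧
      ∃ a' ∈ sfA X u, a' < a ∧ u a' = u a ∧ v c = v (s a'))).card ≤
      sfRank (univ.filter (fun a' => u a' = u a)) a * Y := by
    have h4 : (univ.filter (fun c => fib v (v c) ≤ Y ∧
        ∃ a' ∈ sfA X u, a' < a ∧ u a' = u a ∧ v c = v (s a'))) ⊆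
        ((univ.filter (fun a' => u a' = u a)).filter (· < a)).biUnion
          (fun a' => univ.filter (fun c => fib v (v c) ≤ Y ∧ v c = v (s a'))) := by
      intro c hc
      rw [Finset.mem_filter] at hc
      obtain ⟨-, hc1, a', ha', hlt, hu, hv⟩ := hc
      rw [Finset.mem_biUnion]
      exact ⟨a', Finset.mem_filter.2 ⟨Finset.mem_filter.2 ⟨Finset.mem_univ _, hu⟩, hlt⟩,
        Finset.mem_filter.2 ⟨Finset.mem_univ _, hc1, hv⟩⟩
    refine (Finset.card_le_card h4).trans ?_
    unfold sfRank
    apply Finset.card_biUnion_le_card_mul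
    intro a' _
    rcases Finset.eq_empty_or_nonempty
      (univ.filter (fun c => fib v (v c) ≤ Y ∧ v c = v (s a'))) with he | ⟨c, hc⟩
    · rw [he]
      simp
    · rw [Finset.mem_filter] at hc
      have h5 : fib v (v (s a')) ≤ Y := by
        rw [← hc.2.2]
        exact hc.2.1
      refine le_trans ?_ h5
      unfold fib
      apply Finset.card_le_card
      intro d hd
      rw [Finset.mem_filter] at hd ⊢
      exact ⟨Finset.mem_univ _, hd.2.2⟩
  have h6 : (sfF X Y u v a s).card ≤ (univ.filter (fun c => Y < fib v (v c))).card +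
      sfRank (univ.filter (fun a' => u a' = u a)) a * Y := by
    unfold sfF
    exact (Finset.card_union_le _ _).trans (Nat.add_le_add_left h3 _)
  have ha' := ha
  simp only [sfA, Finset.mem_filter, Finset.mem_univ, true_and] at ha'
  have h7 : 512 * (sfRank (univ.filter (fun a' => u a' = u a)) a * Y) ≤ 64 * n := by
    refine le_trans ?_ hXY
    rw [← mul_assoc]
    exact Nat.mul_le_mul_right _ (by omega)
  omega

open scoped Classical in
theorem spread_fix {n t X Y : ℕ} (ht : 16 * t ≤ n) (u v : Fin n → Fin t) (hXY : X * Y ≤ 64 * n)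
    (h1 : 8 * (univ.filter (fun a => X < fib u (u a))).card ≤ n)
    (h2 : 8 * (univ.filter (fun c => Y < fib v (v c))).card ≤ n) :
    ((univ.filter (fun π : Equiv.Perm (Fin n) => 4096 * (cells π u v).card < n)).card : ℝ) ≤
      (3 / 4) ^ (n / 586) * n.factorial := by
  have hup := sfA_upper ht X u
  have hlo := sfA_lower X u h1
  have key := new_count (sfA X u) hup (sfF X Y u v)
    (by
      intro a _ s s' hs
      unfold sfF
      congr 1
      ext c
      simp only [Finset.mem_filter, Finset.mem_univ, true_and]
      constructor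
      · rintro ⟨hc, a', ha', hlt, hu, hv⟩
        exact ⟨hc, a', ha', hlt, hu, by rw [← hs a' ha' hlt]; exact hv⟩
      · rintro ⟨hc, a', ha', hlt, hu, hv⟩
        exact ⟨hc, a', ha', hlt, hu, by rw [hs a' ha' hlt]; exact hv⟩)
    (fun a ha s => sfF_card u v hXY h2 a ha s)
  have h3 : (3 / 4 : ℝ) ^ (sfA X u).card ≤ (3 / 4) ^ (n / 586) :=
    pow_le_pow_of_le_one (by norm_num) (by norm_num) (by omega)
  refine le_trans ?_ (key.trans (mul_le_mul_of_nonneg_right h3 (by positivity)))
  have h4 : (univ.filter (fun π : Equiv.Perm (Fin n) => 4096 * (cells π u v).card < n)) ⊆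
      (univ.filter (fun π : Equiv.Perm (Fin n) =>
        4 * ((sfA X u).filter (fun a => π a ∉ sfF X Y u v a π)).card ≤ (sfA X u).card)) := by
    intro π hπ
    rw [Finset.mem_filter] at hπ ⊢
    refine ⟨Finset.mem_univ _, ?_⟩
    have h5 : ((sfA X u).filter (fun a => π a ∉ sfF X Y u v a π)).card ≤ (cells π u v).card := by
      refine Finset.card_le_card_of_injOn (fun a => (u a, v (π a))) ?_ ?_
      · intro a _
        unfold cells
        exact Finset.mem_coe.2 (Finset.mem_image.2 ⟨a, Finset.mem_univ _, rfl⟩)
      · have key2 : ∀ a b : Fin n, a ∈ (sfA X u).filter (fun a => π a ∉ sfF X Y u v a π) →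
            b ∈ (sfA X u).filter (fun a => π a ∉ sfF X Y u v a π) → a < b →
            (u a, v (π a)) ≠ (u b, v (π b)) := by
          intro a b ha hb hab heq
          rw [Prod.mk.injEq] at heq
          rw [Finset.mem_filter] at ha hb
          apply hb.2
          unfold sfF
          rw [Finset.mem_union]
          by_cases hY : Y < fib v (v (π b))
          · left
            exact Finset.mem_filter.2 ⟨Finset.mem_univ _, hY⟩
          · right
            exact Finset.mem_filter.2 ⟨Finset.mem_univ _, not_lt.1 hY, a, ha.1, hab, heq.1,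
              heq.2.symm⟩
        intro a ha b hb heq
        rcases lt_trichotomy a b with h | h | h
        · exact absurd heq (key2 a b (Finset.mem_coe.1 ha) (Finset.mem_coe.1 hb) h)
        · exact h
        · exact absurd heq.symm (key2 b a (Finset.mem_coe.1 hb) (Finset.mem_coe.1 ha) h)
    have := hπ.2
    omega
  exact_mod_cast Finset.card_le_card h4

end Pool.Agent.H69.AP
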