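import Pool.Agent.H69.AP.Shift
import Pool.Agent.H69.AP.Block
import Pool.Agent.H69.AP.Rounds

/-! For a suitable choice of the shifts the greedy walk ends before row `8 n`. -/

namespace Pool.Agent.H69.AP

open Finset

open scoped Classical in
theorem total {κ r n τ : ℕ} (hκ : 3 ≤ κ) (hr : 16 ^ (2 ^ κ) ≤ r) (hrn : 2 * r ≤ n)
    (hτ : 4 * 2 ^ κ * Real.log (8 * (n : ℝ) ^ 2) ≤ τ) (hτB : 4 * 2 ^ κ ≤ τ) (hτn : 2 * τ ≤ n)
    (π : Equiv.Perm (Fin n))
    (hloc : 4 * 2 ^ κ * ((range n).filter (fun a => Loc r τ (pn π) a)).card ≤ n)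
    (D : ℕ → ℕ → Prop) (hM : ∀ y x, D y x → y < 8 * n)
    (hD : KFree (2 ^ κ) (2 * r * (n / r + 1)) D)
    (hrun : ∀ y x, x < 2 * r * (n / r + 1) → run D y x < 4 * 2 ^ κ) :
    ∃ s : ℕ → ℕ, (∀ β, s β < r) ∧ pos D (fun i => colOf r s (pn π i)) 0 n ≤ 8 * n := by
  have hr1 : 1 ≤ r := le_trans Nat.one_le_two_pow
    ((Nat.pow_le_pow_left (by norm_num : 2 ≤ 16) _).trans hr)
  have hB1 : 1 ≤ 4 * 2 ^ κ := by
    have : 1 ≤ 2 ^ κ := Nat.one_le_two_pow
    omega
  have hn1 : 1 ≤ n := by omega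
  have hτ1 : 1 ≤ τ := by omega
  have hp : ∀ a, pn π a / r < n / r + 1 := by
    intro a
    have : pn π a ≤ n := by
      unfold pn
      split_ifs with h
      · exact (π ⟨a, h⟩).2.le
      · omega
    have := Nat.div_le_div_right (c := r) this
    omega
  have hinj : ∀ a, a < n → ∀ b, b < n → pn π a = pn π b → a = b := by
    intro a ha b hb h
    unfold pn at h
    rw [dif_pos ha, dif_pos hb] at h
    have := π.injective (Fin.ext h)
    exact congrArg Fin.val this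
  obtain ⟨S, hSd⟩ : ∃ S : ℕ → Prop, ∀ a, S a ↔ (n ≤ a ∨ Loc r τ (pn π) a) :=
    ⟨fun a => n ≤ a ∨ Loc r τ (pn π) a, fun _ => Iff.rfl⟩
  obtain ⟨s, hs, h1⟩ := exists_shift (n := n) (r := r) (τ := τ) (B := 4 * 2 ^ κ) (M := 8 * n)
    (nb := n / r + 1) hr1 hB1 hn1 (by omega) D (fun y x hx => (hrun y x hx).le) (pn π) hp
    S (fun a ha h => ha ((hSd a).2 (Or.inr h)))
  refine ⟨s, hs, ?_⟩
  have hnτ : n / τ + 1 ≤ n := by
    have : n / τ ≤ n / 2 := Nat.div_le_div_left (by omega) (by norm_num)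
    omega
  have h2 := rounds_total hτ1 hnτ (by omega) D hM (pn π) s
    S (fun a ha => (hSd a).2 (Or.inl ha)) h1
  have h3 := block_total hκ hr D hD hrun le_rfl (pn π) hinj hp hτB
    (fun i => colOf r s (pn π i)) 0
  have hSL : ∀ a ∈ range n, (S a ↔ Loc r τ (pn π) a) := by
    intro a ha
    rw [mem_range] at ha
    rw [hSd]
    exact ⟨fun h => h.resolve_left (by omega), Or.inr⟩
  have e1 : ∑ a ∈ range n, ((if S a then 0 else
      win D r (pn π a) (pos D (fun i => colOf r s (pn π i)) 0 a) : ℕ) : ℝ) ≤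
      ((n / r + 1) * r ^ 2 : ℕ) := by
    rw [← Nat.cast_sum]
    refine Nat.cast_le.2 (le_trans (le_of_eq ?_) h3)
    refine Finset.sum_congr rfl fun a ha => ?_
    by_cases h : Loc r τ (pn π) a
    · rw [if_pos h, if_pos ((hSL a ha).2 h)]
    · rw [if_neg h, if_neg (fun h' => h ((hSL a ha).1 h'))]
  have hcol : ∀ a, colOf r s (pn π a) < 2 * r * (n / r + 1) := by
    intro a
    unfold colOf
    have g1 := hs (pn π a / r)
    have g2 : pn π a % r < r := Nat.mod_lt _ hr1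
    have g3 := hp a
    have g4 : 2 * r * (pn π a / r + 1) ≤ 2 * r * (n / r + 1) := Nat.mul_le_mul_left _ (by omega)
    have g5 : 2 * r * (pn π a / r + 1) = 2 * r * (pn π a / r) + 2 * r := by ring
    omega
  have e2 : ∑ a ∈ range n, (if S a then
      run D (pos D (fun i => colOf r s (pn π i)) 0 a) (colOf r s (pn π a)) else 0) ≤ n := by
    refine le_trans ?_ hloc
    rw [Finset.card_filter, Finset.mul_sum]
    refine Finset.sum_le_sum fun a ha => ?_
    by_cases h : Loc r τ (pn π) a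
    · rw [if_pos h, if_pos ((hSL a ha).2 h), mul_one]
      exact (hrun _ _ (hcol a)).le
    · rw [if_neg h, if_neg (fun h' => h ((hSL a ha).1 h'))]
      exact Nat.zero_le _
  have e3 : pos D (fun i => colOf r s (pn π i)) 0 n = n +
      (∑ a ∈ range n, (if S a then
        run D (pos D (fun i => colOf r s (pn π i)) 0 a) (colOf r s (pn π a)) else 0) +
      ∑ a ∈ range n, (if S a then 0 else
        run D (pos D (fun i => colOf r s (pn π i)) 0 a) (colOf r s (pn π a)))) := by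
    rw [pos_eq_sum, zero_add, ← Finset.sum_add_distrib]
    congr 1
    refine Finset.sum_congr rfl fun a _ => ?_
    split_ifs <;> simp
  have e4 : ((∑ a ∈ range n, (if S a then 0 else
        run D (pos D (fun i => colOf r s (pn π i)) 0 a) (colOf r s (pn π a))) : ℕ) : ℝ) =
      ∑ a ∈ range n, (if S a then (0 : ℝ) else
        (run D (pos D (fun i => colOf r s (pn π i)) 0 a) (colOf r s (pn π a)) : ℝ)) := by
    push_cast
    refine Finset.sum_congr rfl fun a _ => ?_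
    split_ifs <;> simp
  have hr0 : (0 : ℝ) < r := by exact_mod_cast hr1
  have hlog : (4 * 2 ^ κ : ℕ) * Real.log ((n : ℝ) * ((8 * n : ℕ) : ℝ)) ≤ τ := by
    have : (n : ℝ) * ((8 * n : ℕ) : ℝ) = 8 * (n : ℝ) ^ 2 := by push_cast; ring
    rw [this]
    push_cast
    exact hτ
  have e5 : ((n / τ + 1 : ℕ) : ℝ) *
      ((4 * 2 ^ κ : ℕ) * Real.log ((n : ℝ) * ((8 * n : ℕ) : ℝ))) ≤ n + τ := by
    calc ((n / τ + 1 : ℕ) : ℝ) *
        ((4 * 2 ^ κ : ℕ) * Real.log ((n : ℝ) * ((8 * n : ℕ) : ℝ)))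
        ≤ ((n / τ + 1 : ℕ) : ℝ) * τ := mul_le_mul_of_nonneg_left hlog (by positivity)
      _ = (((n / τ + 1) * τ : ℕ) : ℝ) := by push_cast; ring
      _ ≤ ((n + τ : ℕ) : ℝ) := by
          refine Nat.cast_le.2 ?_
          have := Nat.div_mul_le_self n τ
          rw [add_mul, one_mul]
          omega
      _ = n + τ := by push_cast; ring
  have e6 : 2 / (r : ℝ) * (((n / r + 1) * r ^ 2 : ℕ) : ℝ) ≤ 2 * n + 2 * r := by
    have g1 : 2 / (r : ℝ) * (((n / r + 1) * r ^ 2 : ℕ) : ℝ) =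
        ((2 * ((n / r + 1) * r) : ℕ) : ℝ) := by
      push_cast
      field_simp
    rw [g1]
    have g2 : 2 * ((n / r + 1) * r) ≤ 2 * n + 2 * r := by
      have := Nat.div_mul_le_self n r
      rw [add_mul, one_mul]
      omega
    exact_mod_cast g2
  have e7 : ((∑ a ∈ range n, (if S a then 0 else
        run D (pos D (fun i => colOf r s (pn π i)) 0 a) (colOf r s (pn π a))) : ℕ) : ℝ) ≤
      ((n + τ + (2 * n + 2 * r) : ℕ) : ℝ) := by
    rw [e4]
    refine h2.trans ?_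
    have g1 := mul_le_mul_of_nonneg_left e1 (show (0 : ℝ) ≤ 2 / r by positivity)
    push_cast at g1 e5 e6 ⊢
    linarith
  have e8 := Nat.cast_le.1 e7
  rw [e3]
  omega

end Pool.Agent.H69.AP
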