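import Pool.Agent.H69.AP.Core
import Pool.Agent.H69.AP.Red

/-! The upper bound for permutations with few local elements. -/

namespace Pool.Agent.H69.AP

open Finset

open scoped Classical in
theorem upper_det {κ r n τ : ℕ} (hκ : 3 ≤ κ) (hr : 16 ^ (2 ^ κ) ≤ r) (hrn : 2 * r ≤ n)
    (hτ : 4 * 2 ^ κ * Real.log (8 * (n : ℝ) ^ 2) ≤ τ) (hτn : 2 * τ ≤ n)
    (π : Equiv.Perm (Fin n))
    (hloc : 4 * 2 ^ κ * ((range n).filter (fun a => Loc r τ (pn π) a)).card ≤ n) :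
    H68.RS.R (H68.RS.P π) ≤ 8 * n * (n / 2 ^ κ + 1) := by
  have hr1 : 1 ≤ r := le_trans (Nat.one_le_pow _ _ (by norm_num)) hr
  have hn : 1 ≤ n := by omega
  have hn' : (1 : ℝ) ≤ n := by exact_mod_cast hn
  have hlog : 1 ≤ Real.log (8 * (n : ℝ) ^ 2) := by
    rw [Real.le_log_iff_exp_le (by positivity)]
    have h1 := Real.exp_one_lt_d9
    nlinarith [h1, hn']
  have hτB : 4 * 2 ^ κ ≤ τ := by
    have h1 : (4 * 2 ^ κ : ℝ) ≤ τ := by
      refine le_trans ?_ hτ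
      exact le_mul_of_one_le_right (by positivity) hlog
    exact_mod_cast h1
  have hσ : n ≤ 2 ^ κ * (n / 2 ^ κ + 1) := by
    have h1 := Nat.div_add_mod n (2 ^ κ)
    have h2 := Nat.mod_lt n (show 0 < 2 ^ κ by positivity)
    rw [mul_add, mul_one]
    omega
  exact R_le_of_embed hn hσ π
    fun D hM hD => core_embed hκ hr hrn hτ hτB hτn π hloc D hM hD

end Pool.Agent.H69.AP
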